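import Pool.Agent.Helper66.RM.Defs

/-!
# Conditioning on the configuration outside a region, and locality
-/

set_option autoImplicit false

namespace Pool.Agent.RM

open Finset
open scoped Classical

variable {V : Type*} [Fintype V]

theorem fiber_split {H : SimpleGraph V} {U R M : Finset V} (hM : M ∈ ind H U) :
    M \ R ∈ ind H (U \ R) ∧ M ∩ R ∈ ind H (free H U R (M \ R)) := by
  rw [mem_ind] at hM
  obtain ⟨h1, h2⟩ := hM
  constructor
  · rw [mem_ind]
    refine ⟨sdiff_subset_sdiff h1 (Subset.refl R), fun e he f hf => ?_⟩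
    exact h2 e (mem_sdiff.1 he).1 f (mem_sdiff.1 hf).1
  · rw [mem_ind]
    refine ⟨fun e he => ?_, fun e he f hf => ?_⟩
    · rw [mem_inter] at he
      rw [mem_free]
      exact ⟨⟨h1 he.1, he.2⟩, fun g hg => h2 e he.1 g (mem_sdiff.1 hg).1⟩
    · exact h2 e (mem_inter.1 he).1 f (mem_inter.1 hf).1

theorem fiber_union {H : SimpleGraph V} {U R J I : Finset V} (hJ : J ∈ ind H (U \ R))
    (hI : I ∈ ind H (free H U R J)) : J ∪ I ∈ ind H U ∧ (J ∪ I) \ R = J ∧ (J ∪ I) ∩ R = I := by
  rw [mem_ind] at hJ hI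
  obtain ⟨hJ1, hJ2⟩ := hJ
  obtain ⟨hI1, hI2⟩ := hI
  have hIm : ∀ x ∈ I, (x ∈ U ∧ x ∈ R) ∧ ∀ g ∈ J, ¬ H.Adj x g := fun x hx => mem_free.1 (hI1 hx)
  have hJm : ∀ x ∈ J, x ∈ U ∧ x ∉ R := fun x hx => mem_sdiff.1 (hJ1 hx)
  refine ⟨?_, ?_, ?_⟩
  · rw [mem_ind]
    refine ⟨fun x hx => ?_, fun x hx y hy => ?_⟩
    · rcases mem_union.1 hx with h | h
      · exact (hJm x h).1
      · exact (hIm x h).1.1
    · rcases mem_union.1 hx with h | h
      · rcases mem_union.1 hy with h' | h'
        · exact hJ2 x h y h'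
        · intro hadj
          exact (hIm y h').2 x h hadj.symm
      · rcases mem_union.1 hy with h' | h'
        · exact (hIm x h).2 y h'
        · exact hI2 x h y h'
  · ext x
    rw [mem_sdiff, mem_union]
    constructor
    · rintro ⟨h | h, h2⟩
      · exact h
      · exact absurd (hIm x h).1.2 h2
    · intro h
      exact ⟨Or.inl h, (hJm x h).2⟩
  · ext x
    rw [mem_inter, mem_union]
    constructor
    · rintro ⟨h | h, h2⟩
      · exact absurd h2 (hJm x h).2
      · exact h
    · intro h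
      exact ⟨Or.inr h, (hIm x h).1.2⟩

omit [Fintype V] in
theorem fiber_wt (lam : V → ℝ) (R M : Finset V) :
    wt lam M = wt lam (M \ R) * wt lam (M ∩ R) := by
  unfold wt
  rw [← prod_union (disjoint_sdiff_inter M R), sdiff_union_inter]

/-- Summation over the configurations outside `R` and inside `R`. -/
theorem fiber_sum (H : SimpleGraph V) (lam : V → ℝ) (U R : Finset V) {n : ℕ}
    (Φ : (Fin n → Finset V) → ℝ) :
    ∑ M ∈ fam H (fun _ : Fin n => U), pw lam M * Φ M =
      ∑ J ∈ fam H (fun _ : Fin n => U \ R), pw lam J *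
        ∑ I ∈ fam H (fun i => free H U R (J i)), pw lam I * Φ (fun i => J i ∪ I i) := by
  have h1 : ∑ J ∈ fam H (fun _ : Fin n => U \ R), pw lam J *
        ∑ I ∈ fam H (fun i => free H U R (J i)), pw lam I * Φ (fun i => J i ∪ I i) =
      ∑ x ∈ (fam H (fun _ : Fin n => U \ R)).sigma
        (fun J => fam H (fun i => free H U R (J i))),
        pw lam x.1 * (pw lam x.2 * Φ (fun i => x.1 i ∪ x.2 i)) := by
    rw [sum_sigma]
    refine sum_congr rfl (fun J _ => ?_)
    rw [mul_sum]
  rw [h1]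
  refine sum_bij' (fun M _ => ⟨fun i => M i \ R, fun i => M i ∩ R⟩)
    (fun x _ => fun i => x.1 i ∪ x.2 i) ?_ ?_ ?_ ?_ ?_
  · intro M hM
    rw [mem_fam] at hM
    rw [mem_sigma]
    refine ⟨?_, ?_⟩
    · rw [mem_fam]
      exact fun i => (fiber_split (hM i)).1
    · rw [mem_fam]
      exact fun i => (fiber_split (hM i)).2
  · intro x hx
    rw [mem_sigma] at hx
    obtain ⟨hx1, hx2⟩ := hx
    rw [mem_fam] at hx1 hx2 ⊢
    exact fun i => (fiber_union (hx1 i) (hx2 i)).1
  · intro M _
    funext i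
    exact sdiff_union_inter (M i) R
  · intro x hx
    rw [mem_sigma] at hx
    obtain ⟨hx1, hx2⟩ := hx
    rw [mem_fam] at hx1 hx2
    obtain ⟨J, I⟩ := x
    have e1 : (fun i => (J i ∪ I i) \ R) = J :=
      funext (fun i => (fiber_union (hx1 i) (hx2 i)).2.1)
    have e2 : (fun i => (J i ∪ I i) ∩ R) = I :=
      funext (fun i => (fiber_union (hx1 i) (hx2 i)).2.2)
    show (⟨fun i => (J i ∪ I i) \ R, fun i => (J i ∪ I i) ∩ R⟩ :
      (_ : Fin n → Finset V) × (Fin n → Finset V)) = ⟨J, I⟩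
    rw [e1, e2]
  · intro M _
    have e1 : pw lam M = pw lam (fun i => M i \ R) * pw lam (fun i => M i ∩ R) := by
      unfold pw
      rw [← prod_mul_distrib]
      exact prod_congr rfl (fun i _ => fiber_wt lam R (M i))
    have e2 : (fun i => (M i \ R) ∪ (M i ∩ R)) = M :=
      funext (fun i => sdiff_union_inter (M i) R)
    show pw lam M * Φ M = pw lam (fun i => M i \ R) *
      (pw lam (fun i => M i ∩ R) * Φ (fun i => (M i \ R) ∪ (M i ∩ R)))
    rw [e1, e2, mul_assoc]

/-- If `A` has probability at most `p` in every fibre, then the same holds given any event `B`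
which depends only on the configuration outside `R`. -/
theorem fiber (H : SimpleGraph V) {lam : V → ℝ} (h0 : ∀ e, 0 ≤ lam e) (U R : Finset V) {n : ℕ}
    (A B : (Fin n → Finset V) → Prop)
    (hB : ∀ M M' : Fin n → Finset V, (∀ i, M i \ R = M' i \ R) → (B M ↔ B M')) (p : ℝ)
    (hA : ∀ J : Fin n → Finset V, (∀ i, J i ∈ ind H (U \ R)) →
      ∑ I ∈ (fam H (fun i => free H U R (J i))).filter (fun I => A (fun i => J i ∪ I i)),
        pw lam I ≤ p * ∏ i, Zf H lam (free H U R (J i))) :
    ∑ M ∈ (fam H (fun _ : Fin n => U)).filter (fun M => A M ∧ B M), pw lam M ≤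
      p * ∑ M ∈ (fam H (fun _ : Fin n => U)).filter B, pw lam M := by
  have e1 : ∀ (S : (Fin n → Finset V) → Prop) [DecidablePred S],
      ∑ M ∈ (fam H (fun _ : Fin n => U)).filter S, pw lam M =
        ∑ M ∈ fam H (fun _ : Fin n => U), pw lam M * (if S M then 1 else 0) := by
    intro S _
    rw [sum_filter]
    refine sum_congr rfl (fun M _ => ?_)
    by_cases h : S M
    · rw [if_pos h, if_pos h, mul_one]
    · rw [if_neg h, if_neg h, mul_zero]
  rw [e1 (fun M => A M ∧ B M), e1 B, fiber_sum H lam U R, fiber_sum H lam U R, mul_sum]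
  refine sum_le_sum (fun J hJ => ?_)
  rw [mem_fam] at hJ
  have hBJ : ∀ I ∈ fam H (fun i => free H U R (J i)), (B (fun i => J i ∪ I i) ↔ B J) := by
    intro I hI
    rw [mem_fam] at hI
    refine hB _ _ (fun i => ?_)
    rw [(fiber_union (hJ i) (hI i)).2.1]
    have h3 := (mem_ind.1 (hJ i)).1
    exact (sdiff_eq_self_of_disjoint (disjoint_of_subset_left h3 sdiff_disjoint)).symm
  by_cases hb : B J
  · have s1 : ∑ I ∈ fam H (fun i => free H U R (J i)), pw lam I *
        (if (A (fun i => J i ∪ I i) ∧ B (fun i => J i ∪ I i)) then (1 : ℝ) else 0) =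
        ∑ I ∈ (fam H (fun i => free H U R (J i))).filter (fun I => A (fun i => J i ∪ I i)),
          pw lam I := by
      rw [sum_filter]
      refine sum_congr rfl (fun I hI => ?_)
      have hbi := (hBJ I hI).2 hb
      by_cases h : A (fun i => J i ∪ I i)
      · rw [if_pos ⟨h, hbi⟩, if_pos h, mul_one]
      · rw [if_neg (fun h' => h h'.1), if_neg h, mul_zero]
    have s2 : ∑ I ∈ fam H (fun i => free H U R (J i)), pw lam I *
        (if B (fun i => J i ∪ I i) then (1 : ℝ) else 0) =
        ∏ i, Zf H lam (free H U R (J i)) := by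
      rw [← sum_fam]
      refine sum_congr rfl (fun I hI => ?_)
      rw [if_pos ((hBJ I hI).2 hb), mul_one]
    have s3 := hA J hJ
    calc pw lam J * ∑ I ∈ fam H (fun i => free H U R (J i)), pw lam I *
          (if (A (fun i => J i ∪ I i) ∧ B (fun i => J i ∪ I i)) then (1 : ℝ) else 0)
        = pw lam J * ∑ I ∈ (fam H (fun i => free H U R (J i))).filter
            (fun I => A (fun i => J i ∪ I i)), pw lam I := by rw [s1]
      _ ≤ pw lam J * (p * ∏ i, Zf H lam (free H U R (J i))) :=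
          mul_le_mul_of_nonneg_left s3 (pw_nonneg h0 J)
      _ = p * (pw lam J * ∏ i, Zf H lam (free H U R (J i))) := by ring
      _ = _ := by rw [s2]
  · have s1 : ∑ I ∈ fam H (fun i => free H U R (J i)), pw lam I *
        (if (A (fun i => J i ∪ I i) ∧ B (fun i => J i ∪ I i)) then (1 : ℝ) else 0) = 0 := by
      refine sum_eq_zero (fun I hI => ?_)
      rw [if_neg (fun h' => hb ((hBJ I hI).1 h'.2)), mul_zero]
    have s2 : ∑ I ∈ fam H (fun i => free H U R (J i)), pw lam I *
        (if B (fun i => J i ∪ I i) then (1 : ℝ) else 0) = 0 := by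
      refine sum_eq_zero (fun I hI => ?_)
      rw [if_neg (fun h' => hb ((hBJ I hI).1 h')), mul_zero]
    rw [s1, s2, mul_zero, mul_zero]

theorem ball_card (H : SimpleGraph V) {D : ℕ} (hD : ∀ e, (nb H e).card ≤ D) (r : ℕ) (x : V) :
    (ball H r x).card ≤ D ^ r := by
  induction r with
  | zero =>
    rw [ball_zero, card_singleton, pow_zero]
  | succ r ih =>
    have h1 : (ball H (r + 1) x).card ≤ (ball H r x).card * D :=
      card_biUnion_le_card_mul _ _ _ (fun z _ => hD z)
    calc (ball H (r + 1) x).card ≤ (ball H r x).card * D := h1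
      _ ≤ D ^ r * D := Nat.mul_le_mul_right D ih
      _ = D ^ (r + 1) := (pow_succ D r).symm

theorem ball_add {H : SimpleGraph V} {r s : ℕ} {x y z : V} (h1 : y ∈ ball H r x)
    (h2 : z ∈ ball H s y) : z ∈ ball H (r + s) x := by
  induction s generalizing z with
  | zero =>
    rw [ball_zero, mem_singleton] at h2
    rw [h2]
    exact h1
  | succ s ih =>
    rw [mem_ball_succ] at h2
    obtain ⟨w, hw, hz⟩ := h2
    show z ∈ ball H ((r + s) + 1) x
    rw [mem_ball_succ]
    exact ⟨w, ih hw, hz⟩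

theorem nb_eq_ball_one (H : SimpleGraph V) {x y : V} : y ∈ nb H x ↔ y ∈ ball H 1 x := by
  show y ∈ nb H x ↔ y ∈ ball H (0 + 1) x
  rw [mem_ball_succ]
  constructor
  · intro h
    exact ⟨x, by rw [ball_zero, mem_singleton], h⟩
  · rintro ⟨z, hz, h⟩
    rw [ball_zero, mem_singleton] at hz
    rw [hz] at h
    exact h

theorem ball_comm_aux {H : SimpleGraph V} {r : ℕ} {x y : V} (h : y ∈ ball H r x) :
    x ∈ ball H r y := by
  induction r generalizing y with
  | zero =>
    rw [ball_zero, mem_singleton] at h ⊢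
    exact h.symm
  | succ r ih =>
    rw [mem_ball_succ] at h
    obtain ⟨z, hz, hy⟩ := h
    have h1 : z ∈ ball H 1 y := (nb_eq_ball_one H).1 (nb_comm.1 hy)
    have h2 := ball_add h1 (ih hz)
    rw [Nat.add_comm 1 r] at h2
    exact h2

theorem ball_comm {H : SimpleGraph V} {r : ℕ} {x y : V} : y ∈ ball H r x ↔ x ∈ ball H r y :=
  ⟨ball_comm_aux, ball_comm_aux⟩

theorem self_mem_ball (H : SimpleGraph V) (r : ℕ) (x : V) : x ∈ ball H r x := by
  induction r with
  | zero => rw [ball_zero, mem_singleton]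
  | succ r ih =>
    rw [mem_ball_succ]
    exact ⟨x, ih, self_mem_nb H x⟩

theorem ball_mono {H : SimpleGraph V} {r s : ℕ} (h : r ≤ s) (x : V) :
    ball H r x ⊆ ball H s x := by
  intro y hy
  have h1 := ball_add hy (self_mem_ball H (s - r) y)
  rw [Nat.add_sub_cancel' h] at h1
  exact h1

theorem free_local_aux {H : SimpleGraph V} {U : Finset V} {e : V} {M M' : Finset V}
    (h : M ∩ ball H 2 e = M' ∩ ball H 2 e) :
    free H U (nb H e) (M \ nb H e) ⊆ free H U (nb H e) (M' \ nb H e) := by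
  intro f hf
  rw [mem_free] at hf ⊢
  refine ⟨hf.1, fun g hg hadj => ?_⟩
  rw [mem_sdiff] at hg
  have h1 : f ∈ ball H 1 e := (nb_eq_ball_one H).1 hf.1.2
  have h2 : g ∈ ball H 1 f := (nb_eq_ball_one H).1 (mem_nb.2 (Or.inr hadj))
  have h3 : g ∈ ball H 2 e := ball_add h1 h2
  have h4 : g ∈ M' ∩ ball H 2 e := mem_inter.2 ⟨hg.1, h3⟩
  rw [← h] at h4
  exact hf.2 g (mem_sdiff.2 ⟨(mem_inter.1 h4).1, hg.2⟩) hadj

/-- `acond` depends only on the configuration in the ball of radius two. -/
theorem acond_local {H : SimpleGraph V} {lam : V → ℝ} {U : Finset V} {e : V} {M M' : Finset V}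
    (h : M ∩ ball H 2 e = M' ∩ ball H 2 e) : acond H lam U e M = acond H lam U e M' := by
  unfold acond
  rw [Subset.antisymm (free_local_aux (U := U) h) (free_local_aux (U := U) h.symm)]

theorem zf_local {H : SimpleGraph V} {lam : V → ℝ} {U : Finset V} {e : V} {M M' : Finset V}
    (h : M ∩ ball H 2 e = M' ∩ ball H 2 e) : zf H lam U e M = zf H lam U e M' := by
  unfold zf
  rw [acond_local h]
  have h1 : e ∈ M ↔ e ∈ M' := by
    have h2 : e ∈ M ∩ ball H 2 e ↔ e ∈ M' ∩ ball H 2 e := by rw [h]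
    rw [mem_inter, mem_inter] at h2
    have h3 := self_mem_ball H 2 e
    exact ⟨fun hm => (h2.1 ⟨hm, h3⟩).1, fun hm => (h2.2 ⟨hm, h3⟩).1⟩
  by_cases h4 : e ∈ M
  · rw [if_pos h4, if_pos (h1.1 h4)]
  · rw [if_neg h4, if_neg (fun h5 => h4 (h1.2 h5))]

end Pool.Agent.RM
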