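import Pool.Agent.Helper66.RM.Tail
import Pool.Agent.Helper66.RM.Fiber

/-!
# The core lemma: one phase
-/

set_option autoImplicit false

namespace Pool.Agent.RM

open Finset
open scoped Classical

variable {V : Type*} [Fintype V]

theorem nb_subset_ball_one (H : SimpleGraph V) (x : V) : nb H x ⊆ ball H 1 x := by
  intro y hy
  exact mem_ball_succ.2 ⟨x, by rw [ball_zero]; exact mem_singleton_self x, hy⟩

theorem mem_ball_step {H : SimpleGraph V} {r : ℕ} {x y z : V} (h1 : y ∈ ball H r x)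
    (h2 : z ∈ nb H y) : z ∈ ball H (r + 1) x := mem_ball_succ.2 ⟨y, h1, h2⟩

/-- Equality outside `R` gives equality on sets disjoint from `R`. -/
theorem inter_eq_of_sdiff_eq {α : Type*} {M M' R X : Finset α} (h : M \ R = M' \ R)
    (hd : Disjoint R X) : M ∩ X = M' ∩ X := by
  have key : ∀ {A B : Finset α}, A \ R = B \ R → A ∩ X ⊆ B ∩ X := by
    intro A B hAB a ha
    obtain ⟨h1, h2⟩ := mem_inter.1 ha
    have h3 : a ∉ R := fun h => (Finset.disjoint_left.1 hd) h h2
    have h4 : a ∈ A \ R := mem_sdiff.2 ⟨h1, h3⟩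
    rw [hAB] at h4
    exact mem_inter.2 ⟨(mem_sdiff.1 h4).1, h2⟩
  exact Subset.antisymm (key h) (key h.symm)

/-- A version of `lll` without decidability issues. -/
theorem lll_aux {Ω : Type*} (S : Finset Ω) (P : Ω → ℝ) (hP : ∀ ω ∈ S, 0 ≤ P ω)
    (hpos : 0 < ∑ ω ∈ S, P ω) {κ : Type*} [Fintype κ] (A : κ → Ω → Prop)
    (Γ : κ → Finset κ) (d : ℕ) (p : ℝ) (hp0 : 0 ≤ p) (hΓ : ∀ x, (Γ x).card ≤ d)
    (hself : ∀ x, x ∈ Γ x) (h4 : 4 * p * (d : ℝ) ≤ 1)
    (h : ∀ x, ∀ T : Finset κ, Disjoint T (Γ x) → ∀ S1 S2 : Finset Ω,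
      (∀ ω, ω ∈ S1 ↔ ω ∈ S ∧ A x ω ∧ ∀ y ∈ T, ¬ A y ω) →
      (∀ ω, ω ∈ S2 ↔ ω ∈ S ∧ ∀ y ∈ T, ¬ A y ω) → ∑ ω ∈ S1, P ω ≤ p * ∑ ω ∈ S2, P ω) :
    ∃ ω ∈ S, 0 < P ω ∧ ∀ x, ¬ A x ω :=
  lll S P hP hpos A Γ d p hp0 hΓ hself h4
    (fun x T hT => h x T hT _ _ (fun _ => mem_filter) (fun _ => mem_filter))

/-- A version of `fiber` without decidability issues. -/
theorem fiber_aux (H : SimpleGraph V) {lam : V → ℝ} (h0 : ∀ e, 0 ≤ lam e) (U R : Finset V) {n : ℕ}
    (A B : (Fin n → Finset V) → Prop) (S1 S2 : Finset (Fin n → Finset V))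
    (hS1 : ∀ M, M ∈ S1 ↔ M ∈ fam H (fun _ : Fin n => U) ∧ A M ∧ B M)
    (hS2 : ∀ M, M ∈ S2 ↔ M ∈ fam H (fun _ : Fin n => U) ∧ B M)
    (hB : ∀ M M' : Fin n → Finset V, (∀ i, M i \ R = M' i \ R) → (B M ↔ B M')) (p : ℝ)
    (hA : ∀ J : Fin n → Finset V, (∀ i, J i ∈ ind H (U \ R)) →
      ∑ I ∈ (fam H (fun i => free H U R (J i))).filter (fun I => A (fun i => J i ∪ I i)),
        pw lam I ≤ p * ∏ i, Zf H lam (free H U R (J i))) :
    ∑ M ∈ S1, pw lam M ≤ p * ∑ M ∈ S2, pw lam M := by
  have h := fiber H h0 U R A B hB p hA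
  have e1 : S1 = (fam H (fun _ : Fin n => U)).filter (fun M => A M ∧ B M) := by
    ext M
    rw [hS1, mem_filter]
  have e2 : S2 = (fam H (fun _ : Fin n => U)).filter B := by
    ext M
    rw [hS2, mem_filter]
  rw [e1, e2]
  exact h

/-- The bad events of a phase. -/
noncomputable def bad (H : SimpleGraph V) (U : Finset V) (lam rho : V → ℝ) {n : ℕ}
    (d1 e1 e2 m : ℝ) {T : Type} (c : T → V → ℝ) : V ⊕ T → (Fin n → Finset V) → Prop
  | Sum.inl e, M => e ∈ U ∧ ((nb H e ∩ uni M).card : ℝ) <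
      2 * (n : ℝ) - rho e * ∑ i, acond H lam U e (M i) - (d1 + e1) * n
  | Sum.inr t, M => e2 * m < |∑ e ∈ U, c t e * (∏ i, zf H lam U e (M i) - 1)|

theorem bad_inl (H : SimpleGraph V) (U : Finset V) (lam rho : V → ℝ) {n : ℕ}
    (d1 e1 e2 m : ℝ) {T : Type} (c : T → V → ℝ) (e : V) (M : Fin n → Finset V) :
    bad H U lam rho d1 e1 e2 m c (Sum.inl e) M ↔ (e ∈ U ∧ ((nb H e ∩ uni M).card : ℝ) <
      2 * (n : ℝ) - rho e * ∑ i, acond H lam U e (M i) - (d1 + e1) * n) := Iff.rfl

theorem bad_inr (H : SimpleGraph V) (U : Finset V) (lam rho : V → ℝ) {n : ℕ}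
    (d1 e1 e2 m : ℝ) {T : Type} (c : T → V → ℝ) (t : T) (M : Fin n → Finset V) :
    bad H U lam rho d1 e1 e2 m c (Sum.inr t) M ↔
      e2 * m < |∑ e ∈ U, c t e * (∏ i, zf H lam U e (M i) - 1)| := Iff.rfl

theorem bad_local (H : SimpleGraph V) (U : Finset V) (lam rho : V → ℝ) {n : ℕ}
    (d1 e1 e2 m : ℝ) {T : Type} (ctr : T → V) (c : T → V → ℝ)
    (hsupp : ∀ t, ∀ e ∉ nb H (ctr t), c t e = 0) (y : V ⊕ T) (M M' : Fin n → Finset V)
    (h : ∀ i, M i ∩ ball H 3 (Sum.elim id ctr y) = M' i ∩ ball H 3 (Sum.elim id ctr y)) :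
    bad H U lam rho d1 e1 e2 m c y M → bad H U lam rho d1 e1 e2 m c y M' := by
  cases y with
  | inl e =>
    simp only [Sum.elim_inl, id] at h
    have h1 : ∀ i, acond H lam U e (M' i) = acond H lam U e (M i) := by
      intro i
      refine acond_local ?_
      have hs : ball H 2 e ⊆ ball H 3 e := ball_mono (by norm_num) e
      rw [← inter_eq_right.2 hs, inter_comm (ball H 3 e), ← inter_assoc, ← inter_assoc,
        inter_right_comm, inter_right_comm (M i), h i]
    have h2 : nb H e ∩ uni M' = nb H e ∩ uni M := by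
      have hs : nb H e ⊆ ball H 3 e :=
        (nb_subset_ball_one H e).trans (ball_mono (by norm_num) e)
      ext a
      rw [mem_inter, mem_inter, mem_uni, mem_uni]
      constructor
      · rintro ⟨ha, i, hi⟩
        refine ⟨ha, i, ?_⟩
        have : a ∈ M' i ∩ ball H 3 e := mem_inter.2 ⟨hi, hs ha⟩
        rw [← h i] at this
        exact (mem_inter.1 this).1
      · rintro ⟨ha, i, hi⟩
        refine ⟨ha, i, ?_⟩
        have : a ∈ M i ∩ ball H 3 e := mem_inter.2 ⟨hi, hs ha⟩
        rw [h i] at this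
        exact (mem_inter.1 this).1
    intro hb
    rw [bad_inl] at hb ⊢
    rw [h2, sum_congr rfl (fun i _ => h1 i)]
    exact hb
  | inr t =>
    simp only [Sum.elim_inr] at h
    intro hb
    rw [bad_inr] at hb ⊢
    have h3 : ∑ e ∈ U, c t e * (∏ i, zf H lam U e (M' i) - 1) =
        ∑ e ∈ U, c t e * (∏ i, zf H lam U e (M i) - 1) := by
      refine sum_congr rfl (fun e _ => ?_)
      by_cases he : e ∈ nb H (ctr t)
      · congr 2
        refine prod_congr rfl (fun i _ => ?_)
        refine zf_local ?_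
        have hs : ball H 2 e ⊆ ball H 3 (ctr t) := by
          intro a ha
          have := ball_add (nb_subset_ball_one H _ he) ha
          exact this
        rw [← inter_eq_right.2 hs, inter_comm (ball H 3 (ctr t)), ← inter_assoc, ← inter_assoc,
          inter_right_comm, inter_right_comm (M i), h i]
      · rw [hsupp t e he, zero_mul, zero_mul]
    rw [h3]
    exact hb

/-- One phase of the machine. -/
theorem core (H : SimpleGraph V) (U : Finset V) {lam rho : V → ℝ} {Lam : ℝ}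
    (h0 : ∀ e, 0 ≤ lam e) (h1 : ∀ e, lam e ≤ Lam) (hLam : 0 ≤ Lam) (hrho : ∀ e, 0 ≤ rho e)
    {n D Q : ℕ} (hD : ∀ e, (nb H e).card ≤ D) (Bd d1 e1 e2 B m : ℝ)
    (hbd : Lam * (D : ℝ) ≤ Bd) (hd1 : 0 ≤ d1) (he1 : 0 < e1) (he2 : 0 < e2) (he21 : e2 ≤ 1)
    (hnm : (n : ℝ) ≤ m) (hn1 : 8 * (Lam * n) ≤ e1) (hn2 : 2 * (Lam * n) ≤ 1)
    (hlo : ∀ e ∈ U, ∀ J ∈ ind H (U \ nb H e), 2 - d1 ≤
      rho e * (lam e / Zf H lam (free H U (nb H e) J)) + msz H lam (free H U (nb H e) J))
    {T : Type} [Fintype T] (ctr : T → V) (c : T → V → ℝ) (hB : 0 ≤ B)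
    (hc : ∀ t, ∀ e ∈ U, |c t e| ≤ B) (hsupp : ∀ t, ∀ e ∉ nb H (ctr t), c t e = 0)
    (hQ : ∀ v, (univ.filter (fun t => ctr t = v)).card ≤ Q) (p : ℝ)
    (hp1 : Real.exp (-(e1 ^ 2 * n / (8 * Real.exp (2 * Bd)))) ≤ p)
    (hp2 : 2 * Real.exp (-(e2 ^ 2 * m / (4 * c1 B Bd))) ≤ p)
    (hp4 : 4 * p * (((Q + 1) * D ^ 5 : ℕ) : ℝ) ≤ 1) :
    ∃ M : Fin n → Finset V, (∀ i, M i ∈ ind H U) ∧
      (∀ e ∈ U, 2 * (n : ℝ) - rho e * ∑ i, acond H lam U e (M i) - (d1 + e1) * n ≤
        ((nb H e ∩ uni M).card : ℝ)) ∧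
      ∀ t, |∑ e ∈ U, c t e * (∏ i, zf H lam U e (M i) - 1)| ≤ e2 * m := by
  have hp0 : 0 ≤ p := (Real.exp_pos _).le.trans hp1
  set ctr' : V ⊕ T → V := Sum.elim id ctr with hctr'
  set Γ : V ⊕ T → Finset (V ⊕ T) :=
    fun x => univ.filter (fun y => ctr' y ∈ ball H 5 (ctr' x)) with hΓ
  have hcount : ∀ v, (univ.filter (fun y : V ⊕ T => ctr' y = v)).card ≤ Q + 1 := by
    intro v
    have hsub : univ.filter (fun y : V ⊕ T => ctr' y = v) ⊆
        {Sum.inl v} ∪ (univ.filter (fun t => ctr t = v)).map Function.Embedding.inr := by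
      intro y hy
      have hy2 := (mem_filter.1 hy).2
      rw [mem_union]
      cases y with
      | inl e =>
        left
        rw [mem_singleton]
        have : e = v := hy2
        rw [this]
      | inr t =>
        right
        rw [mem_map]
        exact ⟨t, mem_filter.2 ⟨mem_univ _, hy2⟩, rfl⟩
    refine (card_le_card hsub).trans ((card_union_le _ _).trans ?_)
    rw [card_singleton, card_map]
    have := hQ v
    omega
  have hΓcard : ∀ x, (Γ x).card ≤ (Q + 1) * D ^ 5 := by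
    intro x
    have hsub : Γ x ⊆ (ball H 5 (ctr' x)).biUnion
        (fun v => univ.filter (fun y : V ⊕ T => ctr' y = v)) := by
      intro y hy
      rw [mem_biUnion]
      exact ⟨ctr' y, (mem_filter.1 hy).2, mem_filter.2 ⟨mem_univ _, rfl⟩⟩
    refine (card_le_card hsub).trans (card_biUnion_le.trans ?_)
    refine (sum_le_sum (fun v _ => hcount v)).trans ?_
    rw [sum_const, smul_eq_mul, mul_comm]
    exact Nat.mul_le_mul_left _ (ball_card H hD 5 _)
  have hself : ∀ x, x ∈ Γ x := by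
    intro x
    refine mem_filter.2 ⟨mem_univ _, ?_⟩
    refine ball_mono (Nat.zero_le 5) _ ?_
    rw [ball_zero]
    exact mem_singleton_self _
  -- the local lemma
  have main := lll_aux (Ω := Fin n → Finset V) (fam H (fun _ : Fin n => U)) (pw lam)
    (fun M _ => pw_nonneg h0 M) (by
      rw [sum_fam]
      exact prod_pos (fun i _ => Zf_pos H h0 U)) (κ := V ⊕ T)
    (bad H U lam rho d1 e1 e2 m c) Γ ((Q + 1) * D ^ 5) p hp0 hΓcard hself hp4 ?_
  · obtain ⟨M, hM, _, hM2⟩ := main
    refine ⟨M, mem_fam.1 hM, ?_, ?_⟩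
    · intro e he
      have := hM2 (Sum.inl e)
      rw [bad_inl] at this
      by_contra hcon
      exact this ⟨he, not_le.1 hcon⟩
    · intro t
      have := hM2 (Sum.inr t)
      rw [bad_inr] at this
      exact not_lt.1 this
  · intro x T' hT' S1 S2 hS1 hS2
    -- the region
    have hdisj : ∀ y ∈ T', Disjoint (ball H 2 (ctr' x)) (ball H 3 (ctr' y)) := by
      intro y hy
      rw [Finset.disjoint_left]
      intro a ha1 ha2
      have hy2 : y ∉ Γ x := fun h => (Finset.disjoint_left.1 hT') hy h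
      apply hy2
      refine mem_filter.2 ⟨mem_univ _, ?_⟩
      exact ball_add ha1 (ball_comm.1 ha2)
    have hBloc : ∀ R : Finset V, R ⊆ ball H 2 (ctr' x) →
        ∀ M M' : Fin n → Finset V, (∀ i, M i \ R = M' i \ R) →
        ((∀ y ∈ T', ¬ bad H U lam rho d1 e1 e2 m c y M) ↔
          (∀ y ∈ T', ¬ bad H U lam rho d1 e1 e2 m c y M')) := by
      intro R hR M M' hMM
      constructor
      · intro hh y hy hb
        refine hh y hy (bad_local H U lam rho d1 e1 e2 m ctr c hsupp y M' M (fun i => ?_) hb)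
        exact (inter_eq_of_sdiff_eq (hMM i) ((hdisj y hy).mono_left hR)).symm
      · intro hh y hy hb
        refine hh y hy (bad_local H U lam rho d1 e1 e2 m ctr c hsupp y M M' (fun i => ?_) hb)
        exact inter_eq_of_sdiff_eq (hMM i) ((hdisj y hy).mono_left hR)
    cases x with
    | inl e =>
      by_cases heU : e ∈ U
      · have hR : nb H e ⊆ ball H 2 (ctr' (Sum.inl e)) :=
          (nb_subset_ball_one H e).trans (ball_mono (by norm_num) e)
        refine fiber_aux H h0 U (nb H e) (bad H U lam rho d1 e1 e2 m c (Sum.inl e))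
          (fun M => ∀ y ∈ T', ¬ bad H U lam rho d1 e1 e2 m c y M) S1 S2 hS1 hS2 (hBloc _ hR) p ?_
        intro J hJ
        set G : Fin n → Finset V := fun i => free H U (nb H e) (J i) with hG
        set mu : Fin n → ℝ := fun i => 2 - d1 - rho e * (lam e / Zf H lam (G i)) with hmu
        have hGsub : ∀ i, G i ⊆ nb H e := fun i a ha => (mem_free.1 ha).1.2
        have htail := deg_tail H h0 h1 hLam G Bd e1 (by
          intro i
          refine le_trans (mul_le_mul_of_nonneg_left ?_ hLam) hbd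
          exact_mod_cast (card_le_card (hGsub i)).trans (hD e)) he1 mu (by
          intro i
          have := hlo e heU (J i) (hJ i)
          simp only [hmu, hG]
          linarith) (by
          intro i
          have h2 : 0 ≤ rho e * (lam e / Zf H lam (G i)) :=
            mul_nonneg (hrho e) (div_nonneg (h0 e) (Zf_pos H h0 _).le)
          simp only [hmu]
          linarith) hn1
        refine le_trans ?_ (htail.trans (mul_le_mul_of_nonneg_right hp1
          (prod_nonneg (fun i _ => (Zf_pos H h0 _).le))))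
        refine sum_le_sum_of_subset_of_nonneg ?_ (fun I _ _ => pw_nonneg h0 I)
        intro I hI
        obtain ⟨hI1, hI2⟩ := mem_filter.1 hI
        refine mem_filter.2 ⟨hI1, ?_⟩
        have hI1' := mem_fam.1 hI1
        rw [bad_inl] at hI2
        obtain ⟨_, hI3⟩ := hI2
        have e1' : nb H e ∩ uni (fun i => J i ∪ I i) = uni I := by
          ext a
          rw [mem_inter, mem_uni, mem_uni]
          constructor
          · rintro ⟨ha, i, hi⟩
            refine ⟨i, ?_⟩
            rcases mem_union.1 hi with hi | hi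
            · exact absurd ha (mem_sdiff.1 ((mem_ind.1 (hJ i)).1 hi)).2
            · exact hi
          · rintro ⟨i, hi⟩
            exact ⟨hGsub i ((mem_ind.1 (hI1' i)).1 hi), i, mem_union_right _ hi⟩
        have e2' : ∀ i, acond H lam U e (J i ∪ I i) = lam e / Zf H lam (G i) := by
          intro i
          unfold acond
          rw [(union_mem_ind (hJ i) (hI1' i)).2.1]
        rw [e1', sum_congr rfl (fun i _ => e2' i)] at hI3
        refine lt_of_lt_of_le hI3 (le_of_eq ?_)
        simp only [hmu]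
        rw [sum_sub_distrib, sum_const, card_univ, Fintype.card_fin, nsmul_eq_mul, ← mul_sum]
        ring
      · refine le_trans (le_of_eq (sum_eq_zero ?_))
          (mul_nonneg hp0 (sum_nonneg (fun M _ => pw_nonneg h0 M)))
        intro M hM
        have := ((hS1 M).1 hM).2.1
        rw [bad_inl] at this
        exact absurd this.1 heU
    | inr t =>
      refine fiber_aux H h0 U (ball H 2 (ctr t)) (bad H U lam rho d1 e1 e2 m c (Sum.inr t))
        (fun M => ∀ y ∈ T', ¬ bad H U lam rho d1 e1 e2 m c y M) S1 S2 hS1 hS2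
        (hBloc _ (Subset.refl _)) p ?_
      intro J hJ
      set R := ball H 2 (ctr t) with hR
      set G : Fin n → Finset V := fun i => free H U R (J i) with hG
      have hnbR : ∀ e ∈ nb H (ctr t), nb H e ⊆ R := by
        intro e he a ha
        exact mem_ball_step (nb_subset_ball_one H _ he) ha
      have hE0 : ∀ i, U ∩ nb H (ctr t) ⊆ G i := by
        intro i e he
        obtain ⟨he1', he2'⟩ := mem_inter.1 he
        refine mem_free.2 ⟨⟨he1', hnbR e he2' (self_mem_nb H e)⟩, ?_⟩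
        intro g hg hadj
        have := (mem_sdiff.1 ((mem_ind.1 (hJ i)).1 hg)).2
        exact this (hnbR e he2' (mem_nb.2 (Or.inr hadj)))
      have htail := test_tail H h0 h1 hLam G (U ∩ nb H (ctr t)) hE0 B Bd m e2 hB (by
          refine le_trans (mul_le_mul_of_nonneg_left ?_ hLam) hbd
          exact_mod_cast (card_le_card inter_subset_right).trans (hD (ctr t)))
        (c t) (fun e he => hc t e (mem_inter.1 he).1) he2 he21 hnm hn2
      refine le_trans ?_ (htail.trans (mul_le_mul_of_nonneg_right hp2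
        (prod_nonneg (fun i _ => (Zf_pos H h0 _).le))))
      refine sum_le_sum_of_subset_of_nonneg ?_ (fun I _ _ => pw_nonneg h0 I)
      intro I hI
      obtain ⟨hI1, hI2⟩ := mem_filter.1 hI
      refine mem_filter.2 ⟨hI1, ?_⟩
      have hI1' := mem_fam.1 hI1
      rw [bad_inr] at hI2
      refine lt_of_lt_of_le hI2 (le_of_eq ?_)
      congr 1
      have hz : ∑ e ∈ U ∩ nb H (ctr t), c t e * (∏ i, zf H lam (G i) e (I i) - 1) =
          ∑ e ∈ U, c t e * (∏ i, zf H lam U e (J i ∪ I i) - 1) := by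
        refine sum_subset_zero_on_sdiff inter_subset_left ?_ ?_
        · intro e he
          obtain ⟨he1', he2'⟩ := mem_sdiff.1 he
          have : e ∉ nb H (ctr t) := fun h => he2' (mem_inter.2 ⟨he1', h⟩)
          rw [hsupp t e this, zero_mul]
        · intro e he
          have he2' := (mem_inter.1 he).2
          have hz2 : ∀ i, zf H lam (G i) e (I i) = zf H lam U e (J i ∪ I i) :=
            fun i => (zf_fiber (hJ i) (hI1' i) (hnbR e he2')).symm
          simp only [hz2]
      exact hz.symm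

end Pool.Agent.RM
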