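import Mathlib

/-!
# The approximate Reed machine: definitions

`H` is the conflict graph on a finite type `V`.  Everything is a finite sum.
-/

set_option autoImplicit false

namespace Pool.Agent.RM

open Finset
open scoped Classical

variable {V : Type*} [Fintype V]

/-- The closed neighbourhood of `e`. -/
noncomputable def nb (H : SimpleGraph V) (e : V) : Finset V :=
  univ.filter (fun f => f = e ∨ H.Adj e f)

/-- `1` if `e`, `f` are distinct and not adjacent, else `0`. -/
noncomputable def W (H : SimpleGraph V) (e f : V) : ℝ := if f ∈ nb H e then 0 else 1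

/-- The ball of radius `r` around `x`. -/
noncomputable def ball (H : SimpleGraph V) : ℕ → V → Finset V
  | 0, x => {x}
  | r + 1, x => (ball H r x).biUnion (nb H)

/-- The independent sets contained in `U`. -/
noncomputable def ind (H : SimpleGraph V) (U : Finset V) : Finset (Finset V) :=
  U.powerset.filter (fun M => ∀ e ∈ M, ∀ f ∈ M, ¬ H.Adj e f)

/-- The weight of a set. -/
noncomputable def wt (lam : V → ℝ) (M : Finset V) : ℝ := ∏ e ∈ M, lam e

/-- The partition function of the hard-core model on `U`. -/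
noncomputable def Zf (H : SimpleGraph V) (lam : V → ℝ) (U : Finset V) : ℝ :=
  ∑ M ∈ ind H U, wt lam M

/-- The vertices of `U ∩ R` with no neighbour in `J`. -/
noncomputable def free (H : SimpleGraph V) (U R J : Finset V) : Finset V :=
  (U ∩ R).filter (fun f => ∀ g ∈ J, ¬ H.Adj f g)

/-- The conditional probability that `e` is chosen, given the chosen vertices outside `nb H e`. -/
noncomputable def acond (H : SimpleGraph V) (lam : V → ℝ) (U : Finset V) (e : V)
    (M : Finset V) : ℝ :=
  lam e / Zf H lam (free H U (nb H e) (M \ nb H e))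

/-- The factor `(1 - 1[e ∈ M]) / (1 - acond)`. -/
noncomputable def zf (H : SimpleGraph V) (lam : V → ℝ) (U : Finset V) (e : V)
    (M : Finset V) : ℝ :=
  (if e ∈ M then 0 else 1) / (1 - acond H lam U e M)

/-- The mean size of the hard-core random set on `G`. -/
noncomputable def msz (H : SimpleGraph V) (lam : V → ℝ) (G : Finset V) : ℝ :=
  (∑ I ∈ ind H G, wt lam I * (I.card : ℝ)) / Zf H lam G

/-- Families of independent sets, the `i`-th one in `G i`. -/
noncomputable def fam (H : SimpleGraph V) {n : ℕ} (G : Fin n → Finset V) :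
    Finset (Fin n → Finset V) :=
  Fintype.piFinset (fun i => ind H (G i))

/-- The product weight. -/
noncomputable def pw (lam : V → ℝ) {n : ℕ} (M : Fin n → Finset V) : ℝ := ∏ i, wt lam (M i)

/-- The union of a family. -/
noncomputable def uni {n : ℕ} (M : Fin n → Finset V) : Finset V := univ.biUnion M

theorem mem_nb {H : SimpleGraph V} {e f : V} : f ∈ nb H e ↔ f = e ∨ H.Adj e f := by
  unfold nb
  rw [mem_filter]
  exact and_iff_right (mem_univ _)

theorem self_mem_nb (H : SimpleGraph V) (e : V) : e ∈ nb H e := mem_nb.2 (Or.inl rfl)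

theorem nb_comm {H : SimpleGraph V} {e f : V} : f ∈ nb H e ↔ e ∈ nb H f := by
  rw [mem_nb, mem_nb]
  exact ⟨fun h => h.elim (fun h => Or.inl h.symm) (fun h => Or.inr h.symm),
    fun h => h.elim (fun h => Or.inl h.symm) (fun h => Or.inr h.symm)⟩

theorem W_comm (H : SimpleGraph V) (e f : V) : W H e f = W H f e := by
  unfold W
  by_cases h : f ∈ nb H e
  · rw [if_pos h, if_pos (nb_comm.1 h)]
  · rw [if_neg h, if_neg (fun h2 => h (nb_comm.1 h2))]

theorem W_nonneg (H : SimpleGraph V) (e f : V) : 0 ≤ W H e f := by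
  unfold W
  split_ifs <;> norm_num

theorem W_le_one (H : SimpleGraph V) (e f : V) : W H e f ≤ 1 := by
  unfold W
  split_ifs <;> norm_num

theorem mem_ind {H : SimpleGraph V} {U M : Finset V} :
    M ∈ ind H U ↔ M ⊆ U ∧ ∀ e ∈ M, ∀ f ∈ M, ¬ H.Adj e f := by
  unfold ind
  rw [mem_filter, mem_powerset]

theorem empty_mem_ind (H : SimpleGraph V) (U : Finset V) : ∅ ∈ ind H U := by
  rw [mem_ind]
  exact ⟨empty_subset _, fun e he => absurd he (Finset.notMem_empty e)⟩

omit [Fintype V] in
theorem wt_nonneg {lam : V → ℝ} (h : ∀ e, 0 ≤ lam e) (M : Finset V) : 0 ≤ wt lam M :=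
  prod_nonneg (fun e _ => h e)

omit [Fintype V] in
theorem wt_empty (lam : V → ℝ) : wt lam ∅ = 1 := prod_empty

theorem one_le_Zf (H : SimpleGraph V) {lam : V → ℝ} (h : ∀ e, 0 ≤ lam e) (U : Finset V) :
    1 ≤ Zf H lam U := by
  unfold Zf
  rw [← wt_empty lam]
  exact single_le_sum (f := fun M => wt lam M) (fun M _ => wt_nonneg h M) (empty_mem_ind H U)

theorem Zf_pos (H : SimpleGraph V) {lam : V → ℝ} (h : ∀ e, 0 ≤ lam e) (U : Finset V) :
    0 < Zf H lam U := lt_of_lt_of_le one_pos (one_le_Zf H h U)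

omit [Fintype V] in
theorem pw_nonneg {lam : V → ℝ} (h : ∀ e, 0 ≤ lam e) {n : ℕ} (M : Fin n → Finset V) :
    0 ≤ pw lam M := prod_nonneg (fun i _ => wt_nonneg h (M i))

theorem mem_fam {H : SimpleGraph V} {n : ℕ} {G : Fin n → Finset V} {M : Fin n → Finset V} :
    M ∈ fam H G ↔ ∀ i, M i ∈ ind H (G i) := by
  unfold fam
  rw [Fintype.mem_piFinset]

/-- The total weight of the families is the product of the partition functions. -/
theorem sum_fam (H : SimpleGraph V) (lam : V → ℝ) {n : ℕ} (G : Fin n → Finset V) :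
    ∑ M ∈ fam H G, pw lam M = ∏ i, Zf H lam (G i) := by
  unfold fam pw Zf
  rw [prod_univ_sum]

theorem mem_free {H : SimpleGraph V} {U R J : Finset V} {f : V} :
    f ∈ free H U R J ↔ (f ∈ U ∧ f ∈ R) ∧ ∀ g ∈ J, ¬ H.Adj f g := by
  unfold free
  rw [mem_filter, mem_inter]

theorem ball_zero (H : SimpleGraph V) (x : V) : ball H 0 x = {x} := rfl

theorem mem_ball_succ {H : SimpleGraph V} {r : ℕ} {x y : V} :
    y ∈ ball H (r + 1) x ↔ ∃ z ∈ ball H r x, y ∈ nb H z := by
  show y ∈ (ball H r x).biUnion (nb H) ↔ _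
  rw [mem_biUnion]

omit [Fintype V] in
theorem mem_uni {n : ℕ} {M : Fin n → Finset V} {e : V} : e ∈ uni M ↔ ∃ i, e ∈ M i := by
  unfold uni
  rw [mem_biUnion]
  exact ⟨fun ⟨i, _, h⟩ => ⟨i, h⟩, fun ⟨i, h⟩ => ⟨i, mem_univ i, h⟩⟩

end Pool.Agent.RM
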