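import Pool.Agent.Helper66.RM.State

/-!
# The end of the machine
-/

set_option autoImplicit false

namespace Pool.Agent.RM

open Finset
open scoped Classical

/-- Greedy colouring as a function. -/
theorem greedy_fun {V : Type*} [Fintype V] (H : SimpleGraph V) (r : ℕ) (S : Finset V)
    (h : ∀ e ∈ S, (nb H e ∩ S).card ≤ r) :
    ∃ c : V → ℕ, (∀ e ∈ S, c e < r) ∧ ∀ e ∈ S, ∀ f ∈ S, H.Adj e f → c e ≠ c f := by
  induction S using Finset.induction_on with
  | empty =>
    exact ⟨fun _ => 0, fun e he => absurd he (Finset.notMem_empty e),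
      fun e he => absurd he (Finset.notMem_empty e)⟩
  | insert a S ha ih =>
    have hS : ∀ e ∈ S, (nb H e ∩ S).card ≤ r := by
      intro e he
      exact (card_le_card (inter_subset_inter_left (subset_insert a S))).trans
        (h e (mem_insert_of_mem he))
    obtain ⟨c, hc1, hc2⟩ := ih hS
    have h1 : (nb H a ∩ S).card < r := by
      have h2 : insert a (nb H a ∩ S) ⊆ nb H a ∩ insert a S := by
        intro x hx
        rw [mem_insert] at hx
        rcases hx with rfl | hx
        · exact mem_inter.2 ⟨self_mem_nb H x, mem_insert_self x S⟩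
        · exact mem_inter.2 ⟨(mem_inter.1 hx).1, mem_insert_of_mem (mem_inter.1 hx).2⟩
      have h3 : a ∉ nb H a ∩ S := fun h => ha (mem_inter.1 h).2
      have h4 := card_le_card h2
      rw [card_insert_of_notMem h3] at h4
      have h5 := h a (mem_insert_self a S)
      omega
    have h2 : ((nb H a ∩ S).image c).card < (range r).card := by
      rw [card_range]
      exact lt_of_le_of_lt card_image_le h1
    obtain ⟨x, hx1, hx2⟩ := exists_mem_notMem_of_card_lt_card h2
    refine ⟨Function.update c a x, ?_, ?_⟩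
    · intro e he
      by_cases hea : e = a
      · subst hea
        rw [Function.update_self]
        exact mem_range.1 hx1
      · rw [Function.update_of_ne hea]
        exact hc1 e (mem_of_mem_insert_of_ne he hea)
    · intro e he f hf hadj
      have hef : e ≠ f := H.ne_of_adj hadj
      by_cases hea : e = a
      · subst hea
        have hfe : f ≠ e := hef.symm
        rw [Function.update_self, Function.update_of_ne hfe]
        intro heq
        apply hx2
        rw [heq]
        exact mem_image_of_mem c (mem_inter.2 ⟨mem_nb.2 (Or.inr hadj),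
          mem_of_mem_insert_of_ne hf hfe⟩)
      · by_cases hfa : f = a
        · subst hfa
          rw [Function.update_self, Function.update_of_ne hea]
          intro heq
          apply hx2
          rw [← heq]
          exact mem_image_of_mem c (mem_inter.2 ⟨mem_nb.2 (Or.inr hadj.symm),
            mem_of_mem_insert_of_ne he hea⟩)
        · rw [Function.update_of_ne hea, Function.update_of_ne hfa]
          exact hc2 e (mem_of_mem_insert_of_ne he hea) f (mem_of_mem_insert_of_ne hf hfa) hadj

/-- Greedy colouring of a set of bounded degree. -/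
theorem greedy {V : Type*} [Fintype V] (H : SimpleGraph V) (S : Finset V) (r : ℕ)
    (h : ∀ e ∈ S, (nb H e ∩ S).card ≤ r) : Cover H (S : Set V) (r : ℝ) := by
  obtain ⟨c, hc1, hc2⟩ := greedy_fun H r S h
  refine ⟨(range r).image (fun i => S.filter (fun e => c e = i)), ?_, ?_, ?_⟩
  · have h1 : ((range r).image (fun i => S.filter (fun e => c e = i))).card ≤ r :=
      card_image_le.trans (le_of_eq (card_range r))
    exact_mod_cast h1
  · intro M hM
    rw [mem_image] at hM
    obtain ⟨i, _, rfl⟩ := hM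
    rw [mem_ind]
    refine ⟨subset_univ _, ?_⟩
    intro e he f hf hadj
    rw [mem_filter] at he hf
    exact hc2 e he.1 f hf.1 hadj (he.2.trans hf.2.symm)
  · intro e he
    have he' : e ∈ S := mem_coe.1 he
    exact ⟨S.filter (fun f => c f = c e),
      mem_image_of_mem _ (mem_range.2 (hc1 e he')), mem_filter.2 ⟨he', rfl⟩⟩

theorem Cover.union {V : Type*} [Fintype V] {H : SimpleGraph V} {S T : Set V} {a b : ℝ}
    (h1 : Cover H S a) (h2 : Cover H T b) : Cover H (S ∪ T) (a + b) := by
  obtain ⟨M1, ha1, hb1, hc1⟩ := h1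
  obtain ⟨M2, ha2, hb2, hc2⟩ := h2
  refine ⟨M1 ∪ M2, ?_, ?_, ?_⟩
  · have h3 : ((M1 ∪ M2).card : ℝ) ≤ (M1.card : ℝ) + (M2.card : ℝ) := by
      exact_mod_cast card_union_le M1 M2
    linarith
  · intro M hM
    rcases mem_union.1 hM with h | h
    · exact hb1 M h
    · exact hb2 M h
  · intro e he
    rcases he with he | he
    · obtain ⟨M, hM, heM⟩ := hc1 e he
      exact ⟨M, mem_union_left _ hM, heM⟩
    · obtain ⟨M, hM, heM⟩ := hc2 e he
      exact ⟨M, mem_union_right _ hM, heM⟩

theorem Cover.mono {V : Type*} [Fintype V] {H : SimpleGraph V} {S T : Set V} {a b : ℝ}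
    (h : Cover H S a) (hST : T ⊆ S) (hab : a ≤ b) : Cover H T b := by
  obtain ⟨M, h1, h2, h3⟩ := h
  exact ⟨M, h1.trans hab, h2, fun e he => h3 e (hST he)⟩

/-- Greedy colouring with a real bound. -/
theorem greedy_real {V : Type*} [Fintype V] (H : SimpleGraph V) (S : Finset V) (x : ℝ)
    (hx : 0 ≤ x) (h : ∀ e ∈ S, ((nb H e ∩ S).card : ℝ) ≤ x) : Cover H (S : Set V) x := by
  have h1 : Cover H (S : Set V) ((⌊x⌋₊ : ℕ) : ℝ) :=
    greedy H S ⌊x⌋₊ (fun e he => Nat.le_floor (h e he))
  exact h1.mono (le_refl _) (Nat.floor_le hx)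

/-- End of the machine: the rest is coloured greedily. -/
theorem finish {V : Type*} [Fintype V] (H : SimpleGraph V) (κ : V → ℝ) {T : Type} [Fintype T]
    (ctr : T → V) (ψ : T → V → ℝ) {Q : ℕ} (hT : IsTests H ctr ψ Q)
    (γ s0 m t θm a b C : ℝ) (U R : Finset V) (s : V → ℝ)
    (hst : State H ψ κ γ s0 m t θm a b U R s) (hs0 : 0 < s0) (ha : 0 ≤ a)
    (hκ1 : ∀ e, 0 < κ e) (hκ2 : ∀ e, κ e ≤ C * m)
    (hC : ∀ e, ((nb H e).card : ℝ) ≤ C * m)
    (hR : 0 ≤ s0 * (C * m + θm)) (hU : 0 ≤ 2 * (γ * m - t) + a * (C * m) + b) :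
    Cover H (Set.univ : Set V)
      (t + (s0 * (C * m + θm) + 1) + (2 * (γ * m - t) + a * (C * m) + b + 1)) := by
  have hsU : ∀ e ∈ U, 0 < s e := fun e he => lt_of_lt_of_le hs0 (hst.sU e he).1
  have hsR : ∀ e ∈ R, 0 < s e := fun e he => lt_of_lt_of_le (by linarith) (hst.sR e he).1
  have hν0 : ∀ e, 0 ≤ nuOf U R s e := by
    intro e
    unfold nuOf
    split_ifs with h
    · rcases mem_union.1 h with h | h
      · exact (inv_pos.2 (hsU e h)).le
      · exact (inv_pos.2 (hsR e h)).le
    · exact le_refl _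
  -- the frozen part
  have hcR : Cover H (R : Set V) (s0 * (C * m + θm)) := by
    refine greedy_real H R _ hR (fun e _ => ?_)
    have h1 := Good.sum_le hT hst.good e
    have h2 : ((nb H e ∩ R).card : ℝ) * s0⁻¹ ≤ ∑ f ∈ nb H e, nuOf U R s f := by
      have h3 : ∑ f ∈ nb H e ∩ R, s0⁻¹ ≤ ∑ f ∈ nb H e ∩ R, nuOf U R s f := by
        refine sum_le_sum (fun f hf => ?_)
        have hfR := (mem_inter.1 hf).2
        unfold nuOf
        rw [if_pos (mem_union_right U hfR)]
        exact inv_anti₀ (hsR f hfR) (hst.sR f hfR).2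
      rw [sum_const, nsmul_eq_mul] at h3
      exact h3.trans (sum_le_sum_of_subset_of_nonneg inter_subset_left (fun f _ _ => hν0 f))
    have h4 : ((nb H e ∩ R).card : ℝ) * s0⁻¹ ≤ C * m + θm := by
      have := hC e
      linarith
    have h5 := mul_le_mul_of_nonneg_left h4 hs0.le
    have h6 : s0 * (((nb H e ∩ R).card : ℝ) * s0⁻¹) = ((nb H e ∩ R).card : ℝ) := by
      field_simp
    rw [h6] at h5
    exact h5
  -- the active part
  have hcU : Cover H (U : Set V) (2 * (γ * m - t) + a * (C * m) + b) := by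
    refine greedy_real H U _ hU (fun e he => ?_)
    have h1 := hst.deg e he
    have h2 := hst.sU e he
    have h3 : 0 ≤ κ e * s e := mul_nonneg (hκ1 e).le (hsU e he).le
    have h4 : κ e * (1 - s e) ≤ C * m := by
      have h5 : κ e * (1 - s e) ≤ κ e * 1 :=
        mul_le_mul_of_nonneg_left (by linarith [hsU e he]) (hκ1 e).le
      linarith [hκ2 e]
    have h6 : a * (κ e * (1 - s e)) ≤ a * (C * m) := mul_le_mul_of_nonneg_left h4 ha
    linarith
  have h7 := (hst.cov.union hcR).union hcU
  refine h7.mono ?_ (by linarith)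
  intro e _
  by_cases hU' : e ∈ U
  · exact Or.inr (mem_coe.2 hU')
  · by_cases hR' : e ∈ R
    · exact Or.inl (Or.inr (mem_coe.2 hR'))
    · exact Or.inl (Or.inl ⟨hU', hR'⟩)

end Pool.Agent.RM
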