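import Pool.Agent.Helper66.RM.Defs

/-!
# Hard-core model: basic facts
-/

set_option autoImplicit false

namespace Pool.Agent.RM

open Finset
open scoped Classical

variable {V : Type*} [Fintype V]

omit [Fintype V] in
theorem wt_split (lam : V → ℝ) (M R : Finset V) :
    wt lam M = wt lam (M \ R) * wt lam (M ∩ R) := by
  unfold wt
  rw [← prod_union (disjoint_sdiff_inter M R), sdiff_union_inter]

theorem split_mem_ind {H : SimpleGraph V} {U R M : Finset V} (hM : M ∈ ind H U) :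
    M \ R ∈ ind H (U \ R) ∧ M ∩ R ∈ ind H (free H U R (M \ R)) := by
  rw [mem_ind] at hM
  refine ⟨mem_ind.2 ⟨sdiff_subset_sdiff hM.1 Subset.rfl, ?_⟩, mem_ind.2 ⟨?_, ?_⟩⟩
  · intro e he f hf
    exact hM.2 e (mem_sdiff.1 he).1 f (mem_sdiff.1 hf).1
  · intro f hf
    rw [mem_inter] at hf
    exact mem_free.2 ⟨⟨hM.1 hf.1, hf.2⟩, fun g hg => hM.2 f hf.1 g (mem_sdiff.1 hg).1⟩
  · intro e he f hf
    exact hM.2 e (mem_inter.1 he).1 f (mem_inter.1 hf).1

/-- The elements of `ind H U` with given trace outside `R`. -/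
theorem union_mem_ind {H : SimpleGraph V} {U R J I : Finset V} (hJ : J ∈ ind H (U \ R))
    (hI : I ∈ ind H (free H U R J)) : J ∪ I ∈ ind H U ∧ (J ∪ I) \ R = J ∧ (J ∪ I) ∩ R = I := by
  rw [mem_ind] at hJ hI
  have hIR : ∀ f ∈ I, f ∈ R := fun f hf => (mem_free.1 (hI.1 hf)).1.2
  have hIU : ∀ f ∈ I, f ∈ U := fun f hf => (mem_free.1 (hI.1 hf)).1.1
  have hIJ : ∀ f ∈ I, ∀ g ∈ J, ¬ H.Adj f g := fun f hf => (mem_free.1 (hI.1 hf)).2
  have hJU : ∀ f ∈ J, f ∈ U := fun f hf => (mem_sdiff.1 (hJ.1 hf)).1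
  have hJR : ∀ f ∈ J, f ∉ R := fun f hf => (mem_sdiff.1 (hJ.1 hf)).2
  refine ⟨mem_ind.2 ⟨?_, ?_⟩, ?_, ?_⟩
  · intro f hf
    rcases mem_union.1 hf with h | h
    · exact hJU f h
    · exact hIU f h
  · intro e he f hf
    rcases mem_union.1 he with h | h <;> rcases mem_union.1 hf with h' | h'
    · exact hJ.2 e h f h'
    · exact fun hh => hIJ f h' e h hh.symm
    · exact hIJ e h f h'
    · exact hI.2 e h f h'
  · ext f
    rw [mem_sdiff, mem_union]
    constructor
    · rintro ⟨h | h, h2⟩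
      · exact h
      · exact absurd (hIR f h) h2
    · intro h
      exact ⟨Or.inl h, hJR f h⟩
  · ext f
    rw [mem_inter, mem_union]
    constructor
    · rintro ⟨h | h, h2⟩
      · exact absurd h2 (hJR f h)
      · exact h
    · intro h
      exact ⟨Or.inr h, hIR f h⟩

/-- The bijection `M ↦ (M \ R, M ∩ R)`. -/
theorem sum_ind_split (H : SimpleGraph V) (lam : V → ℝ) (U R : Finset V)
    (φ : Finset V → Finset V → ℝ) :
    ∑ M ∈ ind H U, wt lam M * φ (M \ R) (M ∩ R) =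
      ∑ J ∈ ind H (U \ R), wt lam J * ∑ I ∈ ind H (free H U R J), wt lam I * φ J I := by
  have h1 : ∑ J ∈ ind H (U \ R), wt lam J * ∑ I ∈ ind H (free H U R J), wt lam I * φ J I =
      ∑ J ∈ ind H (U \ R), ∑ I ∈ ind H (free H U R J), wt lam J * (wt lam I * φ J I) :=
    sum_congr rfl (fun J _ => mul_sum _ _ _)
  rw [h1, sum_sigma']
  refine sum_bij' (fun M _ => (⟨M \ R, M ∩ R⟩ : (_ : Finset V) × Finset V))
    (fun p _ => p.1 ∪ p.2) ?_ ?_ ?_ ?_ ?_
  · intro M hM
    have h := split_mem_ind (R := R) hM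
    exact mem_sigma.2 ⟨h.1, h.2⟩
  · intro p hp
    rw [mem_sigma] at hp
    exact (union_mem_ind hp.1 hp.2).1
  · intro M hM
    exact sdiff_union_inter M R
  · rintro ⟨J, I⟩ hp
    rw [mem_sigma] at hp
    have h := union_mem_ind hp.1 hp.2
    have h2 : (J ∪ I) \ R = J := h.2.1
    have h3 : (J ∪ I) ∩ R = I := h.2.2
    change (⟨(J ∪ I) \ R, (J ∪ I) ∩ R⟩ : (_ : Finset V) × Finset V) = ⟨J, I⟩
    rw [h2, h3]
  · intro M hM
    change wt lam M * φ (M \ R) (M ∩ R) =
      wt lam (M \ R) * (wt lam (M ∩ R) * φ (M \ R) (M ∩ R))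
    rw [wt_split lam M R, mul_assoc]

/-- (HC1) -/
theorem hc1 (H : SimpleGraph V) {lam : V → ℝ} (h0 : ∀ e, 0 ≤ lam e) (G T : Finset V) :
    ∑ I ∈ (ind H G).filter (fun I => T ⊆ I), wt lam I ≤ wt lam T * Zf H lam G := by
  have h1 : ∀ I ∈ (ind H G).filter (fun I => T ⊆ I), wt lam I = wt lam T * wt lam (I \ T) := by
    intro I hI
    have hT : T ⊆ I := (mem_filter.1 hI).2
    rw [wt_split lam I T, inter_eq_right.2 hT, mul_comm]
  have h2 : Set.InjOn (fun I : Finset V => I \ T)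
      ((ind H G).filter (fun I => T ⊆ I) : Finset (Finset V)) := by
    intro I hI J hJ hIJ
    have hI' : T ⊆ I := (mem_filter.1 (mem_coe.1 hI)).2
    have hJ' : T ⊆ J := (mem_filter.1 (mem_coe.1 hJ)).2
    have h : I \ T = J \ T := hIJ
    rw [← sdiff_union_of_subset hI', ← sdiff_union_of_subset hJ', h]
  rw [sum_congr rfl h1, ← mul_sum]
  refine mul_le_mul_of_nonneg_left ?_ (wt_nonneg h0 T)
  have h3 : ∑ I ∈ (ind H G).filter (fun I => T ⊆ I), wt lam (I \ T) =
      ∑ J ∈ ((ind H G).filter (fun I => T ⊆ I)).image (fun I => I \ T), wt lam J := by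
    rw [sum_image h2]
  rw [h3]
  refine sum_le_sum_of_subset_of_nonneg ?_ (fun J _ _ => wt_nonneg h0 J)
  intro J hJ
  obtain ⟨I, hI, rfl⟩ := mem_image.1 hJ
  have hI2 := mem_ind.1 (mem_filter.1 hI).1
  exact mem_ind.2 ⟨sdiff_subset.trans hI2.1,
    fun e he f hf => hI2.2 e (mem_sdiff.1 he).1 f (mem_sdiff.1 hf).1⟩

/-- (HC2) exponential moments of `|S ∩ I|`. -/
theorem hc2 (H : SimpleGraph V) {lam : V → ℝ} {Lam : ℝ} (h0 : ∀ e, 0 ≤ lam e)
    (h1 : ∀ e, lam e ≤ Lam) (G S : Finset V) (t : ℝ) (ht : 0 ≤ t) :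
    ∑ I ∈ ind H G, wt lam I * Real.exp (t * ((S ∩ I).card : ℝ)) ≤
      Real.exp ((Real.exp t - 1) * (Lam * (S.card : ℝ))) * Zf H lam G := by
  set x : ℝ := Real.exp t - 1 with hx
  have hx0 : 0 ≤ x := by
    have := Real.one_le_exp ht
    linarith
  have e1 : ∀ I : Finset V, Real.exp (t * ((S ∩ I).card : ℝ)) =
      ∑ T ∈ S.powerset, if T ⊆ I then x ^ T.card else 0 := by
    intro I
    have a1 : Real.exp (t * ((S ∩ I).card : ℝ)) = ∏ _e ∈ S ∩ I, (1 + x) := by
      rw [prod_const, mul_comm, Real.exp_nat_mul]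
      congr 1
      rw [hx]
      ring
    rw [a1, prod_one_add, ← sum_filter]
    have a2 : S.powerset.filter (fun T => T ⊆ I) = (S ∩ I).powerset := by
      ext T
      rw [mem_filter, mem_powerset, mem_powerset, subset_inter_iff]
    rw [a2]
    refine sum_congr rfl (fun T _ => ?_)
    rw [prod_const]
  have e2 : ∑ I ∈ ind H G, wt lam I * Real.exp (t * ((S ∩ I).card : ℝ)) =
      ∑ T ∈ S.powerset, x ^ T.card * ∑ I ∈ (ind H G).filter (fun I => T ⊆ I), wt lam I := by
    have b1 : ∑ I ∈ ind H G, wt lam I * Real.exp (t * ((S ∩ I).card : ℝ)) =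
        ∑ I ∈ ind H G, ∑ T ∈ S.powerset, (if T ⊆ I then x ^ T.card * wt lam I else 0) := by
      refine sum_congr rfl (fun I _ => ?_)
      rw [e1 I, mul_sum]
      refine sum_congr rfl (fun T _ => ?_)
      split_ifs
      · ring
      · ring
    rw [b1, sum_comm]
    refine sum_congr rfl (fun T _ => ?_)
    rw [← sum_filter, mul_sum]
  have e3 : ∑ T ∈ S.powerset, x ^ T.card * ∑ I ∈ (ind H G).filter (fun I => T ⊆ I), wt lam I ≤
      ∑ T ∈ S.powerset, (∏ e ∈ T, x * lam e) * Zf H lam G := by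
    refine sum_le_sum (fun T _ => ?_)
    have c1 : ∏ e ∈ T, x * lam e = x ^ T.card * wt lam T := by
      rw [prod_mul_distrib, prod_const]
      rfl
    rw [c1, mul_assoc]
    exact mul_le_mul_of_nonneg_left (hc1 H h0 G T) (pow_nonneg hx0 _)
  have e4 : ∏ e ∈ S, (1 + x * lam e) ≤ Real.exp (x * (Lam * (S.card : ℝ))) := by
    have d1 : Real.exp (x * (Lam * (S.card : ℝ))) = ∏ _e ∈ S, Real.exp (x * Lam) := by
      rw [prod_const, ← Real.exp_nat_mul]
      congr 1
      ring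
    rw [d1]
    refine prod_le_prod (fun e _ => ?_) (fun e _ => ?_)
    · have := mul_nonneg hx0 (h0 e)
      linarith
    · have h2 : x * lam e ≤ x * Lam := mul_le_mul_of_nonneg_left (h1 e) hx0
      have h3 := Real.add_one_le_exp (x * Lam)
      linarith
  rw [e2]
  refine e3.trans ?_
  rw [← sum_mul, ← prod_one_add]
  exact mul_le_mul_of_nonneg_right e4 (Zf_pos H h0 G).le

/-- In a free set inside the neighbourhood of `e` the only independent set containing `e` is
`{e}`. -/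
theorem sum_ind_mem {H : SimpleGraph V} (lam : V → ℝ) {F : Finset V} {e : V} (he : e ∈ F)
    (hF : F ⊆ nb H e) : ∑ I ∈ ind H F, (if e ∈ I then wt lam I else 0) = lam e := by
  have h1 : (ind H F).filter (fun I => e ∈ I) = {({e} : Finset V)} := by
    ext I
    rw [mem_filter, mem_ind, mem_singleton]
    constructor
    · rintro ⟨⟨hIF, hI⟩, heI⟩
      ext f
      rw [mem_singleton]
      constructor
      · intro hf
        rcases mem_nb.1 (hF (hIF hf)) with h | h
        · exact h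
        · exact absurd h (hI e heI f hf)
      · intro h
        rw [h]
        exact heI
    · intro h
      rw [h]
      refine ⟨⟨singleton_subset_iff.2 he, ?_⟩, mem_singleton_self e⟩
      intro a ha b hb
      rw [mem_singleton] at ha hb
      rw [ha, hb]
      exact H.loopless.irrefl e
  rw [← sum_filter, h1, sum_singleton]
  unfold wt
  rw [prod_singleton]

theorem sum_ind_not_mem {H : SimpleGraph V} (lam : V → ℝ) {F : Finset V} {e : V} (he : e ∈ F)
    (hF : F ⊆ nb H e) : ∑ I ∈ ind H F, wt lam I * (if e ∈ I then 0 else 1) =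
      Zf H lam F - lam e := by
  rw [← sum_ind_mem lam he hF]
  unfold Zf
  rw [← sum_sub_distrib]
  refine sum_congr rfl (fun I _ => ?_)
  split_ifs
  · ring
  · ring

theorem one_add_le_Zf (H : SimpleGraph V) {lam : V → ℝ} (h0 : ∀ e, 0 ≤ lam e) {F : Finset V}
    {e : V} (he : e ∈ F) : 1 + lam e ≤ Zf H lam F := by
  have h1 : ({∅, {e}} : Finset (Finset V)) ⊆ ind H F := by
    intro I hI
    rw [mem_insert, mem_singleton] at hI
    rcases hI with h | h
    · rw [h]
      exact empty_mem_ind H F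
    · rw [h, mem_ind]
      refine ⟨singleton_subset_iff.2 he, ?_⟩
      intro a ha b hb
      rw [mem_singleton] at ha hb
      rw [ha, hb]
      exact H.loopless.irrefl e
  have h2 : ∑ I ∈ ({∅, {e}} : Finset (Finset V)), wt lam I ≤ Zf H lam F :=
    sum_le_sum_of_subset_of_nonneg h1 (fun J _ _ => wt_nonneg h0 J)
  have h3 : (∅ : Finset V) ≠ {e} := (singleton_ne_empty e).symm
  rw [sum_pair h3, wt_empty] at h2
  unfold wt at h2
  rw [prod_singleton] at h2
  exact h2

theorem self_mem_free {H : SimpleGraph V} {U J : Finset V} {e : V} (he : e ∈ U)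
    (hJ : ∀ g ∈ J, g ∉ nb H e) : e ∈ free H U (nb H e) J :=
  mem_free.2 ⟨⟨he, self_mem_nb H e⟩, fun g hg h => hJ g hg (mem_nb.2 (Or.inr h))⟩

/-- (HC3) the factor `zf` has conditional mean one. -/
theorem hc3 (H : SimpleGraph V) {lam : V → ℝ} (h0 : ∀ e, 0 ≤ lam e) (G : Finset V) {e : V}
    (he : e ∈ G) : ∑ I ∈ ind H G, wt lam I * zf H lam G e I = Zf H lam G := by
  set φ : Finset V → Finset V → ℝ := fun J I =>
    (if e ∈ I then 0 else 1) / (1 - lam e / Zf H lam (free H G (nb H e) J)) with hφ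
  have h1 : ∑ I ∈ ind H G, wt lam I * zf H lam G e I =
      ∑ I ∈ ind H G, wt lam I * φ (I \ nb H e) (I ∩ nb H e) := by
    refine sum_congr rfl (fun I _ => ?_)
    have h2 : (e ∈ I ∩ nb H e) ↔ e ∈ I := by
      rw [mem_inter]
      exact ⟨fun h => h.1, fun h => ⟨h, self_mem_nb H e⟩⟩
    have h3 : zf H lam G e I = φ (I \ nb H e) (I ∩ nb H e) := by
      rw [hφ]
      unfold zf acond
      by_cases h4 : e ∈ I
      · have h5 : e ∈ I ∩ nb H e := h2.2 h4
        simp only [if_pos h4, if_pos h5]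
      · have h5 : ¬ e ∈ I ∩ nb H e := fun h => h4 (h2.1 h)
        simp only [if_neg h4, if_neg h5]
    rw [h3]
  have h4 : Zf H lam G = ∑ J ∈ ind H (G \ nb H e), wt lam J * Zf H lam (free H G (nb H e) J) := by
    have h5 := sum_ind_split H lam G (nb H e) (fun _ _ => 1)
    simp only [mul_one] at h5
    exact h5
  rw [h1, sum_ind_split H lam G (nb H e) φ, h4]
  refine sum_congr rfl (fun J hJ => ?_)
  congr 1
  set F := free H G (nb H e) J with hF
  have heF : e ∈ F := self_mem_free he (fun g hg => (mem_sdiff.1 ((mem_ind.1 hJ).1 hg)).2)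
  have hFn : F ⊆ nb H e := fun f hf => (mem_free.1 hf).1.2
  have hZ : 1 + lam e ≤ Zf H lam F := one_add_le_Zf H h0 heF
  have hZ0 : 0 < Zf H lam F := Zf_pos H h0 F
  have hZ1 : Zf H lam F - lam e ≠ 0 := by
    have : 0 < Zf H lam F - lam e := by linarith
    exact this.ne'
  have h6 : ∑ I ∈ ind H F, wt lam I * φ J I =
      (Zf H lam F - lam e) / (1 - lam e / Zf H lam F) := by
    rw [← sum_ind_not_mem lam heF hFn, sum_div]
    refine sum_congr rfl (fun I _ => ?_)
    rw [hφ]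
    ring
  rw [h6]
  have h7 : 1 - lam e / Zf H lam F = (Zf H lam F - lam e) / Zf H lam F := by
    field_simp
  rw [h7, div_div_eq_mul_div, mul_div_assoc, mul_comm, div_mul_cancel₀ _ hZ1]

/-- the expected size of the intersection with a fixed set -/
theorem hc_inter (H : SimpleGraph V) {lam : V → ℝ} {Lam : ℝ} (h0 : ∀ e, 0 ≤ lam e)
    (h1 : ∀ e, lam e ≤ Lam) (G C : Finset V) :
    ∑ I ∈ ind H G, wt lam I * ((C ∩ I).card : ℝ) ≤ Lam * (C.card : ℝ) * Zf H lam G := by
  have e1 : ∀ I : Finset V, ((C ∩ I).card : ℝ) = ∑ e ∈ C, if e ∈ I then (1 : ℝ) else 0 := by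
    intro I
    rw [← sum_filter, sum_const, nsmul_eq_mul, mul_one, filter_mem_eq_inter]
  have e2 : ∑ I ∈ ind H G, wt lam I * ((C ∩ I).card : ℝ) =
      ∑ e ∈ C, ∑ I ∈ (ind H G).filter (fun I => ({e} : Finset V) ⊆ I), wt lam I := by
    have b1 : ∑ I ∈ ind H G, wt lam I * ((C ∩ I).card : ℝ) =
        ∑ I ∈ ind H G, ∑ e ∈ C, (if ({e} : Finset V) ⊆ I then wt lam I else 0) := by
      refine sum_congr rfl (fun I _ => ?_)
      rw [e1 I, mul_sum]
      refine sum_congr rfl (fun e _ => ?_)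
      by_cases h : e ∈ I
      · rw [if_pos h, if_pos (singleton_subset_iff.2 h), mul_one]
      · rw [if_neg h, if_neg (fun h2 => h (singleton_subset_iff.1 h2)), mul_zero]
    rw [b1, sum_comm]
    refine sum_congr rfl (fun e _ => ?_)
    rw [← sum_filter]
  rw [e2]
  have e3 : ∑ e ∈ C, ∑ I ∈ (ind H G).filter (fun I => ({e} : Finset V) ⊆ I), wt lam I ≤
      ∑ _e ∈ C, Lam * Zf H lam G := by
    refine sum_le_sum (fun e _ => ?_)
    refine (hc1 H h0 G {e}).trans ?_
    have h2 : wt lam {e} = lam e := prod_singleton _ _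
    rw [h2]
    exact mul_le_mul_of_nonneg_right (h1 e) (Zf_pos H h0 G).le
  refine e3.trans (le_of_eq ?_)
  rw [sum_const, nsmul_eq_mul]
  ring

theorem acond_nonneg (H : SimpleGraph V) {lam : V → ℝ} (h0 : ∀ e, 0 ≤ lam e) (U : Finset V)
    (e : V) (M : Finset V) : 0 ≤ acond H lam U e M :=
  div_nonneg (h0 e) (Zf_pos H h0 _).le

theorem acond_le (H : SimpleGraph V) {lam : V → ℝ} (h0 : ∀ e, 0 ≤ lam e) (U : Finset V)
    (e : V) (M : Finset V) : acond H lam U e M ≤ lam e :=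
  div_le_self (h0 e) (one_le_Zf H h0 _)

theorem free_fiber {H : SimpleGraph V} {U R J I : Finset V} {e : V}
    (hJ : J ∈ ind H (U \ R)) (heR : nb H e ⊆ R) :
    free H U (nb H e) ((J ∪ I) \ nb H e) =
      free H (free H U R J) (nb H e) (I \ nb H e) := by
  have hJR : ∀ f ∈ J, f ∉ R := fun f hf => (mem_sdiff.1 ((mem_ind.1 hJ).1 hf)).2
  ext f
  constructor
  · intro hf
    obtain ⟨⟨h1, h2⟩, h3⟩ := mem_free.1 hf
    refine mem_free.2 ⟨⟨mem_free.2 ⟨⟨h1, heR h2⟩, ?_⟩, h2⟩, ?_⟩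
    · intro g hg
      exact h3 g (mem_sdiff.2 ⟨mem_union_left _ hg, fun h => hJR g hg (heR h)⟩)
    · intro g hg
      exact h3 g (mem_sdiff.2 ⟨mem_union_right _ (mem_sdiff.1 hg).1, (mem_sdiff.1 hg).2⟩)
  · intro hf
    obtain ⟨⟨h1, h2⟩, h3⟩ := mem_free.1 hf
    obtain ⟨⟨h4, h5⟩, h6⟩ := mem_free.1 h1
    refine mem_free.2 ⟨⟨h4, h2⟩, ?_⟩
    intro g hg
    obtain ⟨h7, h8⟩ := mem_sdiff.1 hg
    rcases mem_union.1 h7 with h | h
    · exact h6 g h
    · exact h3 g (mem_sdiff.2 ⟨h, h8⟩)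

/-- `acond` is intrinsic in a fibre. -/
theorem acond_fiber {H : SimpleGraph V} {lam : V → ℝ} {U R J I : Finset V} {e : V}
    (hJ : J ∈ ind H (U \ R)) (hI : I ∈ ind H (free H U R J)) (heR : nb H e ⊆ R) :
    acond H lam U e (J ∪ I) = acond H lam (free H U R J) e I := by
  unfold acond
  rw [free_fiber hJ heR]

theorem zf_fiber {H : SimpleGraph V} {lam : V → ℝ} {U R J I : Finset V} {e : V}
    (hJ : J ∈ ind H (U \ R)) (hI : I ∈ ind H (free H U R J)) (heR : nb H e ⊆ R) :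
    zf H lam U e (J ∪ I) = zf H lam (free H U R J) e I := by
  have h1 : e ∉ J := fun h =>
    (mem_sdiff.1 ((mem_ind.1 hJ).1 h)).2 (heR (self_mem_nb H e))
  have h2 : acond H lam U e (J ∪ I) = acond H lam (free H U R J) e I := acond_fiber hJ hI heR
  unfold zf
  rw [h2]
  by_cases h3 : e ∈ I
  · rw [if_pos h3, if_pos (mem_union_right _ h3)]
  · rw [if_neg h3, if_neg (fun h => (mem_union.1 h).elim h1 h3)]

end Pool.Agent.RM
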