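import Pool.Agent.Helper66.RM.State

/-!
# Local occupancy
-/

set_option autoImplicit false

namespace Pool.Agent.RM

open Finset
open scoped Classical

variable {V : Type*} [Fintype V]

/-- The singletons of `F` are independent. -/
theorem singleton_mem_ind (H : SimpleGraph V) {F : Finset V} {e : V} (he : e ∈ F) :
    ({e} : Finset V) ∈ ind H F := by
  rw [mem_ind]
  refine ⟨singleton_subset_iff.2 he, ?_⟩
  intro a ha b hb
  rw [mem_singleton] at ha hb
  subst ha
  subst hb
  exact H.irrefl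

/-- The independent pairs of `F`. -/
theorem pair_mem_ind (H : SimpleGraph V) {F : Finset V} {e f : V} (he : e ∈ F) (hf : f ∈ F)
    (h : f ∉ nb H e) : ({e, f} : Finset V) ∈ ind H F := by
  have hn : ¬ H.Adj e f := fun h2 => h (mem_nb.2 (Or.inr h2))
  rw [mem_ind]
  refine ⟨?_, ?_⟩
  · intro a ha
    rw [mem_insert, mem_singleton] at ha
    rcases ha with rfl | rfl
    · exact he
    · exact hf
  · intro a ha b hb
    rw [mem_insert, mem_singleton] at ha hb
    rcases ha with rfl | rfl <;> rcases hb with rfl | rfl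
    · exact H.irrefl
    · exact hn
    · exact fun h2 => hn h2.symm
    · exact H.irrefl

/-- `(2 - E|I|) Z ≤ 2 + lam(F)`. -/
theorem two_sub_msz (H : SimpleGraph V) {lam : V → ℝ} (h0 : ∀ e, 0 ≤ lam e) (F : Finset V) :
    (2 - msz H lam F) * Zf H lam F ≤ 2 + ∑ e ∈ F, lam e := by
  have hZ : Zf H lam F ≠ 0 := ne_of_gt (Zf_pos H h0 F)
  have h1 : (2 - msz H lam F) * Zf H lam F =
      ∑ I ∈ ind H F, wt lam I * (2 - (I.card : ℝ)) := by
    unfold msz
    rw [sub_mul, div_mul_cancel₀ _ hZ]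
    unfold Zf
    rw [mul_sum, ← sum_sub_distrib]
    exact sum_congr rfl (fun I _ => by ring)
  have h2 : ∀ I ∈ ind H F, wt lam I * (2 - (I.card : ℝ)) ≤
      (if I = ∅ then 2 else 0) + ∑ e ∈ F, (if I = {e} then lam e else 0) := by
    intro I hI
    have hs : (0 : ℝ) ≤ ∑ e ∈ F, (if I = {e} then lam e else 0) :=
      sum_nonneg (fun e _ => by split_ifs; exacts [h0 e, le_refl _])
    rcases Nat.lt_or_ge I.card 2 with hc | hc
    · rcases Nat.lt_or_ge I.card 1 with hc1 | hc1
      · have hI0 : I = ∅ := card_eq_zero.1 (by omega)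
        subst hI0
        rw [if_pos rfl, wt_empty, card_empty]
        norm_num
      · have hI1 : I.card = 1 := by omega
        obtain ⟨a, ha⟩ := card_eq_one.1 hI1
        subst ha
        have haF : a ∈ F := (mem_ind.1 hI).1 (mem_singleton_self a)
        have h3 : lam a ≤ ∑ e ∈ F, (if ({a} : Finset V) = {e} then lam e else 0) := by
          have h4 := single_le_sum
            (f := fun e => (if ({a} : Finset V) = {e} then lam e else 0))
            (fun e _ => by split_ifs; exacts [h0 e, le_refl _]) haF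
          simpa using h4
        rw [if_neg (singleton_ne_empty a), hI1]
        unfold wt
        rw [prod_singleton]
        push_cast
        linarith
    · have h3 : wt lam I * (2 - (I.card : ℝ)) ≤ 0 := by
        have hc' : (2 : ℝ) ≤ (I.card : ℝ) := by exact_mod_cast hc
        exact mul_nonpos_of_nonneg_of_nonpos (wt_nonneg h0 I) (by linarith)
      have h4 : (0 : ℝ) ≤ (if I = ∅ then 2 else 0) := by split_ifs <;> norm_num
      linarith
  rw [h1]
  refine (sum_le_sum h2).trans ?_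
  rw [sum_add_distrib]
  refine add_le_add ?_ ?_
  · rw [sum_ite_eq' (ind H F) (∅ : Finset V) (fun _ => (2 : ℝ)), if_pos (empty_mem_ind H F)]
  · rw [sum_comm]
    refine sum_le_sum (fun e he => ?_)
    rw [sum_ite_eq' (ind H F) ({e} : Finset V) (fun _ => lam e),
      if_pos (singleton_mem_ind H he)]

/-- The partition function is at least the weight of the independent pairs. -/
theorem Zf_ge_pairs (H : SimpleGraph V) {lam : V → ℝ} (h0 : ∀ e, 0 ≤ lam e) (F : Finset V) :
    1 / 2 * ∑ e ∈ F, ∑ f ∈ F, lam e * lam f * W H e f ≤ Zf H lam F := by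
  set P : Finset (V × V) := (F ×ˢ F).filter (fun p => p.2 ∉ nb H p.1) with hP
  have h1 : ∑ e ∈ F, ∑ f ∈ F, lam e * lam f * W H e f = ∑ p ∈ P, lam p.1 * lam p.2 := by
    rw [← sum_product', hP, sum_filter]
    refine sum_congr rfl (fun p _ => ?_)
    unfold W
    by_cases h : p.2 ∈ nb H p.1
    · rw [if_pos h, if_neg (not_not.2 h), mul_zero]
    · rw [if_neg h, if_pos h, mul_one]
  have hmap : ∀ p ∈ P, ({p.1, p.2} : Finset V) ∈ ind H F := by
    intro p hp
    rw [hP, mem_filter, mem_product] at hp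
    exact pair_mem_ind H hp.1.1 hp.1.2 hp.2
  have h2 : ∑ p ∈ P, lam p.1 * lam p.2 =
      ∑ I ∈ ind H F, ∑ p ∈ P.filter (fun p => ({p.1, p.2} : Finset V) = I),
        lam p.1 * lam p.2 := (sum_fiberwise_of_maps_to hmap _).symm
  have h3 : ∀ I ∈ ind H F, ∑ p ∈ P.filter (fun p => ({p.1, p.2} : Finset V) = I),
      lam p.1 * lam p.2 ≤ 2 * wt lam I := by
    intro I hI
    rcases (P.filter (fun p => ({p.1, p.2} : Finset V) = I)).eq_empty_or_nonempty with he | hne
    · rw [he, sum_empty]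
      exact mul_nonneg zero_le_two (wt_nonneg h0 I)
    · obtain ⟨p0, hp0⟩ := hne
      rw [mem_filter] at hp0
      have hp0P := hp0.1
      rw [hP, mem_filter] at hp0P
      have hne0 : p0.1 ≠ p0.2 := by
        intro h
        exact hp0P.2 (by rw [← h]; exact self_mem_nb H p0.1)
      have hw : wt lam I = lam p0.1 * lam p0.2 := by
        rw [← hp0.2]
        unfold wt
        rw [prod_pair hne0]
      have hsub : P.filter (fun p => ({p.1, p.2} : Finset V) = I) ⊆
          {(p0.1, p0.2), (p0.2, p0.1)} := by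
        intro p hp
        rw [mem_filter] at hp
        have hpP := hp.1
        rw [hP, mem_filter] at hpP
        have hne : p.1 ≠ p.2 := by
          intro h
          exact hpP.2 (by rw [← h]; exact self_mem_nb H p.1)
        have heq : ({p.1, p.2} : Finset V) = {p0.1, p0.2} := hp.2.trans hp0.2.symm
        have ha : p.1 ∈ ({p0.1, p0.2} : Finset V) := by
          rw [← heq]
          exact mem_insert_self _ _
        have hb : p.2 ∈ ({p0.1, p0.2} : Finset V) := by
          rw [← heq]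
          exact mem_insert_of_mem (mem_singleton_self _)
        rw [mem_insert, mem_singleton] at ha hb
        rw [mem_insert, mem_singleton]
        rcases ha with ha | ha <;> rcases hb with hb | hb
        · exact absurd (ha.trans hb.symm) hne
        · exact Or.inl (Prod.ext ha hb)
        · exact Or.inr (Prod.ext ha hb)
        · exact absurd (ha.trans hb.symm) hne
      have hpr : ((p0.1, p0.2) : V × V) ≠ (p0.2, p0.1) := by
        intro h
        exact hne0 (congrArg Prod.fst h)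
      refine (sum_le_sum_of_subset_of_nonneg hsub (fun p _ _ => mul_nonneg (h0 _) (h0 _))).trans ?_
      rw [sum_pair hpr, hw]
      exact le_of_eq (by ring)
  rw [h1, h2]
  have h4 := sum_le_sum h3
  rw [← mul_sum] at h4
  unfold Zf
  linarith

/-- The activities of a phase. -/
noncomputable def act (K : ℝ) (κ ν : V → ℝ) (U : Finset V) (e : V) : ℝ :=
  if e ∈ U then K * ν e / κ e else 0

/-- Local occupancy. -/
theorem lo (H : SimpleGraph V) (κ ν : V → ℝ) (U : Finset V) (C K κ0 s0 m η1 δ d1 : ℝ)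
    (hm : 0 < m) (hK : 0 < K) (hκ0 : 0 < κ0) (hs0 : 0 < s0) (hη1 : 0 < η1) (hδ : 0 ≤ δ)
    (hd1 : 0 ≤ d1)
    (hκ1 : ∀ e, κ0 * m ≤ κ e) (hκ2 : ∀ e, κ e ≤ C * m)
    (hC : ∀ e, ((nb H e).card : ℝ) ≤ C * m)
    (hν : ∀ e ∈ U, 0 < ν e ∧ ν e ≤ 1 / s0) (hrel : Rel H κ ν m η1 δ)
    (hKd : (2 + K * C / (κ0 * s0)) * (2 * C ^ 2) ≤ d1 * (K ^ 2 * η1)) :
    ∀ e ∈ U, ∀ J ∈ ind H (U \ nb H e), 2 - d1 ≤
      (1 + (2 * δ + 2 / K)) * (κ e / ν e) *
        (act K κ ν U e / Zf H (act K κ ν U) (free H U (nb H e) J)) +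
      msz H (act K κ ν U) (free H U (nb H e) J) := by
  intro e he J _
  have hκm : 0 < κ0 * m := mul_pos hκ0 hm
  have hκ : ∀ f, 0 < κ f := fun f => lt_of_lt_of_le hκm (hκ1 f)
  have hCm : 0 < C * m := lt_of_lt_of_le (hκ e) (hκ2 e)
  have hCp : 0 < C := (mul_pos_iff_of_pos_right hm).1 hCm
  set lam := act K κ ν U with hlam
  have h0 : ∀ f, 0 ≤ lam f := by
    intro f
    rw [hlam]
    unfold act
    split_ifs with hf
    · exact div_nonneg (mul_nonneg hK.le (hν f hf).1.le) (hκ f).le
    · exact le_refl _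
  set F := free H U (nb H e) J with hF
  have hFU : ∀ f ∈ F, f ∈ U := fun f hf => (mem_free.1 hf).1.1
  have hFN : F ⊆ nb H e := fun f hf => (mem_free.1 hf).1.2
  set Z := Zf H lam F with hZ
  have hZ1 : 1 ≤ Z := one_le_Zf H h0 F
  have hZp : 0 < Z := lt_of_lt_of_le one_pos hZ1
  have hlamF : ∀ f ∈ F, lam f = K * (ν f / κ f) := by
    intro f hf
    rw [hlam]
    unfold act
    rw [if_pos (hFU f hf)]
    ring
  have hlame : lam e = K * ν e / κ e := by
    rw [hlam]
    unfold act
    rw [if_pos he]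
  have hνe := (hν e he).1
  have key1 : (κ e / ν e) * (lam e / Z) = K / Z := by
    rw [hlame]
    have := hκ e
    field_simp
  have hts := two_sub_msz H h0 F
  rw [← hZ] at hts
  -- it suffices to bound `(2 - msz) Z`
  have suff : (2 - msz H lam F) * Z ≤ K * (1 + 2 * δ) + 2 + d1 * Z →
      2 - d1 ≤ (1 + (2 * δ + 2 / K)) * (κ e / ν e) * (lam e / Z) + msz H lam F := by
    intro h
    have h1 : (1 + (2 * δ + 2 / K)) * (κ e / ν e) * (lam e / Z) =
        (K * (1 + 2 * δ) + 2) / Z := by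
      rw [mul_assoc, key1]
      field_simp
      ring
    rw [h1]
    have h2 : 2 - msz H lam F - d1 ≤ (K * (1 + 2 * δ) + 2) / Z := by
      rw [le_div_iff₀ hZp]
      linarith
    linarith
  apply suff
  have hsum : ∑ f ∈ F, lam f = K * ∑ f ∈ F, ν f / κ f := by
    rw [mul_sum]
    exact sum_congr rfl hlamF
  by_cases hcase : ∑ f ∈ F, ∑ g ∈ F, ν f * ν g * W H f g ≤ η1 * m ^ 2
  · have h1 := hrel e F hFN hcase
    have h2 : K * ∑ f ∈ F, ν f / κ f ≤ K * (1 + 2 * δ) := mul_le_mul_of_nonneg_left h1 hK.le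
    have h3 : 0 ≤ d1 * Z := mul_nonneg hd1 hZp.le
    linarith
  · rw [not_le] at hcase
    -- lower bound for `Z`
    have hpairs := Zf_ge_pairs H h0 F
    rw [← hZ] at hpairs
    have h1 : K ^ 2 / (C * m) ^ 2 * (∑ f ∈ F, ∑ g ∈ F, ν f * ν g * W H f g) ≤
        ∑ f ∈ F, ∑ g ∈ F, lam f * lam g * W H f g := by
      rw [mul_sum]
      refine sum_le_sum (fun f hf => ?_)
      rw [mul_sum]
      refine sum_le_sum (fun g hg => ?_)
      rw [hlamF f hf, hlamF g hg]
      have hf1 := (hν f (hFU f hf)).1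
      have hg1 := (hν g (hFU g hg)).1
      have hf2 : ν f / (C * m) ≤ ν f / κ f :=
        div_le_div_of_nonneg_left hf1.le (hκ f) (hκ2 f)
      have hg2 : ν g / (C * m) ≤ ν g / κ g :=
        div_le_div_of_nonneg_left hg1.le (hκ g) (hκ2 g)
      have h3 : (ν f / (C * m)) * (ν g / (C * m)) ≤ (ν f / κ f) * (ν g / κ g) :=
        mul_le_mul hf2 hg2 (div_nonneg hg1.le hCm.le) (div_nonneg hf1.le (hκ f).le)
      have h4 : K ^ 2 * ((ν f / (C * m)) * (ν g / (C * m))) ≤
          K ^ 2 * ((ν f / κ f) * (ν g / κ g)) := mul_le_mul_of_nonneg_left h3 (sq_nonneg K)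
      have h5 := mul_le_mul_of_nonneg_right h4 (W_nonneg H f g)
      calc K ^ 2 / (C * m) ^ 2 * (ν f * ν g * W H f g)
          = K ^ 2 * ((ν f / (C * m)) * (ν g / (C * m))) * W H f g := by
            field_simp
        _ ≤ K ^ 2 * ((ν f / κ f) * (ν g / κ g)) * W H f g := h5
        _ = K * (ν f / κ f) * (K * (ν g / κ g)) * W H f g := by ring
    have h2 : K ^ 2 * η1 / (2 * C ^ 2) ≤ Z := by
      have h3 : K ^ 2 / (C * m) ^ 2 * (η1 * m ^ 2) ≤
          K ^ 2 / (C * m) ^ 2 * (∑ f ∈ F, ∑ g ∈ F, ν f * ν g * W H f g) :=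
        mul_le_mul_of_nonneg_left hcase.le (div_nonneg (sq_nonneg K) (sq_nonneg _))
      have h4 : K ^ 2 / (C * m) ^ 2 * (η1 * m ^ 2) = K ^ 2 * η1 / C ^ 2 := by
        field_simp
      have h5 : K ^ 2 * η1 / (2 * C ^ 2) = 1 / 2 * (K ^ 2 * η1 / C ^ 2) := by
        field_simp
      rw [h5]
      linarith
    -- upper bound for the sum of the activities
    have h6 : ∑ f ∈ F, ν f / κ f ≤ C / (κ0 * s0) := by
      have h7 : ∀ f ∈ F, ν f / κ f ≤ 1 / s0 / (κ0 * m) := by
        intro f hf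
        exact div_le_div₀ (by positivity) (hν f (hFU f hf)).2 hκm (hκ1 f)
      refine (sum_le_card_nsmul F _ _ h7).trans ?_
      rw [nsmul_eq_mul]
      have h8 : (F.card : ℝ) ≤ C * m :=
        le_trans (by exact_mod_cast card_le_card hFN) (hC e)
      have h9 : (F.card : ℝ) * (1 / s0 / (κ0 * m)) ≤ C * m * (1 / s0 / (κ0 * m)) :=
        mul_le_mul_of_nonneg_right h8 (by positivity)
      refine h9.trans (le_of_eq ?_)
      field_simp
    have h10 : 2 + K * C / (κ0 * s0) ≤ d1 * Z := by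
      have hC2 : 0 < 2 * C ^ 2 := by positivity
      have h11 : 2 + K * C / (κ0 * s0) ≤ d1 * (K ^ 2 * η1) / (2 * C ^ 2) := by
        rw [le_div_iff₀ hC2]
        exact hKd
      have h12 : d1 * (K ^ 2 * η1) / (2 * C ^ 2) = d1 * (K ^ 2 * η1 / (2 * C ^ 2)) := by ring
      rw [h12] at h11
      exact h11.trans (mul_le_mul_of_nonneg_left h2 hd1)
    have h13 : K * ∑ f ∈ F, ν f / κ f ≤ K * C / (κ0 * s0) := by
      rw [mul_div_assoc]
      exact mul_le_mul_of_nonneg_left h6 hK.le
    have h14 : 0 ≤ K * (1 + 2 * δ) := by positivity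
    linarith

end Pool.Agent.RM
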