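import Pool.Agent.Helper66.RM.State
import Pool.Agent.Helper97.RM.Cont

/-!
# Tests which transfer the hypothesis on approximate cliques to the weights
(containers for approximate cliques)
-/

set_option autoImplicit false

namespace Pool.Agent.RM

open Finset
open scoped Classical

/-- The tests: the indicator of the closed neighbourhood and the weighted indicators of the
containers. -/
noncomputable def contTest {V : Type} [Fintype V] (H : SimpleGraph V) (κ : V → ℝ) (c : ℝ)
    (TT : V → Finset (Finset V)) (t : (v : V) × Option {S : Finset V // S ∈ TT v}) (e : V) : ℝ :=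
  t.2.elim (if e ∈ nb H t.1 then 1 else 0) (fun S => if e ∈ S.1 then c / κ e else 0)

theorem contTest_none {V : Type} [Fintype V] (H : SimpleGraph V) (κ : V → ℝ) (c : ℝ)
    (TT : V → Finset (Finset V)) (v : V) (e : V) :
    contTest H κ c TT ⟨v, none⟩ e = if e ∈ nb H v then 1 else 0 := rfl

theorem contTest_some {V : Type} [Fintype V] (H : SimpleGraph V) (κ : V → ℝ) (c : ℝ)
    (TT : V → Finset (Finset V)) (v : V) (S : {S : Finset V // S ∈ TT v}) (e : V) :
    contTest H κ c TT ⟨v, some S⟩ e = if e ∈ S.1 then c / κ e else 0 := rfl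

theorem isTests_cont {V : Type} [Fintype V] (H : SimpleGraph V) (κ : V → ℝ) (c : ℝ)
    (hc : 0 < c) (hκ : ∀ e, c ≤ κ e) (TT : V → Finset (Finset V)) (N : ℕ)
    (h1 : ∀ v, ∀ S ∈ TT v, S ⊆ nb H v) (h2 : ∀ v, (TT v).card + 1 ≤ N) :
    IsTests H (fun t : (v : V) × Option {S : Finset V // S ∈ TT v} => t.1)
      (contTest H κ c TT) N where
  nonneg := by
    rintro ⟨v, o⟩ e
    cases o with
    | none =>
      rw [contTest_none]
      split_ifs <;> norm_num
    | some S =>
      rw [contTest_some]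
      split_ifs
      · exact div_nonneg hc.le (hc.le.trans (hκ e))
      · exact le_refl _
  le_one := by
    rintro ⟨v, o⟩ e
    cases o with
    | none =>
      rw [contTest_none]
      split_ifs <;> norm_num
    | some S =>
      rw [contTest_some]
      split_ifs
      · exact (div_le_one (hc.trans_le (hκ e))).2 (hκ e)
      · exact zero_le_one
  supp := by
    rintro ⟨v, o⟩ e he
    cases o with
    | none =>
      rw [contTest_none]
      exact if_neg he
    | some S =>
      rw [contTest_some]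
      exact if_neg fun h => he (h1 v S.1 S.2 h)
  count := by
    intro v
    refine le_trans ?_ (h2 v)
    have hsub : (univ.filter (fun t : (v : V) × Option {S : Finset V // S ∈ TT v} => t.1 = v)) ⊆
        univ.image (fun o : Option {S : Finset V // S ∈ TT v} =>
          (⟨v, o⟩ : (v : V) × Option {S : Finset V // S ∈ TT v})) := by
      rintro ⟨w, o⟩ ht
      have hw : w = v := (mem_filter.1 ht).2
      subst hw
      exact mem_image.2 ⟨o, mem_univ _, rfl⟩
    refine (card_le_card hsub).trans (card_image_le.trans ?_)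
    rw [card_univ, Fintype.card_option, Fintype.card_coe]
  triv := fun v => ⟨⟨v, none⟩, fun e => contTest_none H κ c TT v e⟩

/-- Existence of tests: at most `(D + 2) ^ k` per centre, and every weight function which passes
them with error `θ m` satisfies the relative version of `H2`.  Here `κ` is the excess, `C` bounds
the degrees and `s0` is the freezing threshold. -/
theorem tests (C κ0 s0 δ η : ℝ) (hC : 0 < C) (hκ0 : 0 < κ0) (hs0 : 0 < s0) (hs1 : s0 ≤ 1)
    (hδ : 0 < δ) (hη : 0 < η) :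
    ∃ (k : ℕ) (θ η1 : ℝ), 0 < θ ∧ θ ≤ 1 ∧ 0 < η1 ∧
      ∀ (V : Type) [Fintype V] (H : SimpleGraph V) (κ : V → ℝ) (m : ℝ) (D : ℕ), 1 ≤ m →
        (∀ e, κ0 * m ≤ κ e) → (∀ e, κ e ≤ C * m) → (∀ e, (nb H e).card ≤ D) →
        (D : ℝ) ≤ C * m → H2 H κ m η δ →
        ∃ (T : Type) (_ : Fintype T) (ctr : T → V) (ψ : T → V → ℝ),
          IsTests H ctr ψ ((D + 2) ^ k) ∧
          ∀ ν : V → ℝ, (∀ e, ν e = 0 ∨ (1 ≤ ν e ∧ ν e ≤ 2 / s0)) → Good ψ ν (θ * m) →
            Rel H κ ν m η1 δ := by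
  set k0 : ℕ := ⌊C ^ 2 / η⌋₊ with hk0
  set θ : ℝ := min 1 (κ0 * δ / 2) with hθ
  set x : ℝ := min 1 (δ * s0 * κ0 / (4 * (1 + k0))) with hx
  have hθ0 : 0 < θ := lt_min one_pos (by positivity)
  have hx0 : 0 < x := lt_min one_pos (by positivity)
  have hxle : x * (1 + k0) * (4 / (s0 * κ0)) ≤ δ := by
    have h1 : x ≤ δ * s0 * κ0 / (4 * (1 + k0)) := min_le_right _ _
    calc x * (1 + k0) * (4 / (s0 * κ0))
        ≤ δ * s0 * κ0 / (4 * (1 + k0)) * (1 + k0) * (4 / (s0 * κ0)) := by gcongr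
      _ = δ := by field_simp
  have hθle : θ / κ0 ≤ δ / 2 := by
    have h1 : θ ≤ κ0 * δ / 2 := min_le_right _ _
    rw [div_le_iff₀ hκ0]
    linarith
  refine ⟨k0 + 1, θ, x ^ 2, hθ0, min_le_left _ _, by positivity, ?_⟩
  intro V _ H κ m D hm hκ1 hκ2 hD hDC hH2
  have hm0 : 0 < m := one_pos.trans_le hm
  have hc : 0 < κ0 * m := mul_pos hκ0 hm0
  set s : ℕ := ⌊η / C * m⌋₊ + 1 with hs
  have hs0' : 0 < s := Nat.succ_pos _
  have hsm : η / C * m ≤ s := by
    rw [hs, Nat.cast_add, Nat.cast_one]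
    exact (Nat.lt_floor_add_one _).le
  choose TT hTT using fun e0 : V =>
    Helper97.RM.containers (W := fun a b => b ∉ nb H a) s hs0' (nb H e0)
  have hdiv : ∀ v, (nb H v).card / s ≤ k0 := by
    intro v
    refine Nat.le_floor ?_
    rw [le_div_iff₀ hη]
    have h1 : ((((nb H v).card / s : ℕ) : ℝ)) * s ≤ C * m := by
      have h2 : (nb H v).card / s * s ≤ D := (Nat.div_mul_le_self _ _).trans (hD v)
      calc ((((nb H v).card / s : ℕ) : ℝ)) * s = (((nb H v).card / s * s : ℕ) : ℝ) := by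
            push_cast
            ring
        _ ≤ D := by exact_mod_cast h2
        _ ≤ C * m := hDC
    have h3 : ((((nb H v).card / s : ℕ) : ℝ)) * (η / C * m) ≤ C * m :=
      (mul_le_mul_of_nonneg_left hsm (Nat.cast_nonneg _)).trans h1
    have h4 : ((((nb H v).card / s : ℕ) : ℝ)) * η * m ≤ C ^ 2 * m := by
      calc ((((nb H v).card / s : ℕ) : ℝ)) * η * m
          = C * (((((nb H v).card / s : ℕ) : ℝ)) * (η / C * m)) := by
            field_simp
        _ ≤ C * (C * m) := mul_le_mul_of_nonneg_left h3 hC.le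
        _ = C ^ 2 * m := by ring
    exact le_of_mul_le_mul_right h4 hm0
  have hcard : ∀ v, (TT v).card + 1 ≤ (D + 2) ^ (k0 + 1) := by
    intro v
    have h1 : (TT v).card ≤ (D + 2) ^ k0 := by
      refine (hTT v).1.trans ?_
      refine (Nat.pow_le_pow_left (show (nb H v).card + 1 ≤ D + 2 by
        have := hD v
        omega) _).trans ?_
      exact Nat.pow_le_pow_right (Nat.succ_pos _) (hdiv v)
    have h2 : 1 ≤ (D + 2) ^ k0 := Nat.one_le_pow _ _ (Nat.succ_pos _)
    calc (TT v).card + 1 ≤ (D + 2) ^ k0 + (D + 2) ^ k0 := Nat.add_le_add h1 h2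
      _ = (D + 2) ^ k0 * 2 := by ring
      _ ≤ (D + 2) ^ k0 * (D + 2) := Nat.mul_le_mul_left _ (Nat.le_add_left 2 D)
      _ = (D + 2) ^ (k0 + 1) := (pow_succ _ _).symm
  refine ⟨(v : V) × Option {S : Finset V // S ∈ TT v}, inferInstance, fun t => t.1,
    contTest H κ (κ0 * m) TT, isTests_cont H κ (κ0 * m) hc hκ1 TT _
      (fun v S hS => ((hTT v).2.1 S hS).1) hcard, ?_⟩
  intro ν hν hg e0 F hF hE
  have hν0 : ∀ e, 0 ≤ ν e := fun e => by
    rcases hν e with h | h
    · exact h.ge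
    · linarith [h.1]
  have hκp : ∀ e, 0 < κ e := fun e => hc.trans_le (hκ1 e)
  set F' : Finset V := F.filter (fun e => ν e ≠ 0) with hF'
  have hF'1 : ∀ e ∈ F', 1 ≤ ν e ∧ ν e ≤ 2 / s0 := fun e he =>
    (hν e).resolve_left (mem_filter.1 he).2
  -- few non-adjacent pairs
  have hpairs : ((∑ e ∈ F', (F'.filter (fun f => f ∉ nb H e)).card : ℕ) : ℝ) ≤ (x * m) ^ 2 := by
    rw [mul_pow]
    refine le_trans ?_ hE
    push_cast
    calc ∑ e ∈ F', ((F'.filter (fun f => f ∉ nb H e)).card : ℝ)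
        = ∑ e ∈ F', ∑ f ∈ F', W H e f := by
          refine sum_congr rfl fun e _ => ?_
          rw [card_filter]
          push_cast
          refine sum_congr rfl fun f _ => ?_
          unfold W
          by_cases h : f ∈ nb H e
          · rw [if_pos h, if_neg (not_not.2 h)]
          · rw [if_neg h, if_pos h]
      _ ≤ ∑ e ∈ F', ∑ f ∈ F', ν e * ν f * W H e f := by
          refine sum_le_sum fun e he => sum_le_sum fun f hf => ?_
          have h1 : 1 ≤ ν e * ν f := one_le_mul_of_one_le_of_one_le (hF'1 e he).1 (hF'1 f hf).1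
          calc W H e f = 1 * W H e f := (one_mul _).symm
            _ ≤ ν e * ν f * W H e f := mul_le_mul_of_nonneg_right h1 (W_nonneg H e f)
      _ ≤ ∑ e ∈ F, ∑ f ∈ F, ν e * ν f * W H e f := by
          refine (sum_le_sum fun e _ => sum_le_sum_of_subset_of_nonneg (filter_subset _ _)
            fun f _ _ => mul_nonneg (mul_nonneg (hν0 e) (hν0 f)) (W_nonneg H e f)).trans ?_
          exact sum_le_sum_of_subset_of_nonneg (filter_subset _ _) fun e _ _ =>
            sum_nonneg fun f _ => mul_nonneg (mul_nonneg (hν0 e) (hν0 f)) (W_nonneg H e f)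
  set l : ℕ := ⌊x * m⌋₊ with hl
  obtain ⟨S, hS, hSF⟩ := Helper97.RM.few_pairs (W := fun a b => b ∉ nb H a)
    (hTT e0).2.2 l F' ((filter_subset _ _).trans hF)
  have hSnb : S ⊆ nb H e0 := ((hTT e0).2.1 S hS).1
  have hxm : 0 < x * m := mul_pos hx0 hm0
  have hrest : ((F' \ S).card : ℝ) ≤ x * m * (1 + k0) := by
    have h1 : ((l + 1 : ℕ) : ℝ) * ((F' \ S).card : ℝ) ≤
        (x * m) ^ 2 + ((l + 1 : ℕ) : ℝ) * ((l : ℝ) * (((nb H e0).card / s : ℕ) : ℝ)) := by
      have h2 : (((l + 1) * (F' \ S).card : ℕ) : ℝ) ≤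
          (((∑ e ∈ F', (F'.filter (fun f => f ∉ nb H e)).card) +
            (l + 1) * (l * ((nb H e0).card / s)) : ℕ) : ℝ) := by
        refine Nat.cast_le.2 ?_
        convert hSF
      rw [Nat.cast_mul (l + 1) (F' \ S).card, Nat.cast_add (∑ e ∈ F', _) _,
        Nat.cast_mul (l + 1) (l * _), Nat.cast_mul l] at h2
      exact h2.trans (add_le_add_left hpairs _)
    have hl1 : x * m ≤ ((l + 1 : ℕ) : ℝ) := by
      rw [Nat.cast_add, Nat.cast_one]
      exact (Nat.lt_floor_add_one _).le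
    have hl2 : (l : ℝ) ≤ x * m := Nat.floor_le hxm.le
    have hl0 : (0 : ℝ) < ((l + 1 : ℕ) : ℝ) := by positivity
    have hK : (((nb H e0).card / s : ℕ) : ℝ) ≤ k0 := by exact_mod_cast hdiv e0
    refine le_of_mul_le_mul_left (h1.trans ?_) hl0
    have e1 : (x * m) ^ 2 ≤ ((l + 1 : ℕ) : ℝ) * (x * m) := by
      rw [sq]
      exact mul_le_mul_of_nonneg_right hl1 hxm.le
    have e2 : (l : ℝ) * (((nb H e0).card / s : ℕ) : ℝ) ≤ x * m * k0 :=
      mul_le_mul hl2 hK (Nat.cast_nonneg _) hxm.le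
    calc (x * m) ^ 2 + ((l + 1 : ℕ) : ℝ) * ((l : ℝ) * (((nb H e0).card / s : ℕ) : ℝ))
        ≤ ((l + 1 : ℕ) : ℝ) * (x * m) + ((l + 1 : ℕ) : ℝ) * (x * m * k0) :=
          add_le_add e1 (mul_le_mul_of_nonneg_left e2 hl0.le)
      _ = ((l + 1 : ℕ) : ℝ) * (x * m * (1 + k0)) := by ring
  -- the container satisfies the hypothesis
  have hH : ∑ e ∈ S, 1 / κ e ≤ 1 + δ := by
    refine hH2 e0 S hSnb ?_
    have h3 : ∀ e ∈ S, ∑ f ∈ S, W H e f ≤ η / C * m := by
      intro e he
      have h4 : ∑ f ∈ S, W H e f = ((S.filter (fun f => f ∉ nb H e)).card : ℝ) := by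
        rw [card_filter]
        push_cast
        refine sum_congr rfl fun f _ => ?_
        unfold W
        by_cases h : f ∈ nb H e
        · rw [if_pos h, if_neg (not_not.2 h)]
        · rw [if_neg h, if_pos h]
      rw [h4]
      have h5 : (S.filter (fun f => f ∉ nb H e)).card < ⌊η / C * m⌋₊ + 1 := by
        convert ((hTT e0).2.1 S hS).2 e he
      have h6 : (S.filter (fun f => f ∉ nb H e)).card ≤ ⌊η / C * m⌋₊ := Nat.lt_succ_iff.1 h5
      refine le_trans (Nat.cast_le.2 h6) (Nat.floor_le ?_)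
      positivity
    calc ∑ e ∈ S, ∑ f ∈ S, W H e f ≤ ∑ _e ∈ S, η / C * m := sum_le_sum h3
      _ = (S.card : ℝ) * (η / C * m) := by rw [sum_const, nsmul_eq_mul]
      _ ≤ (C * m) * (η / C * m) := by
          refine mul_le_mul_of_nonneg_right ?_ (by positivity)
          refine le_trans ?_ hDC
          exact_mod_cast (card_le_card hSnb).trans (hD e0)
      _ = η * m ^ 2 := by
          field_simp
  -- the weights on the container
  have hSν : ∑ e ∈ S, ν e / κ e ≤ 1 + δ + δ / 2 := by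
    have h1 := (abs_le.1 (hg ⟨e0, some ⟨S, hS⟩⟩)).2
    have h2 : ∑ e, contTest H κ (κ0 * m) TT ⟨e0, some ⟨S, hS⟩⟩ e * (ν e - 1) =
        κ0 * m * (∑ e ∈ S, ν e / κ e - ∑ e ∈ S, 1 / κ e) := by
      rw [← sum_sub_distrib, mul_sum]
      rw [← sum_filter_add_sum_filter_not univ (fun e => e ∈ S)]
      rw [sum_eq_zero (s := univ.filter (fun e => e ∉ S)) (fun e he => by
        rw [contTest_some, if_neg (mem_filter.1 he).2, zero_mul]), add_zero]
      rw [filter_mem_eq_inter, univ_inter]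
      refine sum_congr rfl fun e he => ?_
      rw [contTest_some, if_pos he]
      ring
    rw [h2] at h1
    have h3 : ∑ e ∈ S, ν e / κ e - ∑ e ∈ S, 1 / κ e ≤ θ / κ0 := by
      rw [le_div_iff₀ hκ0]
      refine le_of_mul_le_mul_right ?_ hm0
      calc (∑ e ∈ S, ν e / κ e - ∑ e ∈ S, 1 / κ e) * κ0 * m
          = κ0 * m * (∑ e ∈ S, ν e / κ e - ∑ e ∈ S, 1 / κ e) := by ring
        _ ≤ θ * m := h1
    linarith
  -- conclusion
  have hsum : ∑ e ∈ F, ν e / κ e = ∑ e ∈ F', ν e / κ e := by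
    rw [hF', sum_filter]
    refine sum_congr rfl fun e _ => ?_
    by_cases h : ν e = 0
    · rw [if_neg (not_not.2 h), h, zero_div]
    · rw [if_pos h]
  rw [hsum, ← sum_inter_add_sum_sdiff F' S]
  have e1 : ∑ e ∈ F' ∩ S, ν e / κ e ≤ ∑ e ∈ S, ν e / κ e :=
    sum_le_sum_of_subset_of_nonneg inter_subset_right fun e _ _ =>
      div_nonneg (hν0 e) (hκp e).le
  have e2 : ∑ e ∈ F' \ S, ν e / κ e ≤ δ / 2 := by
    calc ∑ e ∈ F' \ S, ν e / κ e ≤ ∑ _e ∈ F' \ S, 2 / s0 / (κ0 * m) := by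
          refine sum_le_sum fun e he => ?_
          exact div_le_div₀ (by positivity) (hF'1 e (mem_sdiff.1 he).1).2 hc (hκ1 e)
      _ = ((F' \ S).card : ℝ) * (2 / s0 / (κ0 * m)) := by rw [sum_const, nsmul_eq_mul]
      _ ≤ x * m * (1 + k0) * (2 / s0 / (κ0 * m)) := by gcongr
      _ = x * (1 + k0) * (4 / (s0 * κ0)) / 2 := by
          field_simp
          ring
      _ ≤ δ / 2 := by linarith
  linarith

end Pool.Agent.RM
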