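import Pool.Agent.Helper66.RM.Step
import Pool.Agent.Helper66.RM.Tests
import Pool.Agent.Helper66.RM.Fin

/-!
# The approximate Reed machine
-/

set_option autoImplicit false

namespace Pool.Agent.RM

open Finset
open scoped Classical

theorem State.nu_bounds {V : Type*} [Fintype V] {H : SimpleGraph V} {T : Type} {ψ : T → V → ℝ}
    {κ : V → ℝ} {γ s0 m t θm a b : ℝ} {U R : Finset V} {s : V → ℝ}
    (hst : State H ψ κ γ s0 m t θm a b U R s) (hs0 : 0 < s0) (hs1 : s0 ≤ 1) (e : V) :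
    nuOf U R s e = 0 ∨ (1 ≤ nuOf U R s e ∧ nuOf U R s e ≤ 2 / s0) := by
  unfold nuOf
  split_ifs with h
  · right
    have h3 : s0 / 2 ≤ s e ∧ s e ≤ 1 := by
      rcases mem_union.1 h with h | h
      · exact ⟨by linarith [(hst.sU e h).1], (hst.sU e h).2⟩
      · exact ⟨(hst.sR e h).1, (hst.sR e h).2.trans hs1⟩
    have h4 : 0 < s e := lt_of_lt_of_le (by positivity) h3.1
    refine ⟨(one_le_inv₀ h4).2 h3.2, ?_⟩
    calc (s e)⁻¹ ≤ (s0 / 2)⁻¹ := inv_anti₀ (by positivity) h3.1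
      _ = 2 / s0 := inv_div s0 2
  · exact Or.inl rfl

/-- `N` phases. -/
theorem iterate {V : Type*} [Fintype V] (H : SimpleGraph V) (κ : V → ℝ) (n D Q N : ℕ)
    {T : Type} [Fintype T] (ctr : T → V) (ψ : T → V → ℝ) (hT : IsTests H ctr ψ Q)
    (γ κ0 s0 m θ a C K η1 δ d1 e1 e2 p : ℝ)
    (hstart : ∀ e, ((nb H e).card : ℝ) = 2 * (γ * m) - κ e)
    (hm : 0 < m) (hK : 0 < K) (hκ0 : 0 < κ0) (hs0 : 0 < s0) (hs1 : s0 ≤ 1) (hη1 : 0 < η1)
    (hδ : 0 ≤ δ) (hd1 : 0 ≤ d1) (he1 : 0 < e1) (he2 : 0 < e2) (he21 : e2 ≤ 1)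
    (hκ1 : ∀ e, κ0 * m ≤ κ e) (hκ2 : ∀ e, κ e ≤ C * m)
    (hD : ∀ e, (nb H e).card ≤ D) (hDC : (D : ℝ) ≤ C * m)
    (hrel : ∀ ν : V → ℝ, (∀ e, ν e = 0 ∨ (1 ≤ ν e ∧ ν e ≤ 2 / s0)) → Good ψ ν (θ * m) →
      Rel H κ ν m η1 δ)
    (hKd : (2 + K * C / (κ0 * s0)) * (2 * C ^ 2) ≤ d1 * (K ^ 2 * η1))
    (hnm : (n : ℝ) ≤ m) (hn1 : 8 * (K / (κ0 * s0 * m) * n) ≤ e1)
    (hn2 : 2 * (K / (κ0 * s0 * m) * n) ≤ 1)
    (ha : 2 * (2 * δ + 2 / K) + K / (κ0 * s0 * m) * n ≤ a)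
    (hp1 : Real.exp (-(e1 ^ 2 * n / (8 * Real.exp (2 * (K * C / (κ0 * s0)))))) ≤ p)
    (hp2 : 2 * Real.exp (-(e2 ^ 2 * m / (4 * c1 (1 / s0) (K * C / (κ0 * s0))))) ≤ p)
    (hp4 : 4 * p * (((Q + 1) * D ^ 5 : ℕ) : ℝ) ≤ 1)
    (hN : (N : ℝ) * e2 ≤ θ) :
    ∃ (U R : Finset V) (s : V → ℝ),
      State H ψ κ γ s0 m (N * n) (N * (e2 * m)) a (N * ((d1 + e1) * n)) U R s := by
  induction N with
  | zero =>
    refine ⟨univ, ∅, fun _ => 1, ?_, ?_, ?_, ?_, ?_, ?_⟩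
    · exact Finset.disjoint_empty_right _
    · intro e _
      exact ⟨hs1, le_refl 1⟩
    · intro e he
      exact absurd he (Finset.notMem_empty e)
    · refine ⟨∅, ?_, ?_, ?_⟩
      · simp
      · intro M hM
        exact absurd hM (Finset.notMem_empty M)
      · rintro e ⟨he, _⟩
        exact absurd (mem_univ e) he
    · intro t
      have h : ∑ e, ψ t e * (nuOf univ ∅ (fun _ : V => (1 : ℝ)) e - 1) = 0 := by
        refine sum_eq_zero (fun e _ => ?_)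
        unfold nuOf
        rw [if_pos (mem_union_left _ (mem_univ e))]
        norm_num
      rw [h]
      simp
    · intro e _
      rw [inter_univ, hstart e]
      simp
  | succ N ih =>
    have hN' : (N : ℝ) * e2 ≤ θ := by
      push_cast at hN
      nlinarith
    obtain ⟨U, R, s, hst⟩ := ih hN'
    have hgood : Good ψ (nuOf U R s) (θ * m) := by
      intro t
      refine (hst.good t).trans ?_
      calc (N : ℝ) * (e2 * m) = (N * e2) * m := by ring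
        _ ≤ θ * m := mul_le_mul_of_nonneg_right hN' hm.le
    obtain ⟨U', R', s', h⟩ := step H κ n D Q ctr ψ hT γ κ0 s0 m (N * n) (N * (e2 * m)) a
      (N * ((d1 + e1) * n)) C K η1 δ d1 e1 e2 p U R s hst hm hK hκ0 hs0 hs1 hη1 hδ hd1 he1 he2
      he21 hκ1 hκ2 hD hDC (hrel _ (hst.nu_bounds hs0 hs1) hgood) hKd hnm hn1 hn2 ha hp1 hp2 hp4
    refine ⟨U', R', s', ?_⟩
    have e1' : (((N + 1 : ℕ) : ℝ)) * n = N * n + n := by push_cast; ring
    have e2' : (((N + 1 : ℕ) : ℝ)) * (e2 * m) = N * (e2 * m) + e2 * m := by push_cast; ring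
    have e3' : (((N + 1 : ℕ) : ℝ)) * ((d1 + e1) * n) = N * ((d1 + e1) * n) + (d1 + e1) * n := by
      push_cast; ring
    rw [e1', e2', e3']
    exact h

/-- The exponentially small probability beats the number of neighbouring events. -/
theorem exp_small (c C : ℝ) (hc : 0 < c) (hC : 0 ≤ C) (k : ℕ) : ∃ m0 : ℝ, ∀ m : ℝ, m0 ≤ m →
    ∀ D : ℕ, (D : ℝ) ≤ C * m →
      4 * (2 * Real.exp (-(c * m))) * ((((D + 2) ^ k + 1) * D ^ 5 : ℕ) : ℝ) ≤ 1 := by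
  have h1 := (Real.tendsto_pow_mul_exp_neg_atTop_nhds_zero (k + 5)).comp
    (Filter.tendsto_id.const_mul_atTop hc)
  have h2 : 0 < c ^ (k + 5) / (16 * (C + 2) ^ (k + 5)) := by positivity
  obtain ⟨m1, hm1⟩ := Filter.eventually_atTop.1 (h1.eventually (gt_mem_nhds h2))
  refine ⟨max m1 1, fun m hm D hD => ?_⟩
  have hm1' : m1 ≤ m := (le_max_left _ _).trans hm
  have hm2 : 1 ≤ m := (le_max_right _ _).trans hm
  have h3 := hm1 m hm1'
  simp only [Function.comp, id] at h3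
  have h4 : (D : ℝ) + 2 ≤ (C + 2) * m := by nlinarith
  have h5 : ((((D + 2) ^ k + 1) * D ^ 5 : ℕ) : ℝ) ≤ 2 * ((C + 2) * m) ^ (k + 5) := by
    have h6 : (((D + 2) ^ k + 1) * D ^ 5 : ℕ) ≤ 2 * (D + 2) ^ (k + 5) := by
      have h7 : (D + 2) ^ k + 1 ≤ 2 * (D + 2) ^ k := by
        have := Nat.one_le_pow k (D + 2) (by omega)
        omega
      have h8 : D ^ 5 ≤ (D + 2) ^ 5 := Nat.pow_le_pow_left (by omega) 5
      calc ((D + 2) ^ k + 1) * D ^ 5 ≤ (2 * (D + 2) ^ k) * (D + 2) ^ 5 := Nat.mul_le_mul h7 h8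
        _ = 2 * (D + 2) ^ (k + 5) := by rw [pow_add]; ring
    have h9 : ((((D + 2) ^ k + 1) * D ^ 5 : ℕ) : ℝ) ≤ ((2 * (D + 2) ^ (k + 5) : ℕ) : ℝ) := by
      exact_mod_cast h6
    refine h9.trans ?_
    push_cast
    exact mul_le_mul_of_nonneg_left (pow_le_pow_left₀ (by positivity) h4 _) (by norm_num)
  have h10 : 0 < Real.exp (-(c * m)) := Real.exp_pos _
  calc 4 * (2 * Real.exp (-(c * m))) * ((((D + 2) ^ k + 1) * D ^ 5 : ℕ) : ℝ)
      ≤ 4 * (2 * Real.exp (-(c * m))) * (2 * ((C + 2) * m) ^ (k + 5)) :=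
        mul_le_mul_of_nonneg_left h5 (by positivity)
    _ = (16 * (C + 2) ^ (k + 5) / c ^ (k + 5)) * ((c * m) ^ (k + 5) * Real.exp (-(c * m))) := by
        rw [mul_pow, mul_pow]
        field_simp
        ring
    _ ≤ (16 * (C + 2) ^ (k + 5) / c ^ (k + 5)) * (c ^ (k + 5) / (16 * (C + 2) ^ (k + 5))) :=
        mul_le_mul_of_nonneg_left h3.le (by positivity)
    _ = 1 := by
        field_simp

/-- The constants `K`, `β`, `a`. -/
theorem params (C E s0 d1 κ0 η1 δ : ℝ) (hC0 : 0 < C) (hE0 : 0 < E) (hs00 : 0 < s0)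
    (hd10 : 0 < d1) (hκ0 : 0 < κ0) (hη1 : 0 < η1) (hδ0 : 0 < δ) (hCδ : C * δ = E / 96) :
    ∃ K β a : ℝ, 0 < K ∧ 0 < β ∧ β ≤ 1 ∧ β ≤ E / 32 ∧
      (2 + K * C / (κ0 * s0)) * (2 * C ^ 2) ≤ d1 * (K ^ 2 * η1) ∧
      8 * (K / (κ0 * s0) * β) ≤ d1 ∧ 2 * (K / (κ0 * s0) * β) ≤ 1 ∧
      2 * (2 * δ + 2 / K) + K / (κ0 * s0) * β ≤ a ∧ 0 < a ∧ a * C ≤ E / 8 := by
  obtain ⟨X, hX⟩ : ∃ X, X = (2 + C / (κ0 * s0)) * (2 * C ^ 2) / (d1 * η1) := ⟨_, rfl⟩
  have hX0 : 0 < X := by rw [hX]; positivity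
  obtain ⟨K, hK⟩ : ∃ K, K = 1 + 96 * C / E + X := ⟨_, rfl⟩
  have hx1 : 0 < 96 * C / E := by positivity
  have hK0 : 0 < K := by rw [hK]; positivity
  have hK1 : 1 ≤ K := by linarith
  have hKE : 4 * C / K ≤ E / 24 := by
    have h1 : 96 * C / E ≤ K := by linarith
    rw [div_le_div_iff₀ hK0 (by norm_num)]
    have h2 : 96 * C ≤ K * E := by
      rw [div_le_iff₀ hE0] at h1
      exact h1
    linarith
  have hKd : (2 + K * C / (κ0 * s0)) * (2 * C ^ 2) ≤ d1 * (K ^ 2 * η1) := by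
    have h1 : X ≤ K := by linarith
    rw [hX, div_le_iff₀ (by positivity)] at h1
    have h2 : 2 + K * C / (κ0 * s0) ≤ K * (2 + C / (κ0 * s0)) := by
      have h3 : K * (2 + C / (κ0 * s0)) = 2 * K + K * C / (κ0 * s0) := by ring
      linarith
    calc (2 + K * C / (κ0 * s0)) * (2 * C ^ 2) ≤ K * (2 + C / (κ0 * s0)) * (2 * C ^ 2) :=
          mul_le_mul_of_nonneg_right h2 (by positivity)
      _ = K * ((2 + C / (κ0 * s0)) * (2 * C ^ 2)) := by ring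
      _ ≤ K * (K * (d1 * η1)) := mul_le_mul_of_nonneg_left h1 hK0.le
      _ = d1 * (K ^ 2 * η1) := by ring
  obtain ⟨L0, hL0⟩ : ∃ L0, L0 = K / (κ0 * s0) := ⟨_, rfl⟩
  have hL00 : 0 < L0 := by rw [hL0]; positivity
  obtain ⟨Y, hY⟩ : ∃ Y, Y = 1 + 32 / E + 8 * L0 / d1 + 2 * L0 + 24 * C * L0 / E := ⟨_, rfl⟩
  have y1 : 0 < 32 / E := by positivity
  have y2 : 0 < 8 * L0 / d1 := by positivity
  have y3 : 0 < 2 * L0 := by positivity
  have y4 : 0 < 24 * C * L0 / E := by positivity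
  have hY0 : 0 < Y := by rw [hY]; positivity
  refine ⟨K, 1 / Y, 2 * (2 * δ + 2 / K) + L0 * (1 / Y), hK0, by positivity, ?_, ?_, hKd, ?_, ?_,
    ?_, by positivity, ?_⟩
  · rw [div_le_one hY0]
    linarith
  · rw [div_le_iff₀ hY0]
    have : 32 / E ≤ Y := by linarith
    rw [div_le_iff₀ hE0] at this
    linarith
  · have : 8 * L0 / d1 ≤ Y := by linarith
    rw [div_le_iff₀ hd10] at this
    rw [← hL0, mul_one_div, ← mul_div_assoc, div_le_iff₀ hY0]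
    linarith
  · have : 2 * L0 ≤ Y := by linarith
    rw [← hL0, mul_one_div, ← mul_div_assoc, div_le_iff₀ hY0]
    linarith
  · rw [← hL0]
  · have hβC : C * (L0 * (1 / Y)) ≤ E / 24 := by
      have : 24 * C * L0 / E ≤ Y := by linarith
      rw [div_le_iff₀ hE0] at this
      rw [mul_one_div, ← mul_div_assoc, div_le_iff₀ hY0]
      linarith
    have h1 : (2 * (2 * δ + 2 / K) + L0 * (1 / Y)) * C =
        4 * (C * δ) + 4 * C / K + C * (L0 * (1 / Y)) := by ring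
    rw [h1, hCδ]
    linarith

/-- The exponent of the local lemma. -/
theorem exponent (d1 β e2 s0 Bd : ℝ) (hd1 : 0 < d1) (hβ : 0 < β) (he2 : 0 < e2) :
    ∃ c : ℝ, 0 < c ∧ ∀ (m : ℝ) (n : ℕ), 0 < m → β * m / 2 ≤ n →
      Real.exp (-(d1 ^ 2 * n / (8 * Real.exp (2 * Bd)))) ≤ 2 * Real.exp (-(c * m)) ∧
      2 * Real.exp (-(e2 ^ 2 * m / (4 * c1 (1 / s0) Bd))) ≤ 2 * Real.exp (-(c * m)) := by
  have hc10 : 0 < c1 (1 / s0) Bd := by unfold c1; positivity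
  refine ⟨min (d1 ^ 2 * β / (16 * Real.exp (2 * Bd))) (e2 ^ 2 / (4 * c1 (1 / s0) Bd)),
    lt_min (by positivity) (by positivity), fun m n hm0 hn_ge => ⟨?_, ?_⟩⟩
  · have h1 := min_le_left (d1 ^ 2 * β / (16 * Real.exp (2 * Bd))) (e2 ^ 2 / (4 * c1 (1 / s0) Bd))
    generalize min (d1 ^ 2 * β / (16 * Real.exp (2 * Bd))) (e2 ^ 2 / (4 * c1 (1 / s0) Bd)) = c at *
    have h2 : c * m ≤ d1 ^ 2 * n / (8 * Real.exp (2 * Bd)) := by
      calc c * m ≤ d1 ^ 2 * β / (16 * Real.exp (2 * Bd)) * m :=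
            mul_le_mul_of_nonneg_right h1 hm0.le
        _ = d1 ^ 2 * (β * m / 2) / (8 * Real.exp (2 * Bd)) := by
            field_simp
            ring
        _ ≤ d1 ^ 2 * n / (8 * Real.exp (2 * Bd)) := by
            refine div_le_div_of_nonneg_right ?_ (by positivity)
            exact mul_le_mul_of_nonneg_left hn_ge (by positivity)
    have h3 : Real.exp (-(d1 ^ 2 * n / (8 * Real.exp (2 * Bd)))) ≤ Real.exp (-(c * m)) :=
      Real.exp_le_exp.2 (neg_le_neg h2)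
    have h4 : 0 < Real.exp (-(c * m)) := Real.exp_pos _
    linarith
  · have h1 := min_le_right (d1 ^ 2 * β / (16 * Real.exp (2 * Bd))) (e2 ^ 2 / (4 * c1 (1 / s0) Bd))
    generalize min (d1 ^ 2 * β / (16 * Real.exp (2 * Bd))) (e2 ^ 2 / (4 * c1 (1 / s0) Bd)) = c at *
    refine mul_le_mul_of_nonneg_left (Real.exp_le_exp.2 (neg_le_neg ?_)) (by norm_num)
    calc c * m ≤ e2 ^ 2 / (4 * c1 (1 / s0) Bd) * m := mul_le_mul_of_nonneg_right h1 hm0.le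
      _ = e2 ^ 2 * m / (4 * c1 (1 / s0) Bd) := by ring

/-- The number of phases. -/
theorem phases (γ E β m θ : ℝ) (n : ℕ) (hγ : 0 < γ) (hE0 : 0 < E) (hEγ : E ≤ γ) (hβ0 : 0 < β)
    (hm0 : 0 < m) (hθ0 : 0 < θ) (hn_ge : β * m / 2 ≤ n) :
    ∃ N : ℕ, (N : ℝ) * n ≤ (γ - E / 8) * m ∧ (γ - E / 8) * m ≤ (N : ℝ) * n + n ∧
      (N : ℝ) * (θ / (2 * γ / β + 1)) ≤ θ := by
  have hn0 : (0 : ℝ) < n := lt_of_lt_of_le (by positivity) hn_ge
  have hγE : 0 ≤ (γ - E / 8) * m := mul_nonneg (by linarith) hm0.le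
  obtain ⟨N, hN⟩ : ∃ N, N = ⌊(γ - E / 8) * m / n⌋₊ := ⟨_, rfl⟩
  have hN_le : (N : ℝ) * n ≤ (γ - E / 8) * m := by
    have h1 : (N : ℝ) ≤ (γ - E / 8) * m / n := by
      rw [hN]
      exact Nat.floor_le (div_nonneg hγE hn0.le)
    rwa [le_div_iff₀ hn0] at h1
  have hN_ge : (γ - E / 8) * m ≤ (N : ℝ) * n + n := by
    have h1 := (Nat.lt_floor_add_one ((γ - E / 8) * m / n)).le
    rw [← hN, div_le_iff₀ hn0] at h1
    linarith
  refine ⟨N, hN_le, hN_ge, ?_⟩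
  have hN_P : (N : ℝ) ≤ 2 * γ / β := by
    have h1 : (N : ℝ) * (β * m / 2) ≤ γ * m := by
      have h2 : (N : ℝ) * (β * m / 2) ≤ N * n :=
        mul_le_mul_of_nonneg_left hn_ge (Nat.cast_nonneg N)
      have h3 : 0 < E / 8 * m := by positivity
      linarith
    rw [le_div_iff₀ hβ0]
    have h2 : ((N : ℝ) * β) * m ≤ (2 * γ) * m := by linarith
    exact le_of_mul_le_mul_right h2 hm0
  have hP0 : 0 < 2 * γ / β + 1 := by positivity
  rw [← mul_div_assoc, div_le_iff₀ hP0]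
  have : (N : ℝ) ≤ 2 * γ / β + 1 := by linarith
  have := mul_le_mul_of_nonneg_right this hθ0.le
  linarith

/-- The final count of colours. -/
theorem final_count (γ ε E C m s0 d1 a x y n β : ℝ) (hEε : E ≤ ε) (hC : C = 2 * γ) (hγ : 0 < γ)
    (hm0 : 0 < m) (hE0 : 0 < E) (hs0 : s0 = E / (8 * (C + 1))) (hd1 : d1 = E / (16 * γ))
    (hCa : a * C ≤ E / 8) (hx1 : x ≤ (γ - E / 8) * m) (hx2 : (γ - E / 8) * m ≤ x + n)
    (hy : y ≤ m) (hn : n ≤ β * m) (hβE : β ≤ E / 32) (hEm : 8 ≤ E * m) :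
    x + (s0 * (C * m + y) + 1) + (2 * (γ * m - x) + a * (C * m) + (2 * d1) * x + 1) ≤
      (γ + ε) * m := by
  have hC1 : 0 < C + 1 := by rw [hC]; positivity
  have hs00 : 0 < s0 := by rw [hs0]; positivity
  have g1 : s0 * (C * m + y) ≤ E / 8 * m := by
    have h1 : s0 * (C * m + y) ≤ s0 * ((C + 1) * m) :=
      mul_le_mul_of_nonneg_left (by linarith) hs00.le
    have h2 : s0 * ((C + 1) * m) = E / 8 * m := by
      rw [hs0]
      field_simp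
    linarith
  have g2 : a * (C * m) ≤ E / 8 * m := by
    calc a * (C * m) = a * C * m := by ring
      _ ≤ E / 8 * m := mul_le_mul_of_nonneg_right hCa hm0.le
  have g3 : (2 * d1) * x ≤ E / 8 * m := by
    have h0 : 0 < E / 8 * m := by positivity
    have h2 : (2 * d1) * x ≤ (2 * d1) * (γ * m) :=
      mul_le_mul_of_nonneg_left (by linarith) (by rw [hd1]; positivity)
    have h3 : (2 * d1) * (γ * m) = E / 8 * m := by
      rw [hd1]
      field_simp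
      ring
    linarith
  have g4 : n ≤ E / 32 * m := hn.trans (mul_le_mul_of_nonneg_right hβE hm0.le)
  have g5 : E * m ≤ ε * m := mul_le_mul_of_nonneg_right hEε hm0.le
  linarith

/-- THEOREM RM. -/
theorem reed_machine (γ κ0 ε : ℝ) (hγ : 0 < γ) (hκ0 : 0 < κ0) (hε : 0 < ε) :
    ∃ δ : ℝ, 0 < δ ∧ ∀ η : ℝ, 0 < η → ∃ m0 : ℝ, ∀ m : ℝ, m0 ≤ m →
      ∀ (V : Type) [Fintype V] (H : SimpleGraph V),
        (∀ e, κ0 * m + ((nb H e).card : ℝ) ≤ 2 * (γ * m)) →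
        H2 H (fun e => 2 * (γ * m) - ((nb H e).card : ℝ)) m η δ →
        Cover H (Set.univ : Set V) ((γ + ε) * m) := by
  obtain ⟨E, hE0, hEε, hEγ, hE1⟩ : ∃ E : ℝ, 0 < E ∧ E ≤ ε ∧ E ≤ γ ∧ E ≤ 1 :=
    ⟨min ε (min γ 1), lt_min hε (lt_min hγ one_pos), min_le_left _ _,
      (min_le_right _ _).trans (min_le_left _ _), (min_le_right _ _).trans (min_le_right _ _)⟩
  obtain ⟨C, hC⟩ : ∃ C, C = 2 * γ := ⟨_, rfl⟩
  have hC0 : 0 < C := by rw [hC]; positivity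
  obtain ⟨s0, hs0⟩ : ∃ s0, s0 = E / (8 * (C + 1)) := ⟨_, rfl⟩
  have hs00 : 0 < s0 := by rw [hs0]; positivity
  have hs01 : s0 ≤ 1 := by
    rw [hs0, div_le_one (by positivity)]
    nlinarith
  obtain ⟨d1, hd1⟩ : ∃ d1, d1 = E / (16 * γ) := ⟨_, rfl⟩
  have hd10 : 0 < d1 := by rw [hd1]; positivity
  obtain ⟨δ, hδ⟩ : ∃ δ, δ = E / (96 * C) := ⟨_, rfl⟩
  have hδ0 : 0 < δ := by rw [hδ]; positivity
  have hCδ : C * δ = E / 96 := by
    rw [hδ]
    field_simp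
  refine ⟨δ, hδ0, fun η hη => ?_⟩
  obtain ⟨k, θ, η1, hθ0, hθ1, hη1, htests⟩ := tests C κ0 s0 δ η hC0 hκ0 hs00 hs01 hδ0 hη
  obtain ⟨K, β, a, hK0, hβ0, hβ1, hβE, hKd, hβd, hβ2, ha, ha0, hCa⟩ :=
    params C E s0 d1 κ0 η1 δ hC0 hE0 hs00 hd10 hκ0 hη1 hδ0 hCδ
  obtain ⟨e2, he2⟩ : ∃ e2, e2 = θ / (2 * γ / β + 1) := ⟨_, rfl⟩
  have he20 : 0 < e2 := by rw [he2]; positivity
  have he21 : e2 ≤ 1 := by
    rw [he2, div_le_one (by positivity)]
    have : 0 < 2 * γ / β := by positivity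
    linarith
  obtain ⟨c, hc0, hexp⟩ := exponent d1 β e2 s0 (K * C / (κ0 * s0)) hd10 hβ0 he20
  obtain ⟨m1, hm1⟩ := exp_small c C hc0 hC0.le k
  refine ⟨max m1 (1 + 2 / β + 8 / E), fun m hm V _ H hcard hH2 => ?_⟩
  have hm1' : m1 ≤ m := (le_max_left _ _).trans hm
  have hm2 : 1 + 2 / β + 8 / E ≤ m := (le_max_right _ _).trans hm
  have z1 : 0 < 2 / β := by positivity
  have z2 : 0 < 8 / E := by positivity
  have hm3 : 1 ≤ m := by linarith
  have hm0 : 0 < m := by linarith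
  have hβm : 2 ≤ β * m := by
    have : 2 / β ≤ m := by linarith
    rw [div_le_iff₀ hβ0] at this
    linarith
  have hEm : 8 ≤ E * m := by
    have : 8 / E ≤ m := by linarith
    rw [div_le_iff₀ hE0] at this
    linarith
  have hκ1 : ∀ e, κ0 * m ≤ 2 * (γ * m) - ((nb H e).card : ℝ) := fun e => by linarith [hcard e]
  have hκ2 : ∀ e, 2 * (γ * m) - ((nb H e).card : ℝ) ≤ C * m := fun e => by
    have : (0 : ℝ) ≤ ((nb H e).card : ℝ) := Nat.cast_nonneg _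
    rw [hC]
    linarith
  obtain ⟨D, hD⟩ : ∃ D, D = ⌊C * m⌋₊ := ⟨_, rfl⟩
  have hDC : (D : ℝ) ≤ C * m := by rw [hD]; exact Nat.floor_le (by positivity)
  have hDe : ∀ e, (nb H e).card ≤ D := by
    intro e
    rw [hD]
    refine Nat.le_floor ?_
    have h1 := hcard e
    have h2 : 0 < κ0 * m := by positivity
    rw [hC]
    linarith
  obtain ⟨T, hTfin, ctr, ψ, hT, hrel⟩ := htests V H _ m D hm3 hκ1 hκ2 hDe hDC hH2
  obtain ⟨n, hn⟩ : ∃ n, n = ⌊β * m⌋₊ := ⟨_, rfl⟩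
  have hn_le : (n : ℝ) ≤ β * m := by rw [hn]; exact Nat.floor_le (by positivity)
  have hn_ge : β * m / 2 ≤ n := by
    have := Nat.lt_floor_add_one (β * m)
    rw [← hn] at this
    linarith
  have hnm : (n : ℝ) ≤ m := hn_le.trans (by nlinarith)
  have hLn : K / (κ0 * s0 * m) * n ≤ K / (κ0 * s0) * β := by
    calc K / (κ0 * s0 * m) * n ≤ K / (κ0 * s0 * m) * (β * m) :=
          mul_le_mul_of_nonneg_left hn_le (by positivity)
      _ = K / (κ0 * s0) * β := by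
          field_simp
  obtain ⟨N, hN_le, hN_ge, hNe2⟩ := phases γ E β m θ n hγ hE0 hEγ hβ0 hm0 hθ0 hn_ge
  rw [← he2] at hNe2
  obtain ⟨hp1, hp2⟩ := hexp m n hm0 hn_ge
  obtain ⟨U, R, s, hst⟩ := iterate H _ n D ((D + 2) ^ k) N ctr ψ hT γ κ0 s0 m θ a C K η1 δ d1 d1
    e2 (2 * Real.exp (-(c * m))) (fun e => (sub_sub_cancel _ _).symm) hm0 hK0 hκ0 hs00 hs01 hη1
    hδ0.le hd10.le hd10 he20 he21 hκ1 hκ2 hDe hDC hrel hKd hnm (by linarith) (by linarith)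
    (by linarith) hp1 hp2 (hm1 m hm1' D hDC) hNe2
  have hNe2m : (N : ℝ) * (e2 * m) ≤ m := by
    have h1 : (N : ℝ) * e2 ≤ 1 := hNe2.trans hθ1
    nlinarith
  have hNe20 : 0 ≤ (N : ℝ) * (e2 * m) := by positivity
  have hu : 0 ≤ 2 * (γ * m - N * n) + a * (C * m) + (N : ℝ) * ((d1 + d1) * n) := by
    have h0 : 0 < E / 8 * m := by positivity
    have h1 : 0 ≤ γ * m - N * n := by linarith
    have h2 : 0 ≤ a * (C * m) := by positivity
    have h3 : 0 ≤ (N : ℝ) * ((d1 + d1) * n) := by positivity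
    linarith
  obtain ⟨𝓜, hc1, hc2, hc3⟩ := finish H _ ctr ψ hT γ s0 m (N * n) (N * (e2 * m)) a
    (N * ((d1 + d1) * n)) C U R s hst hs00 ha0.le (fun e => lt_of_lt_of_le (by positivity) (hκ1 e))
    hκ2 (fun e => le_trans (by exact_mod_cast hDe e) hDC) (by positivity) hu
  refine ⟨𝓜, hc1.trans ?_, hc2, hc3⟩
  have hfin := final_count γ ε E C m s0 d1 a (N * n) (N * (e2 * m)) n β hEε hC hγ hm0 hE0 hs0 hd1
    hCa hN_le hN_ge hNe2m hn_le hβE hEm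
  have h1 : (N : ℝ) * ((d1 + d1) * n) = (2 * d1) * (N * n) := by ring
  rw [h1]
  exact hfin

end Pool.Agent.RM
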