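import Pool.Agent.Helper66.RM.Defs

/-!
# The martingale lemma and the lopsided local lemma
-/

set_option autoImplicit false

namespace Pool.Agent.RM

open Finset
open scoped Classical

/-- Splitting off the last coordinate. -/
theorem sum_pi_snoc {B : Type*} (n : ℕ) (S : Fin (n + 1) → Finset B)
    (F : (Fin (n + 1) → B) → ℝ) :
    ∑ ω ∈ Fintype.piFinset S, F ω =
      ∑ ω ∈ Fintype.piFinset (fun i : Fin n => S i.castSucc), ∑ b ∈ S (Fin.last n),
        F (Fin.snoc (α := fun _ => B) ω b) := by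
  rw [← sum_product']
  refine sum_nbij' (fun ω => (fun i => ω i.castSucc, ω (Fin.last n)))
    (fun z => Fin.snoc (α := fun _ => B) z.1 z.2) ?_ ?_ ?_ ?_ ?_
  · intro ω hω
    rw [Fintype.mem_piFinset] at hω
    exact mem_product.2 ⟨Fintype.mem_piFinset.2 fun i => hω _, hω _⟩
  · intro z hz
    obtain ⟨h1, h2⟩ := mem_product.1 hz
    rw [Fintype.mem_piFinset] at h1 ⊢
    intro i
    refine Fin.lastCases ?_ (fun j => ?_) i
    · rw [Fin.snoc_last]
      exact h2
    · rw [Fin.snoc_castSucc]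
      exact h1 j
  · intro ω _
    funext i
    refine Fin.lastCases ?_ (fun j => ?_) i
    · rw [Fin.snoc_last]
    · rw [Fin.snoc_castSucc]
  · intro z _
    refine Prod.ext (funext fun i => ?_) ?_
    · simp
    · simp
  · intro ω _
    congr 1
    funext i
    refine Fin.lastCases ?_ (fun j => ?_) i
    · rw [Fin.snoc_last]
    · rw [Fin.snoc_castSucc]

/-- Exponential moments of a sum of adapted variables on a product space. -/
theorem mart {B : Type*} (n : ℕ) (S : Fin n → Finset B) (p : Fin n → B → ℝ)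
    (hp : ∀ i b, b ∈ S i → 0 ≤ p i b) (u : Fin n → (Fin n → B) → ℝ)
    (hdep : ∀ i ω ω', (∀ j, j ≤ i → ω j = ω' j) → u i ω = u i ω')
    (hstep : ∀ i, ∀ ω ∈ Fintype.piFinset S,
      ∑ b ∈ S i, p i b * Real.exp (u i (Function.update ω i b)) ≤ ∑ b ∈ S i, p i b) :
    ∑ ω ∈ Fintype.piFinset S, (∏ i, p i (ω i)) * Real.exp (∑ i, u i ω) ≤
      ∏ i, ∑ b ∈ S i, p i b := by
  induction n with
  | zero => simp
  | succ n ih =>
    rw [sum_pi_snoc, Fin.prod_univ_castSucc]
    rcases (S (Fin.last n)).eq_empty_or_nonempty with he | ⟨b0, hb0⟩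
    · rw [he]
      simp
    · have h1 := ih (fun i => S i.castSucc) (fun i => p i.castSucc)
        (fun i b hb => hp _ b hb)
        (fun i ω => u i.castSucc (Fin.snoc (α := fun _ => B) ω b0))
        (fun i ω ω' h => hdep _ _ _ fun j hj => by
          have hjn : (j : ℕ) < n := lt_of_le_of_lt (Fin.le_def.1 hj) i.2
          obtain ⟨k, rfl⟩ : ∃ k : Fin n, j = k.castSucc := ⟨⟨j, hjn⟩, rfl⟩
          rw [Fin.snoc_castSucc, Fin.snoc_castSucc]
          exact h k (by simpa using hj))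
        (fun i ω hω => by
          have h2 := hstep i.castSucc (Fin.snoc (α := fun _ => B) ω b0) (by
            rw [Fintype.mem_piFinset] at hω ⊢
            intro i
            refine Fin.lastCases ?_ (fun j => ?_) i
            · rw [Fin.snoc_last]
              exact hb0
            · rw [Fin.snoc_castSucc]
              exact hω j)
          refine le_trans (le_of_eq (sum_congr rfl fun b _ => ?_)) h2
          rw [Fin.snoc_update])
      refine le_trans (sum_le_sum fun ω hω => ?_) (le_trans (le_of_eq (sum_mul _ _ _).symm)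
        (mul_le_mul_of_nonneg_right h1 (sum_nonneg fun b hb => hp _ b hb)))
      have hω' : Fin.snoc (α := fun _ => B) ω b0 ∈ Fintype.piFinset S := by
        rw [Fintype.mem_piFinset] at hω ⊢
        intro i
        refine Fin.lastCases ?_ (fun j => ?_) i
        · rw [Fin.snoc_last]
          exact hb0
        · rw [Fin.snoc_castSucc]
          exact hω j
      have h3 := hstep (Fin.last n) _ hω'
      have h4 : ∀ b ∈ S (Fin.last n),
          (∏ i, p i (Fin.snoc (α := fun _ => B) ω b i)) *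
            Real.exp (∑ i, u i (Fin.snoc (α := fun _ => B) ω b)) =
          ((∏ i : Fin n, p i.castSucc (ω i)) *
            Real.exp (∑ i : Fin n, u i.castSucc (Fin.snoc (α := fun _ => B) ω b0))) *
          (p (Fin.last n) b * Real.exp (u (Fin.last n)
            (Function.update (Fin.snoc (α := fun _ => B) ω b0) (Fin.last n) b))) := by
        intro b _
        rw [Fin.prod_univ_castSucc, Fin.sum_univ_castSucc, Real.exp_add, Fin.snoc_last,
          Fin.update_snoc_last]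
        have h5 : ∀ i : Fin n, u i.castSucc (Fin.snoc (α := fun _ => B) ω b) =
            u i.castSucc (Fin.snoc (α := fun _ => B) ω b0) := fun i => hdep _ _ _ fun j hj => by
          have hjn : (j : ℕ) < n := lt_of_le_of_lt (Fin.le_def.1 hj) i.2
          obtain ⟨k, rfl⟩ : ∃ k : Fin n, j = k.castSucc := ⟨⟨j, hjn⟩, rfl⟩
          rw [Fin.snoc_castSucc, Fin.snoc_castSucc]
        rw [sum_congr rfl fun i _ => h5 i, prod_congr rfl fun i _ => by
          rw [Fin.snoc_castSucc]]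
        ring
      rw [sum_congr rfl h4, ← mul_sum]
      refine mul_le_mul_of_nonneg_left h3 (mul_nonneg (prod_nonneg fun i _ => ?_)
        (Real.exp_pos _).le)
      rw [Fintype.mem_piFinset] at hω
      exact hp _ _ (hω i)

/-- Markov's inequality for the previous lemma. -/
theorem mart_tail {B : Type*} (n : ℕ) (S : Fin n → Finset B) (p : Fin n → B → ℝ)
    (hp : ∀ i b, b ∈ S i → 0 ≤ p i b) (u : Fin n → (Fin n → B) → ℝ)
    (hdep : ∀ i ω ω', (∀ j, j ≤ i → ω j = ω' j) → u i ω = u i ω')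
    (hstep : ∀ i, ∀ ω ∈ Fintype.piFinset S,
      ∑ b ∈ S i, p i b * Real.exp (u i (Function.update ω i b)) ≤ ∑ b ∈ S i, p i b)
    (t : ℝ) (E : (Fin n → B) → Prop)
    (hE : ∀ ω ∈ Fintype.piFinset S, E ω → t ≤ ∑ i, u i ω) :
    ∑ ω ∈ (Fintype.piFinset S).filter E, ∏ i, p i (ω i) ≤
      Real.exp (-t) * ∏ i, ∑ b ∈ S i, p i b := by
  refine le_trans ?_ (mul_le_mul_of_nonneg_left (mart n S p hp u hdep hstep)
    (Real.exp_pos _).le)
  have h0 : ∀ ω ∈ Fintype.piFinset S, 0 ≤ ∏ i, p i (ω i) := fun ω hω =>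
    prod_nonneg fun i _ => hp i _ (Fintype.mem_piFinset.1 hω i)
  rw [mul_sum]
  refine le_trans (sum_le_sum (g := fun ω => Real.exp (-t) *
    ((∏ i, p i (ω i)) * Real.exp (∑ i, u i ω))) fun ω hω => ?_)
    (sum_le_sum_of_subset_of_nonneg (filter_subset _ _) fun ω hω _ =>
      mul_nonneg (Real.exp_pos _).le (mul_nonneg (h0 ω hω) (Real.exp_pos _).le))
  obtain ⟨h1, h2⟩ := mem_filter.1 hω
  have h3 := hE ω h1 h2
  have h4 : 1 ≤ Real.exp (-t) * Real.exp (∑ i, u i ω) := by
    rw [← Real.exp_add]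
    exact Real.one_le_exp (by linarith)
  have h5 := h0 ω h1
  calc ∏ i, p i (ω i) = (∏ i, p i (ω i)) * 1 := (mul_one _).symm
    _ ≤ (∏ i, p i (ω i)) * (Real.exp (-t) * Real.exp (∑ i, u i ω)) :=
        mul_le_mul_of_nonneg_left h4 h5
    _ = _ := by ring

section

variable {Ω : Type*}

/-- Weight of a property. -/
noncomputable def mw (S : Finset Ω) (P : Ω → ℝ) (Q : Ω → Prop) : ℝ := ∑ ω ∈ S.filter Q, P ω

theorem mw_eq (S : Finset Ω) (P : Ω → ℝ) (Q : Ω → Prop) [inst : DecidablePred Q] :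
    mw S P Q = ∑ ω ∈ @filter _ Q inst S, P ω := by
  unfold mw
  congr!

variable {S : Finset Ω} {P : Ω → ℝ}

theorem mw_mono (hP : ∀ ω ∈ S, 0 ≤ P ω) {Q R : Ω → Prop} (h : ∀ ω ∈ S, Q ω → R ω) :
    mw S P Q ≤ mw S P R := by
  unfold mw
  exact sum_le_sum_of_subset_of_nonneg (fun ω hω => mem_filter.2 ⟨(mem_filter.1 hω).1,
    h ω (mem_filter.1 hω).1 (mem_filter.1 hω).2⟩) fun ω hω _ => hP ω (mem_filter.1 hω).1

theorem mw_nonneg (hP : ∀ ω ∈ S, 0 ≤ P ω) (Q : Ω → Prop) : 0 ≤ mw S P Q := by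
  unfold mw
  exact sum_nonneg fun ω hω => hP ω (mem_filter.1 hω).1

theorem mw_cover {κ : Type*} (hP : ∀ ω ∈ S, 0 ≤ P ω) {Q R : Ω → Prop} {A : κ → Ω → Prop}
    (T : Finset κ) (h : ∀ ω ∈ S, Q ω → R ω ∨ ∃ b ∈ T, A b ω ∧ Q ω) :
    mw S P Q ≤ mw S P R + ∑ b ∈ T, mw S P (fun ω => A b ω ∧ Q ω) := by
  unfold mw
  simp only [sum_filter]
  rw [sum_comm, ← sum_add_distrib]
  refine sum_le_sum fun ω hωS => ?_
  have h0 : ∀ (R : Prop) (inst : Decidable R), (0 : ℝ) ≤ @ite ℝ R inst (P ω) 0 := fun R _ => by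
    split_ifs
    · exact hP ω hωS
    · exact le_rfl
  have h00 := sum_nonneg (s := T) fun b _ => h0 (A b ω ∧ Q ω) (Classical.propDecidable _)
  by_cases hQ : Q ω
  · rw [if_pos hQ]
    rcases h ω hωS hQ with h | ⟨b, hb, h1, h2⟩
    · rw [if_pos h]
      exact le_add_of_nonneg_right h00
    · have h3 : @ite ℝ (A b ω ∧ Q ω) (Classical.propDecidable _) (P ω) 0 ≤
          ∑ b ∈ T, @ite ℝ (A b ω ∧ Q ω) (Classical.propDecidable _) (P ω) 0 :=
        single_le_sum (f := fun b => @ite ℝ (A b ω ∧ Q ω) (Classical.propDecidable _) (P ω) 0)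
          (fun b _ => h0 _ _) hb
      rw [if_pos ⟨h1, h2⟩] at h3
      exact h3.trans (le_add_of_nonneg_left (h0 _ _))
  · rw [if_neg hQ]
    exact add_nonneg (h0 _ _) h00

end

/-- The lopsided local lemma. -/
theorem lll {Ω : Type*} (S : Finset Ω) (P : Ω → ℝ) (hP : ∀ ω ∈ S, 0 ≤ P ω)
    (hpos : 0 < ∑ ω ∈ S, P ω) {κ : Type*} [Fintype κ] (A : κ → Ω → Prop)
    (Γ : κ → Finset κ) (d : ℕ) (p : ℝ) (hp0 : 0 ≤ p) (hΓ : ∀ x, (Γ x).card ≤ d)
    (hself : ∀ x, x ∈ Γ x) (h4 : 4 * p * (d : ℝ) ≤ 1)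
    (h : ∀ x, ∀ T : Finset κ, Disjoint T (Γ x) →
      ∑ ω ∈ S.filter (fun ω => A x ω ∧ ∀ y ∈ T, ¬ A y ω), P ω ≤
        p * ∑ ω ∈ S.filter (fun ω => ∀ y ∈ T, ¬ A y ω), P ω) :
    ∃ ω ∈ S, 0 < P ω ∧ ∀ x, ¬ A x ω := by
  have hh : ∀ x, ∀ T : Finset κ, Disjoint T (Γ x) →
      mw S P (fun ω => A x ω ∧ ∀ y ∈ T, ¬ A y ω) ≤ p * mw S P (fun ω => ∀ y ∈ T, ¬ A y ω) := by
    intro x T hT
    rw [mw_eq S P (fun ω => A x ω ∧ ∀ y ∈ T, ¬ A y ω), mw_eq S P (fun ω => ∀ y ∈ T, ¬ A y ω)]
    exact h x T hT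
  clear h
  have key : ∀ n : ℕ, ∀ T : Finset κ, T.card = n → ∀ a,
      mw S P (fun ω => A a ω ∧ ∀ b ∈ T, ¬ A b ω) ≤ 2 * p * mw S P (fun ω => ∀ b ∈ T, ¬ A b ω) := by
    intro n
    induction n using Nat.strong_induction_on with
    | _ n ih =>
      intro T hT a
      set T1 := T.filter (fun b => b ∈ Γ a) with hT1
      set T2 := T.filter (fun b => b ∉ Γ a) with hT2
      have hdis : Disjoint T2 (Γ a) := by
        rw [disjoint_left]
        intro b hb
        exact (mem_filter.1 hb).2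
      have h1 := hh a T2 hdis
      have h2 : mw S P (fun ω => A a ω ∧ ∀ b ∈ T, ¬ A b ω) ≤
          mw S P (fun ω => A a ω ∧ ∀ b ∈ T2, ¬ A b ω) :=
        mw_mono hP fun ω _ hω => ⟨hω.1, fun b hb => hω.2 b (mem_filter.1 hb).1⟩
      have hnn := mw_nonneg hP (fun ω => ∀ b ∈ T, ¬ A b ω)
      have hnn2 := mw_nonneg hP (fun ω => ∀ b ∈ T2, ¬ A b ω)
      have h3 : mw S P (fun ω => ∀ b ∈ T2, ¬ A b ω) ≤
          mw S P (fun ω => ∀ b ∈ T, ¬ A b ω) +
            ∑ b ∈ T1, mw S P (fun ω => A b ω ∧ ∀ b ∈ T2, ¬ A b ω) := by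
        refine mw_cover hP T1 fun ω _ hω => ?_
        by_cases hc : ∃ b ∈ T1, A b ω
        · obtain ⟨b, hb, hb2⟩ := hc
          exact Or.inr ⟨b, hb, hb2, hω⟩
        · push Not at hc
          left
          intro b hb
          by_cases hbn : b ∈ Γ a
          · exact hc b (mem_filter.2 ⟨hb, hbn⟩)
          · exact hω b (mem_filter.2 ⟨hb, hbn⟩)
      have h4' : ∑ b ∈ T1, mw S P (fun ω => A b ω ∧ ∀ b ∈ T2, ¬ A b ω) ≤
          d * (2 * p * mw S P (fun ω => ∀ b ∈ T2, ¬ A b ω)) := by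
        by_cases hemp : T1 = ∅
        · rw [hemp, sum_empty]
          positivity
        · have hlt : T2.card < n := by
            rw [← hT]
            refine card_lt_card ?_
            rw [hT2, filter_ssubset]
            obtain ⟨b, hb⟩ := nonempty_iff_ne_empty.2 hemp
            exact ⟨b, (mem_filter.1 hb).1, fun hc => hc (mem_filter.1 hb).2⟩
          refine (sum_le_sum fun b _ => ih _ hlt T2 rfl b).trans ?_
          rw [sum_const, nsmul_eq_mul]
          refine mul_le_mul_of_nonneg_right ?_ (by positivity)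
          have h5 : T1.card ≤ (Γ a).card :=
            card_le_card fun b hb => (mem_filter.1 hb).2
          exact_mod_cast h5.trans (hΓ a)
      have h5 : mw S P (fun ω => ∀ b ∈ T2, ¬ A b ω) ≤
          2 * mw S P (fun ω => ∀ b ∈ T, ¬ A b ω) := by
        nlinarith
      nlinarith
  have key2 : ∀ T : Finset κ, 0 < mw S P (fun ω => ∀ b ∈ T, ¬ A b ω) := by
    intro T
    induction T using Finset.induction_on with
    | empty =>
      unfold mw
      simpa using hpos
    | insert a T ha ih =>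
      have h1 := key _ T rfl a
      have h2 : mw S P (fun ω => ∀ b ∈ T, ¬ A b ω) ≤
          mw S P (fun ω => ∀ b ∈ insert a T, ¬ A b ω) +
            ∑ b ∈ ({a} : Finset κ), mw S P (fun ω => A b ω ∧ ∀ b ∈ T, ¬ A b ω) := by
        refine mw_cover hP {a} fun ω _ hω => ?_
        by_cases hc : A a ω
        · exact Or.inr ⟨a, mem_singleton_self _, hc, hω⟩
        · left
          intro b hb
          rcases mem_insert.1 hb with rfl | hb
          · exact hc
          · exact hω b hb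
      rw [sum_singleton] at h2
      have h3 : (1 : ℝ) ≤ d := by
        have : 1 ≤ (Γ a).card := card_pos.2 ⟨a, hself a⟩
        exact_mod_cast this.trans (hΓ a)
      have h5 : 4 * p ≤ 1 := by nlinarith
      nlinarith
  have h1 := key2 univ
  unfold mw at h1
  obtain ⟨ω, hω, hω2⟩ := exists_lt_of_sum_lt (f := fun _ : Ω => (0 : ℝ)) (g := P) (by
    simpa using h1)
  obtain ⟨h2, h3⟩ := mem_filter.1 hω
  exact ⟨ω, h2, hω2, fun a => by simpa using h3 a⟩

end Pool.Agent.RM
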