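import Pool.Agent.Helper66.RM.Defs

/-!
# Tests, the hypothesis on approximate cliques, states of the machine
-/

set_option autoImplicit false

namespace Pool.Agent.RM

open Finset
open scoped Classical

variable {V : Type*} [Fintype V]

/-- A family of tests: functions with values in `[0, 1]`, the `t`-th one supported on the closed
neighbourhood of `ctr t`, at most `Q` with a given centre, containing the indicators of the closed
neighbourhoods. -/
structure IsTests (H : SimpleGraph V) {T : Type} [Fintype T] (ctr : T → V) (ψ : T → V → ℝ)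
    (Q : ℕ) : Prop where
  nonneg : ∀ t e, 0 ≤ ψ t e
  le_one : ∀ t e, ψ t e ≤ 1
  supp : ∀ t e, e ∉ nb H (ctr t) → ψ t e = 0
  count : ∀ v, (univ.filter (fun t => ctr t = v)).card ≤ Q
  triv : ∀ v, ∃ t, ∀ e, ψ t e = if e ∈ nb H v then 1 else 0

/-- All tests are passed with error `θm`. -/
def Good {T : Type} (ψ : T → V → ℝ) (ν : V → ℝ) (θm : ℝ) : Prop :=
  ∀ t : T, |∑ e, ψ t e * (ν e - 1)| ≤ θm

/-- The hypothesis on approximate cliques. -/
def H2 (H : SimpleGraph V) (κ : V → ℝ) (m η δ : ℝ) : Prop :=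
  ∀ (e0 : V) (S : Finset V), S ⊆ nb H e0 →
    ∑ e ∈ S, ∑ f ∈ S, W H e f ≤ η * m ^ 2 → ∑ e ∈ S, 1 / κ e ≤ 1 + δ

/-- The relative version of `H2` for the weights `ν`. -/
def Rel (H : SimpleGraph V) (κ ν : V → ℝ) (m η1 δ : ℝ) : Prop :=
  ∀ (e0 : V) (F : Finset V), F ⊆ nb H e0 →
    ∑ e ∈ F, ∑ f ∈ F, ν e * ν f * W H e f ≤ η1 * m ^ 2 → ∑ e ∈ F, ν e / κ e ≤ 1 + 2 * δ

/-- The inverse survival probabilities, `0` on coloured vertices. -/
noncomputable def nuOf (U R : Finset V) (s : V → ℝ) (e : V) : ℝ :=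
  if e ∈ U ∪ R then (s e)⁻¹ else 0

/-- There are at most `t` independent sets which cover `S`. -/
def Cover (H : SimpleGraph V) (S : Set V) (t : ℝ) : Prop :=
  ∃ 𝓜 : Finset (Finset V), (𝓜.card : ℝ) ≤ t ∧ (∀ M ∈ 𝓜, M ∈ ind H univ) ∧
    ∀ e ∈ S, ∃ M ∈ 𝓜, e ∈ M

/-- States of the machine after `t` colours: `U` active, `R` frozen, `s` survival probabilities. -/
structure State (H : SimpleGraph V) {T : Type} (ψ : T → V → ℝ) (κ : V → ℝ)
    (γ s0 m t θm a b : ℝ) (U R : Finset V) (s : V → ℝ) : Prop where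
  disj : Disjoint U R
  sU : ∀ e ∈ U, s0 ≤ s e ∧ s e ≤ 1
  sR : ∀ e ∈ R, s0 / 2 ≤ s e ∧ s e ≤ s0
  cov : Cover H {e | e ∉ U ∧ e ∉ R} t
  good : Good ψ (nuOf U R s) θm
  deg : ∀ e ∈ U, ((nb H e ∩ U).card : ℝ) ≤
    2 * (γ * m - t) - κ e * s e + a * (κ e * (1 - s e)) + b

/-- `ν` has the right total mass on neighbourhoods. -/
theorem Good.sum_le {H : SimpleGraph V} {T : Type} [Fintype T] {ctr : T → V} {ψ : T → V → ℝ}
    {Q : ℕ} (hT : IsTests H ctr ψ Q) {ν : V → ℝ} {θm : ℝ} (hg : Good ψ ν θm) (e0 : V) :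
    ∑ e ∈ nb H e0, ν e ≤ ((nb H e0).card : ℝ) + θm := by
  obtain ⟨t, ht⟩ := hT.triv e0
  have h1 := hg t
  have h2 := (abs_le.1 h1).2
  have h3 : ∑ e, ψ t e * (ν e - 1) = ∑ e ∈ nb H e0, (ν e - 1) := by
    simp only [ht, ite_mul, one_mul, zero_mul]
    rw [← sum_filter, filter_mem_eq_inter, univ_inter]
  rw [h3, sum_sub_distrib, sum_const, nsmul_eq_mul, mul_one] at h2
  linarith

end Pool.Agent.RM
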