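import Pool.Agent.Helper66.RM.Core
import Pool.Agent.Helper66.RM.LO

/-!
# One phase changes a state into a state
-/

set_option autoImplicit false

namespace Pool.Agent.RM

open Finset
open scoped Classical

variable {V : Type*} [Fintype V]

theorem prod_nonneg' {ι : Type*} (s : Finset ι) (a : ι → ℝ) (h1 : ∀ i ∈ s, a i ≤ 1) :
    0 ≤ ∏ i ∈ s, (1 - a i) := prod_nonneg (fun i hi => by linarith [h1 i hi])

theorem prod_le_quad {ι : Type*} (s : Finset ι) (a : ι → ℝ) (h0 : ∀ i ∈ s, 0 ≤ a i)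
    (h1 : ∀ i ∈ s, a i ≤ 1) :
    ∏ i ∈ s, (1 - a i) ≤ 1 - ∑ i ∈ s, a i + (∑ i ∈ s, a i) ^ 2 / 2 := by
  induction s using Finset.induction_on with
  | empty => simp
  | insert i s hi ih =>
    rw [prod_insert hi, sum_insert hi]
    have ih' := ih (fun j hj => h0 j (mem_insert_of_mem hj))
      (fun j hj => h1 j (mem_insert_of_mem hj))
    have ha0 := h0 i (mem_insert_self i s)
    have ha1 := h1 i (mem_insert_self i s)
    have h2 := mul_le_mul_of_nonneg_left ih' (by linarith : (0 : ℝ) ≤ 1 - a i)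
    nlinarith [mul_nonneg ha0 (sq_nonneg (∑ j ∈ s, a j)), sq_nonneg (a i)]

theorem one_sub_le_prod {ι : Type*} (s : Finset ι) (a : ι → ℝ) (h0 : ∀ i ∈ s, 0 ≤ a i)
    (h1 : ∀ i ∈ s, a i ≤ 1) : 1 - ∑ i ∈ s, a i ≤ ∏ i ∈ s, (1 - a i) := by
  induction s using Finset.induction_on with
  | empty => simp
  | insert i s hi ih =>
    rw [prod_insert hi, sum_insert hi]
    have ih' := ih (fun j hj => h0 j (mem_insert_of_mem hj))
      (fun j hj => h1 j (mem_insert_of_mem hj))
    have ha0 := h0 i (mem_insert_self i s)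
    have ha1 := h1 i (mem_insert_self i s)
    have h2 := mul_le_mul_of_nonneg_left ih' (by linarith : (0 : ℝ) ≤ 1 - a i)
    nlinarith [mul_nonneg ha0 (sum_nonneg (fun j hj => h0 j (mem_insert_of_mem hj)) :
      (0 : ℝ) ≤ ∑ j ∈ s, a j)]

/-- The arithmetic of the degree invariant. -/
theorem step_arith (κ s q A d2 a L : ℝ) (hκ : 0 ≤ κ) (hs : 0 ≤ s) (hA0 : 0 ≤ A) (hA1 : A ≤ 1)
    (hAL : A ≤ L) (hq : q ≤ 1 - A + A ^ 2 / 2) (hd2 : 0 ≤ d2) (ha : 2 * d2 + L ≤ a) :
    -(κ * s) + (1 + d2) * (κ * s) * A + a * (κ * (1 - s)) ≤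
      -(κ * (s * q)) + a * (κ * (1 - s * q)) := by
  have h1 : A / 2 ≤ 1 - q := by nlinarith
  have h2 : (2 * d2 + A) * (A / 2) ≤ a * (1 - q) := by
    have h3 : 2 * d2 + A ≤ a := by linarith
    have h4 : 0 ≤ 2 * d2 + A := by linarith
    have h5 : (2 * d2 + A) * (A / 2) ≤ a * (A / 2) :=
      mul_le_mul_of_nonneg_right h3 (by linarith)
    have h6 : a * (A / 2) ≤ a * (1 - q) := mul_le_mul_of_nonneg_left h1 (by linarith)
    linarith
  have h7 : q - 1 + A + d2 * A ≤ a * (1 - q) := by nlinarith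
  have h8 : κ * s * (q - 1 + A + d2 * A) ≤ κ * s * (a * (1 - q)) :=
    mul_le_mul_of_nonneg_left h7 (mul_nonneg hκ hs)
  nlinarith

/-- One phase. -/
theorem step (H : SimpleGraph V) (κ : V → ℝ) (n D Q : ℕ)
    {T : Type} [Fintype T] (ctr : T → V) (ψ : T → V → ℝ) (hT : IsTests H ctr ψ Q)
    (γ κ0 s0 m t θm a b C K η1 δ d1 e1 e2 p : ℝ) (U R : Finset V) (s : V → ℝ)
    (hst : State H ψ κ γ s0 m t θm a b U R s)
    (hm : 0 < m) (hK : 0 < K) (hκ0 : 0 < κ0) (hs0 : 0 < s0) (hs1 : s0 ≤ 1) (hη1 : 0 < η1)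
    (hδ : 0 ≤ δ) (hd1 : 0 ≤ d1) (he1 : 0 < e1) (he2 : 0 < e2) (he21 : e2 ≤ 1)
    (hκ1 : ∀ e, κ0 * m ≤ κ e) (hκ2 : ∀ e, κ e ≤ C * m)
    (hD : ∀ e, (nb H e).card ≤ D) (hDC : (D : ℝ) ≤ C * m)
    (hrel : Rel H κ (nuOf U R s) m η1 δ)
    (hKd : (2 + K * C / (κ0 * s0)) * (2 * C ^ 2) ≤ d1 * (K ^ 2 * η1))
    (hnm : (n : ℝ) ≤ m) (hn1 : 8 * (K / (κ0 * s0 * m) * n) ≤ e1)
    (hn2 : 2 * (K / (κ0 * s0 * m) * n) ≤ 1)
    (ha : 2 * (2 * δ + 2 / K) + K / (κ0 * s0 * m) * n ≤ a)
    (hp1 : Real.exp (-(e1 ^ 2 * n / (8 * Real.exp (2 * (K * C / (κ0 * s0)))))) ≤ p)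
    (hp2 : 2 * Real.exp (-(e2 ^ 2 * m / (4 * c1 (1 / s0) (K * C / (κ0 * s0))))) ≤ p)
    (hp4 : 4 * p * (((Q + 1) * D ^ 5 : ℕ) : ℝ) ≤ 1) :
    ∃ (U' R' : Finset V) (s' : V → ℝ),
      State H ψ κ γ s0 m (t + n) (θm + e2 * m) a (b + (d1 + e1) * n) U' R' s' := by
  set ν := nuOf U R s with hν
  set lam := act K κ ν U with hlam
  set Lam := K / (κ0 * s0 * m) with hLam
  have hLam0 : 0 ≤ Lam := by positivity
  have hκpos : ∀ e, 0 < κ e := fun e => lt_of_lt_of_le (by positivity) (hκ1 e)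
  have hspos : ∀ e ∈ U, 0 < s e := fun e he => lt_of_lt_of_le hs0 (hst.sU e he).1
  have hνU : ∀ e ∈ U, ν e = (s e)⁻¹ := by
    intro e he
    simp only [hν, nuOf]
    rw [if_pos (mem_union_left _ he)]
  have hν0 : ∀ e, 0 ≤ ν e := by
    intro e
    simp only [hν, nuOf]
    split_ifs with h
    · rcases mem_union.1 h with h | h
      · exact (inv_pos.2 (hspos e h)).le
      · exact inv_nonneg.2 (le_trans (by positivity) (hst.sR e h).1)
    · exact le_refl _
  have hνpos : ∀ e ∈ U, 0 < ν e ∧ ν e ≤ 1 / s0 := by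
    intro e he
    rw [hνU e he, one_div]
    exact ⟨inv_pos.2 (hspos e he), inv_anti₀ hs0 (hst.sU e he).1⟩
  have h0 : ∀ e, 0 ≤ lam e := by
    intro e
    simp only [hlam, act]
    split_ifs
    · exact div_nonneg (mul_nonneg hK.le (hν0 e)) (hκpos e).le
    · exact le_refl _
  have h1 : ∀ e, lam e ≤ Lam := by
    intro e
    simp only [hlam, act]
    split_ifs with he
    · have h2 : K * ν e / κ e ≤ K * (1 / s0) / (κ0 * m) :=
        div_le_div₀ (by positivity) (mul_le_mul_of_nonneg_left (hνpos e he).2 hK.le)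
          (by positivity) (hκ1 e)
      refine h2.trans (le_of_eq ?_)
      rw [hLam]
      field_simp
    · exact hLam0
  have hd2 : 0 ≤ 2 * δ + 2 / K := by positivity
  set rho : V → ℝ := fun e => (1 + (2 * δ + 2 / K)) * (κ e / ν e) with hrho
  have hrho0 : ∀ e, 0 ≤ rho e := by
    intro e
    simp only [hrho]
    exact mul_nonneg (by linarith) (div_nonneg (hκpos e).le (hν0 e))
  have hlo := lo H κ ν U C K κ0 s0 m η1 δ d1 hm hK hκ0 hs0 hη1 hδ hd1 hκ1 hκ2
    (fun e => le_trans (by exact_mod_cast hD e) hDC) hνpos hrel hKd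
  have hbd : Lam * (D : ℝ) ≤ K * C / (κ0 * s0) := by
    refine (mul_le_mul_of_nonneg_left hDC hLam0).trans (le_of_eq ?_)
    rw [hLam]
    field_simp
  obtain ⟨M, hM1, hM2, hM3⟩ := core H U h0 h1 hLam0 hrho0 hD (K * C / (κ0 * s0)) d1 e1 e2
    (1 / s0) m hbd hd1 he1 he2 he21 hnm hn1 hn2 hlo ctr (fun t e => ψ t e * ν e)
    (by positivity) (by
      intro t e he
      rw [abs_mul, abs_of_nonneg (hT.nonneg t e), abs_of_nonneg (hν0 e)]
      calc ψ t e * ν e ≤ 1 * (1 / s0) :=
            mul_le_mul (hT.le_one t e) (hνpos e he).2 (hν0 e) zero_le_one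
        _ = 1 / s0 := one_mul _) (by
      intro t e he
      show ψ t e * ν e = 0
      rw [hT.supp t e he, zero_mul]) hT.count p hp1 hp2 hp4
  -- the hazards
  set ac : V → Fin n → ℝ := fun e i => acond H lam U e (M i) with hac
  have hac0 : ∀ e i, 0 ≤ ac e i := fun e i => acond_nonneg H h0 U e (M i)
  have hacL : ∀ e i, ac e i ≤ Lam := fun e i => (acond_le H h0 U e (M i)).trans (h1 e)
  have hsum : ∀ e, ∑ i, ac e i ≤ Lam * n := by
    intro e
    refine (sum_le_sum (fun i _ => hacL e i)).trans (le_of_eq ?_)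
    rw [sum_const, card_univ, Fintype.card_fin, nsmul_eq_mul]
    ring
  have hsum0 : ∀ e, 0 ≤ ∑ i, ac e i := fun e => sum_nonneg (fun i _ => hac0 e i)
  have hLn : Lam * n ≤ 1 / 2 := by linarith
  have hac1 : ∀ e i, ac e i ≤ 1 := by
    intro e i
    have h2 : ac e i ≤ ∑ j, ac e j :=
      single_le_sum (f := fun j => ac e j) (fun j _ => hac0 e j) (mem_univ i)
    linarith [hsum e]
  set q : V → ℝ := fun e => ∏ i, (1 - ac e i) with hq
  have hq_ge : ∀ e, 1 / 2 ≤ q e := by
    intro e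
    have := one_sub_le_prod univ (ac e) (fun i _ => hac0 e i) (fun i _ => hac1 e i)
    simp only [hq]
    linarith [hsum e]
  have hq_quad : ∀ e, q e ≤ 1 - ∑ i, ac e i + (∑ i, ac e i) ^ 2 / 2 := fun e =>
    prod_le_quad univ (ac e) (fun i _ => hac0 e i) (fun i _ => hac1 e i)
  have hq_le : ∀ e, q e ≤ 1 := by
    intro e
    refine prod_le_one (fun i _ => by linarith [hac1 e i]) (fun i _ => by linarith [hac0 e i])
  set s' : V → ℝ := fun e => if e ∈ U then s e * q e else s e with hs'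
  have hs'U : ∀ e ∈ U, s' e = s e * q e := fun e he => by simp only [hs']; rw [if_pos he]
  have hs'N : ∀ e, e ∉ U → s' e = s e := fun e he => by simp only [hs']; rw [if_neg he]
  set U' := (U \ uni M).filter (fun e => s0 ≤ s' e) with hU'
  set R' := R ∪ (U \ uni M).filter (fun e => ¬ s0 ≤ s' e) with hR'
  have hUR : ∀ e, e ∈ U → e ∉ R := fun e h1 h2 => (Finset.disjoint_left.1 hst.disj) h1 h2
  have hU'U : ∀ e ∈ U', e ∈ U := fun e he => (mem_sdiff.1 (mem_filter.1 he).1).1
  have huni : uni M ⊆ U := by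
    intro e he
    obtain ⟨i, hi⟩ := mem_uni.1 he
    exact (mem_ind.1 (hM1 i)).1 hi
  -- the new inverse survival probabilities
  have hν' : ∀ e, nuOf U' R' s' e = ν e + (if e ∈ U then ν e * (∏ i, zf H lam U e (M i) - 1) else 0) := by
    intro e
    by_cases heU : e ∈ U
    · rw [if_pos heU]
      by_cases heM : e ∈ uni M
      · have h3 : e ∉ U' ∪ R' := by
          rw [mem_union, not_or]
          refine ⟨fun h => (mem_sdiff.1 (mem_filter.1 h).1).2 heM, fun h => ?_⟩
          rcases mem_union.1 h with h | h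
          · exact hUR e heU h
          · exact (mem_sdiff.1 (mem_filter.1 h).1).2 heM
        have h4 : ∏ i, zf H lam U e (M i) = 0 := by
          obtain ⟨i, hi⟩ := mem_uni.1 heM
          refine prod_eq_zero (mem_univ i) ?_
          unfold zf
          rw [if_pos hi, zero_div]
        unfold nuOf at *
        rw [if_neg h3, h4]
        ring
      · have h3 : e ∈ U' ∪ R' := by
          rw [mem_union]
          by_cases h : s0 ≤ s' e
          · exact Or.inl (mem_filter.2 ⟨mem_sdiff.2 ⟨heU, heM⟩, h⟩)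
          · exact Or.inr (mem_union_right _ (mem_filter.2 ⟨mem_sdiff.2 ⟨heU, heM⟩, h⟩))
        have h4 : ∏ i, zf H lam U e (M i) = (q e)⁻¹ := by
          simp only [hq]
          rw [← prod_inv_distrib]
          refine prod_congr rfl (fun i _ => ?_)
          unfold zf
          rw [if_neg (fun h => heM (mem_uni.2 ⟨i, h⟩)), one_div]
        rw [h4, hνU e heU]
        unfold nuOf
        rw [if_pos h3, hs'U e heU, mul_inv]
        ring
    · rw [if_neg heU, add_zero]
      simp only [hν, nuOf]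
      by_cases heR : e ∈ R
      · rw [if_pos (mem_union_right _ (mem_union_left _ heR)), if_pos (mem_union_right _ heR),
          hs'N e heU]
      · rw [if_neg, if_neg]
        · rw [mem_union, not_or]
          exact ⟨heU, heR⟩
        · rw [mem_union, not_or]
          refine ⟨fun h => heU (hU'U e h), fun h => ?_⟩
          rcases mem_union.1 h with h | h
          · exact heR h
          · exact heU (mem_sdiff.1 (mem_filter.1 h).1).1
  refine ⟨U', R', s', ?_, ?_, ?_, ?_, ?_, ?_⟩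
  · rw [Finset.disjoint_left]
    intro e he1' he2'
    rcases mem_union.1 he2' with h | h
    · exact hUR e (hU'U e he1') h
    · exact (mem_filter.1 h).2 (mem_filter.1 he1').2
  · intro e he
    refine ⟨(mem_filter.1 he).2, ?_⟩
    have heU := hU'U e he
    rw [hs'U e heU]
    calc s e * q e ≤ 1 * 1 := mul_le_mul (hst.sU e heU).2 (hq_le e)
          (le_trans (by norm_num) (hq_ge e)) zero_le_one
      _ = 1 := one_mul 1
  · intro e he
    rcases mem_union.1 he with h | h
    · rw [hs'N e (fun hU => hUR e hU h)]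
      exact hst.sR e h
    · obtain ⟨h3, h4⟩ := mem_filter.1 h
      have heU := (mem_sdiff.1 h3).1
      refine ⟨?_, (not_le.1 h4).le⟩
      rw [hs'U e heU]
      calc s0 / 2 = s0 * (1 / 2) := by ring
        _ ≤ s e * q e := mul_le_mul (hst.sU e heU).1 (hq_ge e) (by norm_num) (hspos e heU).le
  · obtain ⟨𝓜, h3, h4, h5⟩ := hst.cov
    refine ⟨𝓜 ∪ univ.image M, ?_, ?_, ?_⟩
    · have h6 : (𝓜 ∪ univ.image M).card ≤ 𝓜.card + n := by
        refine (card_union_le _ _).trans ?_
        have := card_image_le (s := (univ : Finset (Fin n))) (f := M)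
        rw [card_univ, Fintype.card_fin] at this
        omega
      have h7 : ((𝓜 ∪ univ.image M).card : ℝ) ≤ (𝓜.card : ℝ) + n := by exact_mod_cast h6
      linarith
    · intro N hN
      rcases mem_union.1 hN with h | h
      · exact h4 N h
      · obtain ⟨i, _, rfl⟩ := mem_image.1 h
        rw [mem_ind]
        exact ⟨subset_univ _, (mem_ind.1 (hM1 i)).2⟩
    · rintro e ⟨he1', he2'⟩
      by_cases heU : e ∈ U
      · by_cases heM : e ∈ uni M
        · obtain ⟨i, hi⟩ := mem_uni.1 heM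
          exact ⟨M i, mem_union_right _ (mem_image.2 ⟨i, mem_univ i, rfl⟩), hi⟩
        · exfalso
          by_cases h : s0 ≤ s' e
          · exact he1' (mem_filter.2 ⟨mem_sdiff.2 ⟨heU, heM⟩, h⟩)
          · exact he2' (mem_union_right _ (mem_filter.2 ⟨mem_sdiff.2 ⟨heU, heM⟩, h⟩))
      · have heR : e ∉ R := fun h => he2' (mem_union_left _ h)
        obtain ⟨N, hN1, hN2⟩ := h5 e ⟨heU, heR⟩
        exact ⟨N, mem_union_left _ hN1, hN2⟩
  · intro t'
    have h3 : ∑ e, ψ t' e * (nuOf U' R' s' e - 1) = ∑ e, ψ t' e * (ν e - 1) +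
        ∑ e ∈ U, ψ t' e * ν e * (∏ i, zf H lam U e (M i) - 1) := by
      rw [← sum_filter_add_sum_filter_not univ (fun e => e ∈ U)
        (fun e => ψ t' e * (nuOf U' R' s' e - 1)),
        ← sum_filter_add_sum_filter_not univ (fun e => e ∈ U) (fun e => ψ t' e * (ν e - 1))]
      have h4 : univ.filter (fun e => e ∈ U) = U := by
        ext e
        rw [mem_filter]
        exact and_iff_right (mem_univ e)
      rw [h4]
      have h5 : ∑ e ∈ univ.filter (fun e => ¬ e ∈ U), ψ t' e * (nuOf U' R' s' e - 1) =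
          ∑ e ∈ univ.filter (fun e => ¬ e ∈ U), ψ t' e * (ν e - 1) := by
        refine sum_congr rfl (fun e he => ?_)
        rw [hν' e, if_neg (mem_filter.1 he).2, add_zero]
      have h6 : ∑ e ∈ U, ψ t' e * (nuOf U' R' s' e - 1) = ∑ e ∈ U, ψ t' e * (ν e - 1) +
          ∑ e ∈ U, ψ t' e * ν e * (∏ i, zf H lam U e (M i) - 1) := by
        rw [← sum_add_distrib]
        refine sum_congr rfl (fun e he => ?_)
        rw [hν' e, if_pos he]
        ring
      rw [h5, h6]
      ring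
    rw [h3]
    refine (abs_add_le _ _).trans (add_le_add (hst.good t') ?_)
    exact hM3 t'
  · intro e he
    have heU := hU'U e he
    have h3 : (nb H e ∩ U').card + (nb H e ∩ uni M).card ≤ (nb H e ∩ U).card := by
      rw [← card_union_of_disjoint]
      · refine card_le_card ?_
        intro f hf
        rcases mem_union.1 hf with h | h
        · exact mem_inter.2 ⟨(mem_inter.1 h).1, hU'U f (mem_inter.1 h).2⟩
        · exact mem_inter.2 ⟨(mem_inter.1 h).1, huni (mem_inter.1 h).2⟩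
      · rw [Finset.disjoint_left]
        intro f hf1 hf2
        exact (mem_sdiff.1 (mem_filter.1 (mem_inter.1 hf1).2).1).2 (mem_inter.1 hf2).2
    have h4 : ((nb H e ∩ U').card : ℝ) + ((nb H e ∩ uni M).card : ℝ) ≤
        ((nb H e ∩ U).card : ℝ) := by exact_mod_cast h3
    have h5 := hst.deg e heU
    have h6 := hM2 e heU
    have h7 : rho e = (1 + (2 * δ + 2 / K)) * (κ e * s e) := by
      simp only [hrho]
      rw [hνU e heU, div_inv_eq_mul]
    rw [h7] at h6
    have h8 := step_arith (κ e) (s e) (q e) (∑ i, ac e i) (2 * δ + 2 / K) a (Lam * n)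
      (hκpos e).le (hspos e heU).le (hsum0 e) (by linarith [hsum e]) (hsum e) (hq_quad e) hd2 ha
    rw [hs'U e heU]
    have h9 : ∑ i, ac e i = ∑ i, acond H lam U e (M i) := rfl
    rw [← h9] at h6
    linarith

end Pool.Agent.RM
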