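import Pool.Agent.Helper66.RM.HC
import Pool.Agent.Helper66.RM.Mart

/-!
# Tail bounds on a product of hard-core models
-/

set_option autoImplicit false

namespace Pool.Agent.RM

open Finset
open scoped Classical

variable {V : Type*} [Fintype V]

theorem exp_neg_le_quad {x : ℝ} (hx : 0 ≤ x) : Real.exp (-x) ≤ 1 - x + x ^ 2 / 2 := by
  have h1 := Real.quadratic_le_exp_of_nonneg hx
  have h2 : 0 < 1 + x + x ^ 2 / 2 := by positivity
  rw [Real.exp_neg]
  refine (inv_anti₀ h2 h1).trans ?_
  rw [inv_le_iff_one_le_mul₀ h2]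
  nlinarith [sq_nonneg (x ^ 2)]

theorem sq_le_two_exp {x : ℝ} (hx : 0 ≤ x) : x ^ 2 ≤ 2 * Real.exp x := by
  have h1 := Real.quadratic_le_exp_of_nonneg hx
  nlinarith

theorem exp_le_quad (x : ℝ) : Real.exp x ≤ 1 + x + x ^ 2 * Real.exp |x| := by
  have h1 : 1 ≤ Real.exp |x| := Real.one_le_exp (abs_nonneg x)
  rcases le_or_gt |x| 1 with h | h
  · have h2 := Real.abs_exp_sub_one_sub_id_le h
    have h3 := (abs_le.1 h2).2
    nlinarith [sq_nonneg x]
  · have h3 : 1 ≤ x ^ 2 := by
      rw [← sq_abs]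
      nlinarith
    rcases abs_cases x with ⟨h4, h5⟩ | ⟨h4, h5⟩
    · rw [h4] at h h1 ⊢
      nlinarith [Real.exp_pos x]
    · rw [h4] at h h1 ⊢
      have h6 : Real.exp x ≤ 1 := Real.exp_le_one_iff.2 h5.le
      have h7 : -x + 1 ≤ Real.exp (-x) := Real.add_one_le_exp (-x)
      nlinarith

/-- The union of the sets with a smaller index. -/
noncomputable def prev {n : ℕ} (I : Fin n → Finset V) (i : Fin n) : Finset V :=
  (univ.filter (fun j => j < i)).biUnion I

omit [Fintype V] in
theorem prev_congr {n : ℕ} {I I' : Fin n → Finset V} {i : Fin n} (h : ∀ j < i, I j = I' j) :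
    prev I i = prev I' i := by
  unfold prev
  refine biUnion_congr rfl (fun j hj => ?_)
  exact h j (mem_filter.1 hj).2

omit [Fintype V] in
theorem prev_subset {n : ℕ} (I : Fin n → Finset V) (i : Fin n) : prev I i ⊆ uni I := by
  intro e he
  unfold prev at he
  rw [mem_biUnion] at he
  obtain ⟨j, _, hj⟩ := he
  exact mem_uni.2 ⟨j, hj⟩

omit [Fintype V] in
theorem sum_new_le {n : ℕ} (I : Fin n → Finset V) :
    ∑ i, (I i \ prev I i).card ≤ (uni I).card := by
  rw [← card_biUnion]
  · refine card_le_card ?_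
    intro e he
    rw [mem_biUnion] at he
    obtain ⟨i, _, hi⟩ := he
    exact mem_uni.2 ⟨i, (mem_sdiff.1 hi).1⟩
  · have key : ∀ i j : Fin n, i < j → Disjoint (I i \ prev I i) (I j \ prev I j) := by
      intro i j hij
      rw [disjoint_left]
      intro e he he2
      refine (mem_sdiff.1 he2).2 ?_
      unfold prev
      rw [mem_biUnion]
      exact ⟨i, mem_filter.2 ⟨mem_univ _, hij⟩, (mem_sdiff.1 he).1⟩
    intro i _ j _ hij
    rcases lt_or_gt_of_ne hij with h | h
    · exact key i j h
    · exact (key j i h).symm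

/-- The union of independent hard-core sets is not much smaller than the sum of the mean sizes. -/
theorem deg_tail (H : SimpleGraph V) {lam : V → ℝ} {Lam : ℝ} (h0 : ∀ e, 0 ≤ lam e)
    (h1 : ∀ e, lam e ≤ Lam) (hLam : 0 ≤ Lam) {n : ℕ} (G : Fin n → Finset V) (Bd e1 : ℝ)
    (hG : ∀ i, Lam * ((G i).card : ℝ) ≤ Bd) (he1 : 0 < e1) (mu : Fin n → ℝ)
    (hmu : ∀ i, mu i ≤ msz H lam (G i)) (hmu2 : ∀ i, mu i ≤ 2) (hn : 8 * (Lam * n) ≤ e1) :
    ∑ I ∈ (fam H G).filter (fun I => ((uni I).card : ℝ) < ∑ i, mu i - e1 * n), pw lam I ≤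
      Real.exp (-(e1 ^ 2 * n / (8 * Real.exp (2 * Bd)))) * ∏ i, Zf H lam (G i) := by
  set C2 : ℝ := Real.exp (2 * Bd) with hC2
  have hC2p : 0 < C2 := Real.exp_pos _
  set th : ℝ := e1 / (4 * C2) with hth
  have hthp : 0 < th := by positivity
  let u : Fin n → (Fin n → Finset V) → ℝ := fun i I =>
    if ((prev I i).card : ℝ) ≤ 2 * n then
      th * (mu i - 2 * (Lam * n) - ((I i \ prev I i).card : ℝ)) - C2 * th ^ 2
    else 0
  refine mart_tail n (fun i => ind H (G i)) (fun _ => wt lam)
    (fun i b _ => wt_nonneg h0 b) u ?_ ?_ _ _ ?_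
  · -- dependence
    intro i I I' h
    have hp : prev I i = prev I' i := prev_congr (fun j hj => h j hj.le)
    simp only [u, hp, h i le_rfl]
  · -- one step
    intro i I _
    have hp : ∀ b, prev (Function.update I i b) i = prev I i := fun b =>
      prev_congr (fun j hj => Function.update_of_ne hj.ne _ _)
    by_cases hc : ((prev I i).card : ℝ) ≤ 2 * n
    · set C := prev I i with hC
      have hBd : 0 ≤ Bd := le_trans (by positivity) (hG i)
      have hu : ∀ b, u i (Function.update I i b) =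
          th * (mu i - 2 * (Lam * n) - ((b \ C).card : ℝ)) - C2 * th ^ 2 := by
        intro b
        simp only [u, hp, if_pos hc, Function.update_self]
      simp only [hu]
      set a : ℝ := th * (mu i - 2 * (Lam * n)) with ha
      have hZ := Zf_pos H h0 (G i)
      -- first moment
      have hm1 : (mu i - 2 * (Lam * n)) * Zf H lam (G i) ≤
          ∑ b ∈ ind H (G i), wt lam b * ((b \ C).card : ℝ) := by
        have e1 : ∀ b : Finset V, ((b \ C).card : ℝ) = (b.card : ℝ) - ((C ∩ b).card : ℝ) := by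
          intro b
          have := card_sdiff_add_card_inter b C
          rw [inter_comm C b, eq_sub_iff_add_eq]
          exact_mod_cast this
        have e2 : ∑ b ∈ ind H (G i), wt lam b * ((b \ C).card : ℝ) =
            ∑ b ∈ ind H (G i), wt lam b * (b.card : ℝ) -
            ∑ b ∈ ind H (G i), wt lam b * ((C ∩ b).card : ℝ) := by
          rw [← sum_sub_distrib]
          refine sum_congr rfl fun b _ => ?_
          rw [e1]; ring
        have e3 := hc_inter H h0 h1 (G i) C
        have e4 : ∑ b ∈ ind H (G i), wt lam b * (b.card : ℝ) =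
            msz H lam (G i) * Zf H lam (G i) := by
          unfold msz
          rw [div_mul_cancel₀ _ hZ.ne']
        have e5 : Lam * (C.card : ℝ) * Zf H lam (G i) ≤ 2 * (Lam * n) * Zf H lam (G i) := by
          refine mul_le_mul_of_nonneg_right ?_ hZ.le
          nlinarith
        have e6 := mul_le_mul_of_nonneg_right (hmu i) hZ.le
        rw [e2, e4]
        linarith
      -- second moment
      have hm2 : ∑ b ∈ ind H (G i), wt lam b * (((b \ C).card : ℝ) ^ 2 / 2) ≤
          C2 * Zf H lam (G i) := by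
        have e1 := hc2 H h0 h1 (G i) (G i) 1 zero_le_one
        have e2 : ∑ b ∈ ind H (G i), wt lam b * (((b \ C).card : ℝ) ^ 2 / 2) ≤
            ∑ b ∈ ind H (G i), wt lam b * Real.exp (1 * ((G i ∩ b).card : ℝ)) := by
          refine sum_le_sum fun b hb => mul_le_mul_of_nonneg_left ?_ (wt_nonneg h0 b)
          rw [inter_eq_right.2 (mem_ind.1 hb).1, one_mul]
          have e3 : ((b \ C).card : ℝ) ≤ b.card := by exact_mod_cast card_le_card sdiff_subset
          have e4 : (0 : ℝ) ≤ ((b \ C).card : ℝ) := by positivity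
          have e5 := sq_le_two_exp (x := (b.card : ℝ)) (by positivity)
          nlinarith
        refine e2.trans (e1.trans (mul_le_mul_of_nonneg_right ?_ hZ.le))
        rw [hC2]
        apply Real.exp_le_exp.2
        have e3 : Real.exp 1 - 1 ≤ 2 := by
          have := Real.exp_one_lt_d9
          linarith
        have e4 : 0 ≤ Lam * ((G i).card : ℝ) := by positivity
        have e5 := hG i
        nlinarith
      -- the exponential moment
      have hm3 : ∑ b ∈ ind H (G i), wt lam b * Real.exp (-(th * ((b \ C).card : ℝ))) ≤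
          (1 - a + C2 * th ^ 2) * Zf H lam (G i) := by
        have e1 : ∑ b ∈ ind H (G i), wt lam b * Real.exp (-(th * ((b \ C).card : ℝ))) ≤
            ∑ b ∈ ind H (G i), (wt lam b - th * (wt lam b * ((b \ C).card : ℝ)) +
              th ^ 2 * (wt lam b * (((b \ C).card : ℝ) ^ 2 / 2))) := by
          refine sum_le_sum fun b _ => ?_
          have := mul_le_mul_of_nonneg_left
            (exp_neg_le_quad (x := th * ((b \ C).card : ℝ)) (by positivity)) (wt_nonneg h0 b)
          refine this.trans (le_of_eq ?_)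
          ring
        refine e1.trans ?_
        rw [sum_add_distrib, sum_sub_distrib, ← mul_sum, ← mul_sum]
        have e2 : ∑ b ∈ ind H (G i), wt lam b = Zf H lam (G i) := rfl
        rw [e2]
        have e3 := mul_le_mul_of_nonneg_left hm1 hthp.le
        have e4 := mul_le_mul_of_nonneg_left hm2 (sq_nonneg th)
        rw [ha]
        linarith
      have e1 : ∀ b : Finset V, wt lam b *
          Real.exp (th * (mu i - 2 * (Lam * n) - ((b \ C).card : ℝ)) - C2 * th ^ 2) =
          Real.exp (a - C2 * th ^ 2) * (wt lam b * Real.exp (-(th * ((b \ C).card : ℝ)))) := by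
        intro b
        rw [show Real.exp (a - C2 * th ^ 2) * (wt lam b * Real.exp (-(th * ((b \ C).card : ℝ)))) =
          wt lam b * (Real.exp (a - C2 * th ^ 2) * Real.exp (-(th * ((b \ C).card : ℝ)))) by ring,
          ← Real.exp_add]
        congr 2
        rw [ha]; ring
      simp only [e1]
      rw [← mul_sum]
      have e2 : 1 - a + C2 * th ^ 2 ≤ Real.exp (-(a - C2 * th ^ 2)) := by
        have := Real.add_one_le_exp (-(a - C2 * th ^ 2))
        linarith
      calc Real.exp (a - C2 * th ^ 2) *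
            ∑ b ∈ ind H (G i), wt lam b * Real.exp (-(th * ((b \ C).card : ℝ)))
          ≤ Real.exp (a - C2 * th ^ 2) * ((1 - a + C2 * th ^ 2) * Zf H lam (G i)) :=
            mul_le_mul_of_nonneg_left hm3 (Real.exp_pos _).le
        _ ≤ Real.exp (a - C2 * th ^ 2) * (Real.exp (-(a - C2 * th ^ 2)) * Zf H lam (G i)) :=
            mul_le_mul_of_nonneg_left (mul_le_mul_of_nonneg_right e2 hZ.le) (Real.exp_pos _).le
        _ = ∑ b ∈ ind H (G i), wt lam b := by
            rw [← mul_assoc, ← Real.exp_add, add_neg_cancel, Real.exp_zero, one_mul]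
            rfl
    · have hu : ∀ b, u i (Function.update I i b) = 0 := by
        intro b
        simp only [u, hp, if_neg hc]
      simp only [hu, Real.exp_zero, mul_one]
      exact le_rfl
  · -- the event
    intro I _ hI
    have hsum2 : ∑ i, mu i ≤ 2 * n := by
      refine (sum_le_sum fun i _ => hmu2 i).trans (le_of_eq ?_)
      rw [sum_const, card_univ, Fintype.card_fin, nsmul_eq_mul, mul_comm]
    have hn0 : (0 : ℝ) ≤ n := by positivity
    have hprev : ∀ i, ((prev I i).card : ℝ) ≤ 2 * n := by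
      intro i
      have e3 : ((prev I i).card : ℝ) ≤ (uni I).card := by
        exact_mod_cast card_le_card (prev_subset I i)
      have e2 : 0 ≤ e1 * (n : ℝ) := by positivity
      have e4 : ((uni I).card : ℝ) < ∑ i, mu i - e1 * n := hI
      linarith
    have hu : ∀ i, u i I = th * (mu i - 2 * (Lam * n) - ((I i \ prev I i).card : ℝ)) -
        C2 * th ^ 2 := fun i => by simp only [u, if_pos (hprev i)]
    simp only [hu]
    rw [sum_sub_distrib, ← mul_sum, sum_sub_distrib, sum_sub_distrib, sum_const, sum_const,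
      card_univ, Fintype.card_fin, nsmul_eq_mul, nsmul_eq_mul]
    have hnew : (∑ i, ((I i \ prev I i).card : ℝ)) ≤ ((uni I).card : ℝ) := by
      exact_mod_cast sum_new_le I
    have hI' : ((uni I).card : ℝ) < ∑ i, mu i - e1 * n := hI
    have hLn : (n : ℝ) * (2 * (Lam * n)) ≤ e1 * n / 4 := by nlinarith
    have hlow : th * (3 / 4 * (e1 * n)) ≤
        th * (∑ i, mu i - n * (2 * (Lam * n)) - ∑ i, ((I i \ prev I i).card : ℝ)) := by
      refine mul_le_mul_of_nonneg_left ?_ hthp.le
      linarith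
    have hval : th * (3 / 4 * (e1 * n)) - n * (C2 * th ^ 2) = e1 ^ 2 * n / (8 * C2) := by
      rw [hth]
      field_simp
      ring
    linarith


/-- The constant in `test_tail`. -/
noncomputable def c1 (B Bd : ℝ) : ℝ :=
  2 * Real.exp (8 * B * Bd) * Real.exp ((Real.exp (4 * B) - 1) * Bd)

/-- The product of the factors with a smaller index. -/
noncomputable def pprod (H : SimpleGraph V) (lam : V → ℝ) {n : ℕ} (G : Fin n → Finset V)
    (I : Fin n → Finset V) (e : V) (i : Fin n) : ℝ :=
  ∏ j ∈ univ.filter (fun j => j < i), zf H lam (G j) e (I j)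

/-- The increments. -/
noncomputable def incr (H : SimpleGraph V) (lam : V → ℝ) {n : ℕ} (G : Fin n → Finset V)
    (E0 : Finset V) (c : V → ℝ) (I : Fin n → Finset V) (i : Fin n) : ℝ :=
  ∑ e ∈ E0, c e * (pprod H lam G I e i * (zf H lam (G i) e (I i) - 1))

/-- Telescoping. -/
theorem prod_telescope {n : ℕ} (a : Fin n → ℝ) :
    ∑ i, (∏ j ∈ univ.filter (fun j => j < i), a j) * (a i - 1) = ∏ i, a i - 1 := by
  induction n with
  | zero => simp
  | succ n ih =>
    rw [Fin.sum_univ_castSucc, Fin.prod_univ_castSucc]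
    have h1 : ∀ i : Fin n, ∏ j ∈ univ.filter (fun j => j < i.castSucc), a j =
        ∏ j ∈ univ.filter (fun j => j < i), a j.castSucc := by
      intro i
      rw [prod_filter, prod_filter, Fin.prod_univ_castSucc, if_neg (by
        rw [not_lt]; exact (Fin.castSucc_lt_last i).le), mul_one]
      exact prod_congr rfl fun j _ => by simp only [Fin.castSucc_lt_castSucc_iff]
    have h2 : ∏ j ∈ univ.filter (fun j => j < Fin.last n), a j = ∏ i : Fin n, a i.castSucc := by
      rw [prod_filter, Fin.prod_univ_castSucc, if_neg (lt_irrefl _), mul_one]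
      exact prod_congr rfl fun j _ => if_pos (Fin.castSucc_lt_last j)
    simp only [h1]
    rw [h2, ih (fun i => a i.castSucc)]
    ring

theorem sum_incr (H : SimpleGraph V) (lam : V → ℝ) {n : ℕ} (G : Fin n → Finset V)
    (E0 : Finset V) (c : V → ℝ) (I : Fin n → Finset V) :
    ∑ i, incr H lam G E0 c I i = ∑ e ∈ E0, c e * (∏ i, zf H lam (G i) e (I i) - 1) := by
  unfold incr
  rw [sum_comm]
  refine sum_congr rfl fun e _ => ?_
  rw [← mul_sum]
  congr 1
  exact prod_telescope (fun i => zf H lam (G i) e (I i))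

theorem zf_bounds (H : SimpleGraph V) {lam : V → ℝ} {Lam : ℝ} (h0 : ∀ e, 0 ≤ lam e)
    (h1 : ∀ e, lam e ≤ Lam) (hL : Lam ≤ 1 / 2) (U : Finset V) (e : V) (M : Finset V) :
    0 ≤ zf H lam U e M ∧ zf H lam U e M ≤ 1 / (1 - Lam) ∧
      |zf H lam U e M - 1| ≤ (if e ∈ M then 1 else 0) + 2 * Lam := by
  have a0 := acond_nonneg H h0 U e M
  have a1 := (acond_le H h0 U e M).trans (h1 e)
  have hL0 : 0 ≤ Lam := (h0 e).trans (h1 e)
  have hp : 0 < 1 - acond H lam U e M := by linarith
  have hp2 : 0 < 1 - Lam := by linarith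
  unfold zf
  by_cases he : e ∈ M
  · rw [if_pos he, if_pos he, zero_div]
    refine ⟨le_rfl, by positivity, ?_⟩
    rw [zero_sub, abs_neg, abs_one]
    linarith
  · rw [if_neg he, if_neg he]
    refine ⟨by positivity, one_div_le_one_div_of_le hp2 (by linarith), ?_⟩
    have e1 : 1 / (1 - acond H lam U e M) - 1 = acond H lam U e M / (1 - acond H lam U e M) := by
      field_simp
      ring
    rw [e1, abs_of_nonneg (by positivity), zero_add, div_le_iff₀ hp]
    nlinarith

theorem pprod_bounds (H : SimpleGraph V) {lam : V → ℝ} {Lam : ℝ} (h0 : ∀ e, 0 ≤ lam e)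
    (h1 : ∀ e, lam e ≤ Lam) (hLam : 0 ≤ Lam) {n : ℕ} (hn : 2 * (Lam * n) ≤ 1)
    (hL : Lam ≤ 1 / 2) (G : Fin n → Finset V) (I : Fin n → Finset V) (e : V) (i : Fin n) :
    0 ≤ pprod H lam G I e i ∧ pprod H lam G I e i ≤ 2 := by
  unfold pprod
  refine ⟨prod_nonneg fun j _ => (zf_bounds H h0 h1 hL (G j) e (I j)).1, ?_⟩
  have hp2 : 0 < 1 - Lam := by linarith
  have h2 : ∏ j ∈ univ.filter (fun j => j < i), zf H lam (G j) e (I j) ≤
      ∏ _j ∈ univ.filter (fun j => j < i), (1 / (1 - Lam)) :=
    prod_le_prod (fun j _ => (zf_bounds H h0 h1 hL (G j) e (I j)).1)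
      (fun j _ => (zf_bounds H h0 h1 hL (G j) e (I j)).2.1)
  refine h2.trans ?_
  rw [prod_const]
  have h3 : (univ.filter (fun j => j < i)).card ≤ n := by
    refine (card_filter_le _ _).trans ?_
    rw [card_univ, Fintype.card_fin]
  have h4 : (1 : ℝ) ≤ 1 / (1 - Lam) := by
    rw [le_div_iff₀ hp2]; linarith
  refine (pow_le_pow_right₀ h4 h3).trans ?_
  rw [div_pow, one_pow]
  have h5 := one_add_mul_le_pow (a := -Lam) (by linarith) n
  have h6 : (1 / 2 : ℝ) ≤ (1 - Lam) ^ n := by
    rw [show 1 - Lam = 1 + -Lam by ring]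
    refine le_trans ?_ h5
    linarith
  rw [div_le_iff₀ (lt_of_lt_of_le (by norm_num) h6)]
  linarith

/-- One sided version. -/
theorem test_tail_aux (H : SimpleGraph V) {lam : V → ℝ} {Lam : ℝ} (h0 : ∀ e, 0 ≤ lam e)
    (h1 : ∀ e, lam e ≤ Lam) (hLam : 0 ≤ Lam) {n : ℕ} (G : Fin n → Finset V) (E0 : Finset V)
    (hE0 : ∀ i, E0 ⊆ G i) (B Bd m e2 : ℝ) (hB : 0 ≤ B) (hE : Lam * (E0.card : ℝ) ≤ Bd)
    (c : V → ℝ) (hc : ∀ e ∈ E0, |c e| ≤ B) (he2 : 0 < e2) (he21 : e2 ≤ 1)
    (hnm : (n : ℝ) ≤ m) (hn : 2 * (Lam * n) ≤ 1) :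
    ∑ I ∈ (fam H G).filter (fun I =>
        e2 * m < ∑ e ∈ E0, c e * (∏ i, zf H lam (G i) e (I i) - 1)), pw lam I ≤
      Real.exp (-(e2 ^ 2 * m / (4 * c1 B Bd))) * ∏ i, Zf H lam (G i) := by
  have hBd : 0 ≤ Bd := le_trans (by positivity) hE
  set K : ℝ := c1 B Bd with hK
  have hK2 : 2 ≤ K := by
    rw [hK]
    unfold c1
    have e1 : 1 ≤ Real.exp (8 * B * Bd) := Real.one_le_exp (by positivity)
    have e2 : 1 ≤ Real.exp ((Real.exp (4 * B) - 1) * Bd) := by
      refine Real.one_le_exp (mul_nonneg ?_ hBd)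
      have := Real.one_le_exp (x := 4 * B) (by positivity)
      linarith
    nlinarith
  have hKp : 0 < K := by linarith
  set s : ℝ := e2 / (2 * K) with hs
  have hsp : 0 < s := by positivity
  have hs1 : s ≤ 1 := by
    rw [hs, div_le_one (by positivity)]
    linarith
  let u : Fin n → (Fin n → Finset V) → ℝ := fun i I => s * incr H lam G E0 c I i - K * s ^ 2
  refine mart_tail n (fun i => ind H (G i)) (fun _ => wt lam)
    (fun i b _ => wt_nonneg h0 b) u ?_ ?_ _ _ ?_
  · intro i I I' h
    have hp : ∀ e, pprod H lam G I e i = pprod H lam G I' e i := by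
      intro e
      unfold pprod
      exact prod_congr rfl fun j hj => by rw [h j (mem_filter.1 hj).2.le]
    simp only [u, incr, hp, h i le_rfl]
  · intro i I _
    have hn1 : (1 : ℝ) ≤ n := by
      have : 0 < n := i.pos
      exact_mod_cast this
    have hL : Lam ≤ 1 / 2 := by nlinarith
    have hp : ∀ b e, pprod H lam G (Function.update I i b) e i = pprod H lam G I e i := by
      intro b e
      unfold pprod
      exact prod_congr rfl fun j hj => by rw [Function.update_of_ne (mem_filter.1 hj).2.ne]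
    have hinc : ∀ b, incr H lam G E0 c (Function.update I i b) i =
        ∑ e ∈ E0, c e * (pprod H lam G I e i * (zf H lam (G i) e b - 1)) := by
      intro b
      unfold incr
      simp only [hp, Function.update_self]
    set D : Finset V → ℝ := fun b =>
      ∑ e ∈ E0, c e * (pprod H lam G I e i * (zf H lam (G i) e b - 1)) with hD
    have hZ := Zf_pos H h0 (G i)
    -- mean zero
    have hD0 : ∑ b ∈ ind H (G i), wt lam b * D b = 0 := by
      simp only [hD, mul_sum]
      rw [sum_comm]
      refine sum_eq_zero fun e he => ?_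
      have e1 := hc3 H h0 (G i) (hE0 i he)
      have e2 : ∑ b ∈ ind H (G i), wt lam b *
          (c e * (pprod H lam G I e i * (zf H lam (G i) e b - 1))) =
          c e * pprod H lam G I e i * (∑ b ∈ ind H (G i), wt lam b * zf H lam (G i) e b -
            ∑ b ∈ ind H (G i), wt lam b) := by
        rw [← sum_sub_distrib, mul_sum]
        exact sum_congr rfl fun b _ => by ring
      rw [e2, e1]
      have e3 : ∑ b ∈ ind H (G i), wt lam b = Zf H lam (G i) := rfl
      rw [e3, sub_self, mul_zero]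
    -- bound
    have hDb : ∀ b, |D b| ≤ 2 * B * ((E0 ∩ b).card : ℝ) + 4 * B * Bd := by
      intro b
      have e1 : |D b| ≤ ∑ e ∈ E0, B * (2 * ((if e ∈ b then 1 else 0) + 2 * Lam)) := by
        refine (abs_sum_le_sum_abs _ _).trans (sum_le_sum fun e he => ?_)
        rw [abs_mul, abs_mul]
        obtain ⟨p0, p1⟩ := pprod_bounds H h0 h1 hLam hn hL G I e i
        rw [abs_of_nonneg p0]
        refine mul_le_mul (hc e he) ?_ (by positivity) hB
        exact mul_le_mul p1 (zf_bounds H h0 h1 hL (G i) e b).2.2 (abs_nonneg _) (by norm_num)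
      refine e1.trans ?_
      rw [← mul_sum, ← mul_sum, sum_add_distrib, sum_const, nsmul_eq_mul, ← sum_filter,
        sum_const, nsmul_eq_mul, mul_one, filter_mem_eq_inter]
      nlinarith
    have hDe : ∑ b ∈ ind H (G i), wt lam b * ((D b) ^ 2 * Real.exp |D b|) ≤
        K * Zf H lam (G i) := by
      have e1 := hc2 H h0 h1 (G i) E0 (4 * B) (by positivity)
      have e2 : ∑ b ∈ ind H (G i), wt lam b * ((D b) ^ 2 * Real.exp |D b|) ≤
          ∑ b ∈ ind H (G i), 2 * Real.exp (8 * B * Bd) *
            (wt lam b * Real.exp (4 * B * ((E0 ∩ b).card : ℝ))) := by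
        refine sum_le_sum fun b _ => ?_
        have e3 : (D b) ^ 2 * Real.exp |D b| ≤ 2 * Real.exp (2 * |D b|) := by
          have e4 := sq_le_two_exp (abs_nonneg (D b))
          rw [sq_abs] at e4
          have e5 := mul_le_mul_of_nonneg_right e4 (Real.exp_pos |D b|).le
          rw [mul_assoc, ← Real.exp_add, ← two_mul] at e5
          exact e5
        have e4 : Real.exp (2 * |D b|) ≤
            Real.exp (8 * B * Bd) * Real.exp (4 * B * ((E0 ∩ b).card : ℝ)) := by
          rw [← Real.exp_add]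
          apply Real.exp_le_exp.2
          have := hDb b
          linarith
        have e5 := wt_nonneg h0 b
        calc wt lam b * ((D b) ^ 2 * Real.exp |D b|)
            ≤ wt lam b * (2 * (Real.exp (8 * B * Bd) *
                Real.exp (4 * B * ((E0 ∩ b).card : ℝ)))) := by
              refine mul_le_mul_of_nonneg_left (e3.trans ?_) e5
              linarith
          _ = _ := by ring
      refine e2.trans ?_
      rw [← mul_sum]
      have e3 : 0 ≤ 2 * Real.exp (8 * B * Bd) := by positivity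
      refine (mul_le_mul_of_nonneg_left e1 e3).trans ?_
      rw [← mul_assoc]
      refine mul_le_mul_of_nonneg_right ?_ hZ.le
      rw [hK]
      unfold c1
      refine mul_le_mul_of_nonneg_left (Real.exp_le_exp.2 ?_) e3
      have e4 : 0 ≤ Real.exp (4 * B) - 1 := by
        have := Real.one_le_exp (x := 4 * B) (by positivity)
        linarith
      exact mul_le_mul_of_nonneg_left hE e4
    have hexp : ∑ b ∈ ind H (G i), wt lam b * Real.exp (s * D b) ≤
        (1 + K * s ^ 2) * Zf H lam (G i) := by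
      have e1 : ∑ b ∈ ind H (G i), wt lam b * Real.exp (s * D b) ≤
          ∑ b ∈ ind H (G i), (wt lam b + s * (wt lam b * D b) +
            s ^ 2 * (wt lam b * ((D b) ^ 2 * Real.exp |D b|))) := by
        refine sum_le_sum fun b _ => ?_
        have e2 := exp_le_quad (s * D b)
        have e3 : (s * D b) ^ 2 * Real.exp |s * D b| ≤ s ^ 2 * ((D b) ^ 2 * Real.exp |D b|) := by
          rw [mul_pow, mul_assoc]
          refine mul_le_mul_of_nonneg_left ?_ (sq_nonneg s)
          refine mul_le_mul_of_nonneg_left (Real.exp_le_exp.2 ?_) (sq_nonneg _)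
          rw [abs_mul, abs_of_pos hsp]
          have := abs_nonneg (D b)
          nlinarith
        have e4 := mul_le_mul_of_nonneg_left (e2.trans (add_le_add_right e3 (1 + s * D b)))
          (wt_nonneg h0 b)
        refine e4.trans (le_of_eq ?_)
        ring
      refine e1.trans ?_
      rw [sum_add_distrib, sum_add_distrib, ← mul_sum, ← mul_sum, hD0, mul_zero, add_zero]
      have e2 : ∑ b ∈ ind H (G i), wt lam b = Zf H lam (G i) := rfl
      rw [e2]
      have e3 := mul_le_mul_of_nonneg_left hDe (sq_nonneg s)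
      linarith
    have hu : ∀ b, u i (Function.update I i b) = s * D b - K * s ^ 2 := by
      intro b
      simp only [u, hinc, hD]
    simp only [hu]
    have e1 : ∀ b, wt lam b * Real.exp (s * D b - K * s ^ 2) =
        Real.exp (-(K * s ^ 2)) * (wt lam b * Real.exp (s * D b)) := by
      intro b
      rw [sub_eq_add_neg, Real.exp_add]
      ring
    simp only [e1]
    rw [← mul_sum]
    have e2 : 1 + K * s ^ 2 ≤ Real.exp (K * s ^ 2) := by
      have := Real.add_one_le_exp (K * s ^ 2)
      linarith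
    calc Real.exp (-(K * s ^ 2)) * ∑ b ∈ ind H (G i), wt lam b * Real.exp (s * D b)
        ≤ Real.exp (-(K * s ^ 2)) * ((1 + K * s ^ 2) * Zf H lam (G i)) :=
          mul_le_mul_of_nonneg_left hexp (Real.exp_pos _).le
      _ ≤ Real.exp (-(K * s ^ 2)) * (Real.exp (K * s ^ 2) * Zf H lam (G i)) :=
          mul_le_mul_of_nonneg_left (mul_le_mul_of_nonneg_right e2 hZ.le) (Real.exp_pos _).le
      _ = ∑ b ∈ ind H (G i), wt lam b := by
          rw [← mul_assoc, ← Real.exp_add, neg_add_cancel, Real.exp_zero, one_mul]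
          rfl
  · intro I _ hI
    have hI' : e2 * m < ∑ e ∈ E0, c e * (∏ i, zf H lam (G i) e (I i) - 1) := hI
    rw [← sum_incr] at hI'
    show _ ≤ ∑ i, (s * incr H lam G E0 c I i - K * s ^ 2)
    rw [sum_sub_distrib, ← mul_sum, sum_const, card_univ, Fintype.card_fin, nsmul_eq_mul]
    have e1 := mul_le_mul_of_nonneg_left hI'.le hsp.le
    have e3 : (n : ℝ) * (K * s ^ 2) ≤ m * (K * s ^ 2) :=
      mul_le_mul_of_nonneg_right hnm (by positivity)
    have e4 : s * (e2 * m) - m * (K * s ^ 2) = e2 ^ 2 * m / (4 * K) := by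
      rw [hs]
      field_simp
      ring
    linarith

/-- Linear statistics of the survival martingales are concentrated. -/
theorem test_tail (H : SimpleGraph V) {lam : V → ℝ} {Lam : ℝ} (h0 : ∀ e, 0 ≤ lam e)
    (h1 : ∀ e, lam e ≤ Lam) (hLam : 0 ≤ Lam) {n : ℕ} (G : Fin n → Finset V) (E0 : Finset V)
    (hE0 : ∀ i, E0 ⊆ G i) (B Bd m e2 : ℝ) (hB : 0 ≤ B) (hE : Lam * (E0.card : ℝ) ≤ Bd)
    (c : V → ℝ) (hc : ∀ e ∈ E0, |c e| ≤ B) (he2 : 0 < e2) (he21 : e2 ≤ 1)
    (hnm : (n : ℝ) ≤ m) (hn : 2 * (Lam * n) ≤ 1) :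
    ∑ I ∈ (fam H G).filter (fun I =>
        e2 * m < |∑ e ∈ E0, c e * (∏ i, zf H lam (G i) e (I i) - 1)|), pw lam I ≤
      2 * Real.exp (-(e2 ^ 2 * m / (4 * c1 B Bd))) * ∏ i, Zf H lam (G i) := by
  have hA := test_tail_aux H h0 h1 hLam G E0 hE0 B Bd m e2 hB hE c hc he2 he21 hnm hn
  have hN := test_tail_aux H h0 h1 hLam G E0 hE0 B Bd m e2 hB hE (fun e => - c e)
    (fun e he => by rw [abs_neg]; exact hc e he) he2 he21 hnm hn
  have hsub : (fam H G).filter (fun I =>
      e2 * m < |∑ e ∈ E0, c e * (∏ i, zf H lam (G i) e (I i) - 1)|) ⊆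
      (fam H G).filter (fun I =>
        e2 * m < ∑ e ∈ E0, c e * (∏ i, zf H lam (G i) e (I i) - 1)) ∪
      (fam H G).filter (fun I =>
        e2 * m < ∑ e ∈ E0, (- c e) * (∏ i, zf H lam (G i) e (I i) - 1)) := by
    intro I hI
    rw [mem_filter] at hI
    rw [mem_union, mem_filter, mem_filter]
    rcases lt_abs.1 hI.2 with h | h
    · exact Or.inl ⟨hI.1, h⟩
    · refine Or.inr ⟨hI.1, ?_⟩
      rw [← sum_neg_distrib] at h
      refine lt_of_lt_of_eq h (sum_congr rfl fun e _ => ?_)
      ring
  have hU : ∀ s t : Finset (Fin n → Finset V),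
      ∑ I ∈ s ∪ t, pw lam I ≤ ∑ I ∈ s, pw lam I + ∑ I ∈ t, pw lam I := by
    intro s t
    have h1 := sum_union_inter (s₁ := s) (s₂ := t) (f := fun I => pw lam I)
    have h2 : 0 ≤ ∑ I ∈ s ∩ t, pw lam I := sum_nonneg fun I _ => pw_nonneg h0 I
    linarith
  refine (sum_le_sum_of_subset_of_nonneg hsub fun I _ _ => pw_nonneg h0 I).trans ?_
  refine (hU _ _).trans ?_
  linarith

end Pool.Agent.RM
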